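import Pool.Agent.Helper71.AA.Defs

/-!
# A Frobenius element which swaps exactly one pair of roots (block AA-SWAP)
-/

set_option autoImplicit false

namespace Pool.Agent.Helper71.AA

open Polynomial

private theorem q_ne_zero {g q ℓ : ℕ} {x : Fin g → ZMod ℓ} {j₀ : Fin g}
    (hx : IsSwapType q ℓ x j₀) : (q : ZMod ℓ) ≠ 0 := by
  intro h
  apply hx.2.1
  rw [h]
  exact ⟨x j₀, by ring⟩

private theorem two_ne {g q ℓ : ℕ} {x : Fin g → ZMod ℓ} {j₀ : Fin g}
    (hx : IsSwapType q ℓ x j₀) : ℓ ≠ 2 := by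
  rintro rfl
  apply hx.2.1
  generalize x j₀ ^ 2 - 4 * (q : ZMod 2) = y
  revert y
  decide

private theorem core {K : Type*} [Field K] [IsAlgClosed K] {g q ℓ : ℕ} [Fact ℓ.Prime] [CharP K ℓ]
    {a b : Fin g → K} (hab : ∀ i, a i * b i = (q : K))
    {x : Fin g → ZMod ℓ} {j₀ : Fin g} (hx : IsSwapType q ℓ x j₀)
    (hP : ∏ i, ((X - C (a i)) * (X - C (b i))) =
      (∏ j, quad (q : ZMod ℓ) (x j)).map (ZMod.castHom (dvd_refl ℓ) K)) :
    Function.Injective a ∧ Function.Injective b ∧ (∀ i j, a i ≠ b j) ∧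
    ∃ i₀, a i₀ ^ ℓ = b i₀ ∧ b i₀ ^ ℓ = a i₀ ∧ ∀ i, i ≠ i₀ → a i ^ ℓ = a i ∧ b i ^ ℓ = b i := by
  have hℓ : ℓ.Prime := Fact.out
  set f : ZMod ℓ →+* K := ZMod.castHom (dvd_refl ℓ) K with hf
  have hfinj : Function.Injective f := f.injective
  have hqK : (q : K) ≠ 0 := by
    have h := q_ne_zero hx
    intro h0
    apply h
    apply hfinj
    rw [map_natCast, h0, map_zero]
  have h2 : ℓ ≠ 2 := two_ne hx
  have h2K : (2 : K) ≠ 0 := by
    have : ((2 : ℕ) : K) ≠ 0 := by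
      intro h
      rw [CharP.cast_eq_zero_iff K ℓ] at h
      exact h2 ((Nat.prime_dvd_prime_iff_eq hℓ Nat.prime_two).1 h)
    exact_mod_cast this
  have ha : ∀ i, a i ≠ 0 := fun i h ↦ hqK (by rw [← hab i, h, zero_mul])
  have hb : ∀ i, b i ≠ 0 := fun i h ↦ hqK (by rw [← hab i, h, mul_zero])
  have hP' : ∏ i, ((X - C (a i)) * (X - C (b i))) =
      ∏ j, (X ^ 2 - C (f (x j)) * X + C (q : K) : K[X]) := by
    rw [hP, Polynomial.map_prod]
    refine Finset.prod_congr rfl fun j _ ↦ ?_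
    simp [quad]
  -- the sums are the `x j`
  have hex : ∀ j, ∃ i, a i + b i = f (x j) := by
    intro j
    obtain ⟨z, hz⟩ := IsAlgClosed.exists_root (X ^ 2 - C (f (x j)) * X + C (q : K) : K[X]) (by
      have : (X ^ 2 - C (f (x j)) * X + C (q : K) : K[X]).degree = 2 := by
        compute_degree!
      rw [this]
      decide)
    have hz' : z ^ 2 - f (x j) * z + q = 0 := by simpa [IsRoot.def] using hz
    have hz0 : z ≠ 0 := by
      rintro rfl
      apply hqK
      simpa using hz'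
    have h1 : (∏ i, ((X - C (a i)) * (X - C (b i)))).eval z = 0 := by
      rw [hP', eval_prod]
      exact Finset.prod_eq_zero (Finset.mem_univ j) (by simpa using hz')
    rw [eval_prod, Finset.prod_eq_zero_iff] at h1
    obtain ⟨i, -, hi⟩ := h1
    have hi' : (z - a i) * (z - b i) = 0 := by simpa using hi
    refine ⟨i, ?_⟩
    have h3 : z * (a i + b i - f (x j)) = 0 := by
      have := hab i
      linear_combination hz' - hi' + hab i
    have h4 := (mul_eq_zero.1 h3).resolve_left hz0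
    exact sub_eq_zero.1 h4
  choose ρ hρ using hex
  have hρinj : Function.Injective ρ := by
    intro j j' h
    apply hx.1
    apply hfinj
    rw [← hρ j, ← hρ j', h]
  have hρsurj : Function.Surjective ρ := Finite.surjective_of_injective hρinj
  have hsinj : ∀ i i', a i + b i = a i' + b i' → i = i' := by
    intro i i' h
    obtain ⟨j, rfl⟩ := hρsurj i
    obtain ⟨j', rfl⟩ := hρsurj i'
    rw [hρ, hρ] at h
    rw [hx.1 (hfinj h)]
  have hb' : ∀ i, b i = q / a i := fun i ↦ by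
    rw [eq_div_iff (ha i), mul_comm]; exact hab i
  have ha' : ∀ i, a i = q / b i := fun i ↦ by
    rw [eq_div_iff (hb i)]; exact hab i
  have hD0 : ∀ j, x j ^ 2 - 4 * (q : ZMod ℓ) ≠ 0 := by
    intro j
    by_cases hj : j = j₀
    · rw [hj]
      intro h
      apply hx.2.1
      rw [h]
      exact ⟨0, by ring⟩
    · exact (hx.2.2 j hj).1
  refine ⟨?_, ?_, ?_, ?_⟩
  · intro i i' h
    apply hsinj
    rw [hb' i, hb' i', h]
  · intro i i' h
    apply hsinj
    rw [ha' i, ha' i', h]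
  · intro i i' h
    have hii : i = i' := by
      apply hsinj
      have h1 : b i = a i' := by rw [hb' i, ha' i', h]
      rw [h1, h, add_comm]
    subst hii
    obtain ⟨j, rfl⟩ := hρsurj i
    apply hD0 j
    apply hfinj
    have h1 := hρ j
    have h2 := hab (ρ j)
    rw [map_sub, map_pow, map_mul, map_natCast, map_zero, ← h1, ← h2, ← h]
    simp only [map_ofNat]
    ring
  · -- the Frobenius
    have hpow : ∀ j, (2 * a (ρ j) - f (x j)) ^ ℓ =
        f ((x j ^ 2 - 4 * (q : ZMod ℓ)) ^ (ℓ / 2)) * (2 * a (ρ j) - f (x j)) := by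
      intro j
      have h1 := hρ j
      have h3 := hab (ρ j)
      have hodd : ℓ = 2 * (ℓ / 2) + 1 := by
        have := hℓ.eq_two_or_odd
        omega
      have hsq : (2 * a (ρ j) - f (x j)) ^ 2 = f (x j ^ 2 - 4 * (q : ZMod ℓ)) := by
        rw [map_sub, map_pow, map_mul, map_natCast, ← h1, ← h3]
        simp only [map_ofNat]
        ring
      have hw : ∀ w : K, w ^ ℓ = (w ^ 2) ^ (ℓ / 2) * w := fun w ↦ by
        rw [← pow_mul, ← pow_succ, ← hodd]
      rw [hw, hsq, map_pow]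
    have hfrob : ∀ y : ZMod ℓ, f y ^ ℓ = f y := by
      intro y
      rw [← map_pow, ZMod.pow_card]
    have h2f : (2 : K) ^ ℓ = 2 := by
      have := hfrob 2
      rwa [map_ofNat] at this
    have hsub : ∀ j, (2 * a (ρ j) - f (x j)) ^ ℓ = 2 * a (ρ j) ^ ℓ - f (x j) := by
      intro j
      rw [sub_pow_char, mul_pow, hfrob, h2f]
    have hadd : ∀ j, b (ρ j) ^ ℓ = f (x j) - a (ρ j) ^ ℓ := by
      intro j
      have h1 : b (ρ j) = f (x j) - a (ρ j) := by rw [← hρ j]; ring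
      rw [h1, sub_pow_char, hfrob]
    refine ⟨ρ j₀, ?_⟩
    have hm1 : (x j₀ ^ 2 - 4 * (q : ZMod ℓ)) ^ (ℓ / 2) = -1 := by
      rcases ZMod.pow_div_two_eq_neg_one_or_one ℓ (hD0 j₀) with h | h
      · exact absurd ((ZMod.euler_criterion ℓ (hD0 j₀)).2 h) hx.2.1
      · exact h
    have h0 : a (ρ j₀) ^ ℓ = b (ρ j₀) := by
      have h1 := hpow j₀
      rw [hm1, hsub, map_neg, map_one] at h1
      have h3 := hρ j₀
      apply mul_left_cancel₀ h2K
      linear_combination h1 - 2 * h3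
    refine ⟨h0, ?_, ?_⟩
    · rw [hadd, h0, ← hρ j₀]
      ring
    · intro i hi
      obtain ⟨j, rfl⟩ := hρsurj i
      have hj : j ≠ j₀ := fun h ↦ hi (by rw [h])
      have h1 := hpow j
      rw [(ZMod.euler_criterion ℓ (hD0 j)).1 (hx.2.2 j hj).2, hsub, map_one] at h1
      have h3 : a (ρ j) ^ ℓ = a (ρ j) := by
        apply mul_left_cancel₀ h2K
        linear_combination h1
      refine ⟨h3, ?_⟩
      rw [hadd, h3, ← hρ j]
      ring

open NumberField in
private theorem setup {L : Type} [Field L] [NumberField L] {g q ℓ : ℕ}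
    [Fact ℓ.Prime] {P : ℤ[X]} {α β : Fin g → L} (hαβ : ∀ i, α i * β i = (q : L))
    (hP : P.map (Int.castRingHom L) = ∏ i, ((X - C (α i)) * (X - C (β i))))
    {x : Fin g → ZMod ℓ}
    (hPl : P.map (Int.castRingHom (ZMod ℓ)) = ∏ j, quad (q : ZMod ℓ) (x j))
    {K : Type} [Field K] [CharP K ℓ] (φ : 𝓞 L →+* K) :
    ∃ A B : Fin g → 𝓞 L, (∀ i, (A i : L) = α i) ∧ (∀ i, (B i : L) = β i) ∧
      (∀ i, φ (A i) * φ (B i) = q) ∧ ∏ i, ((X - C (φ (A i))) * (X - C (φ (B i)))) =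
      (∏ j, quad (q : ZMod ℓ) (x j)).map (ZMod.castHom (dvd_refl ℓ) K) := by
  have hm : P.Monic := by
    apply monic_of_injective (f := Int.castRingHom L) (RingHom.injective_int _)
    rw [hP]
    exact monic_prod_of_monic _ _ fun i _ ↦ (monic_X_sub_C _).mul (monic_X_sub_C _)
  have hint : ∀ z : L, (P.map (Int.castRingHom L)).eval z = 0 → IsIntegral ℤ z := by
    intro z hz
    refine ⟨P, hm, ?_⟩
    rw [← eval_map]
    exact hz
  have hα : ∀ i, IsIntegral ℤ (α i) := fun i ↦ hint _ (by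
    rw [hP, eval_prod]
    exact Finset.prod_eq_zero (Finset.mem_univ i) (by simp))
  have hβ : ∀ i, IsIntegral ℤ (β i) := fun i ↦ hint _ (by
    rw [hP, eval_prod]
    exact Finset.prod_eq_zero (Finset.mem_univ i) (by simp))
  have hinj : Function.Injective (algebraMap (𝓞 L) L) := RingOfIntegers.coe_injective
  have hA : ∀ i, ∃ A : 𝓞 L, algebraMap (𝓞 L) L A = α i := fun i ↦ ⟨⟨α i, hα i⟩, rfl⟩
  have hB : ∀ i, ∃ B : 𝓞 L, algebraMap (𝓞 L) L B = β i := fun i ↦ ⟨⟨β i, hβ i⟩, rfl⟩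
  choose A hA using hA
  choose B hB using hB
  refine ⟨A, B, hA, hB, ?_, ?_⟩
  · intro i
    rw [← map_mul, ← map_natCast φ]
    congr 1
    apply hinj
    rw [map_mul, map_natCast, hA, hB]
    exact hαβ i
  · rw [← hPl, Polynomial.map_map]
    have h1 : P.map (Int.castRingHom (𝓞 L)) = ∏ i, ((X - C (A i)) * (X - C (B i))) := by
      apply Polynomial.map_injective _ hinj
      rw [Polynomial.map_map, Polynomial.map_prod]
      have : (algebraMap (𝓞 L) L).comp (Int.castRingHom (𝓞 L)) = Int.castRingHom L :=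
        RingHom.ext_int _ _
      rw [this, hP]
      refine Finset.prod_congr rfl fun i _ ↦ ?_
      rw [Polynomial.map_mul, Polynomial.map_sub, Polynomial.map_sub, map_X, map_C, map_C, hA, hB]
    have h2 : (ZMod.castHom (dvd_refl ℓ) K).comp (Int.castRingHom (ZMod ℓ)) =
        φ.comp (Int.castRingHom (𝓞 L)) := RingHom.ext_int _ _
    rw [h2, ← Polynomial.map_map, h1, Polynomial.map_prod]
    refine Finset.prod_congr rfl fun i _ ↦ ?_
    rw [Polynomial.map_mul, Polynomial.map_sub, Polynomial.map_sub, map_X, map_C, map_C]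

open NumberField in
/-- A maximal ideal over `ℓ`. -/
private theorem exists_place (L : Type) [Field L] [NumberField L] (ℓ : ℕ) [Fact ℓ.Prime] :
    ∃ Q : Ideal (𝓞 L), Q.IsMaximal ∧ (ℓ : 𝓞 L) ∈ Q ∧ Q.under ℤ = Ideal.span {(ℓ : ℤ)} := by
  obtain ⟨Q, hQ, hQ'⟩ := Ideal.exists_maximal_ideal_liesOver_of_isIntegral (S := 𝓞 L)
    (Ideal.span {(ℓ : ℤ)})
  refine ⟨Q, hQ, ?_, hQ'.over.symm⟩
  have h1 : (ℓ : ℤ) ∈ Q.under ℤ := by
    rw [← hQ'.over]
    exact Ideal.mem_span_singleton_self _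
  rw [Ideal.mem_comap] at h1
  simpa using h1

open NumberField in
/-- A homomorphism from the integers of `L` to an algebraically closed field of
characteristic `ℓ`, together with a Frobenius element. -/
private theorem exists_frob (L : Type) [Field L] [NumberField L] (ℓ : ℕ) [Fact ℓ.Prime] :
    ∃ (K : Type) (_ : Field K) (_ : IsAlgClosed K) (_ : CharP K ℓ) (φ : 𝓞 L →+* K),
      IsGalois ℚ L → ∃ σ : L ≃ₐ[ℚ] L, ∀ y : 𝓞 L, φ (σ • y) = φ y ^ ℓ := by
  obtain ⟨Q, hQ, hQℓ, hQ'⟩ := exists_place L ℓ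
  let _ : Field (𝓞 L ⧸ Q) := Ideal.Quotient.field Q
  let φ : 𝓞 L →+* AlgebraicClosure (𝓞 L ⧸ Q) :=
    (algebraMap (𝓞 L ⧸ Q) (AlgebraicClosure (𝓞 L ⧸ Q))).comp (Ideal.Quotient.mk Q)
  have h0 : ((ℓ : ℕ) : AlgebraicClosure (𝓞 L ⧸ Q)) = 0 := by
    rw [← map_natCast φ]
    show algebraMap (𝓞 L ⧸ Q) (AlgebraicClosure (𝓞 L ⧸ Q)) (Ideal.Quotient.mk Q (ℓ : 𝓞 L)) = 0
    rw [Ideal.Quotient.eq_zero_iff_mem.2 hQℓ, map_zero]
  refine ⟨AlgebraicClosure (𝓞 L ⧸ Q), inferInstance, inferInstance, ?_, φ, ?_⟩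
  · exact ringChar.of_eq (CharP.ringChar_of_prime_eq_zero Fact.out h0)
  · intro hG
    obtain ⟨σ, hσ⟩ := IsArithFrobAt.exists_of_isInvariant ℤ (L ≃ₐ[ℚ] L) Q
    refine ⟨σ, fun y ↦ ?_⟩
    have h1 := hσ.mk_apply y
    have h2 : Nat.card (ℤ ⧸ Q.under ℤ) = ℓ := by
      rw [hQ', Nat.card_congr (Int.quotientSpanNatEquivZMod ℓ).toEquiv, Nat.card_zmod]
    rw [h2] at h1
    have h3 := congrArg (algebraMap (𝓞 L ⧸ Q) (AlgebraicClosure (𝓞 L ⧸ Q))) h1
    rw [map_pow] at h3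
    exact h3

/-- The roots are pairwise different, because they are so modulo `ℓ`. -/
theorem roots_distinct {L : Type} [Field L] [NumberField L] {g q ℓ : ℕ}
    [Fact ℓ.Prime] {P : ℤ[X]} {α β : Fin g → L} (hαβ : ∀ i, α i * β i = (q : L))
    (hP : P.map (Int.castRingHom L) = ∏ i, ((X - C (α i)) * (X - C (β i))))
    {x : Fin g → ZMod ℓ} {j₀ : Fin g} (hx : IsSwapType q ℓ x j₀)
    (hPl : P.map (Int.castRingHom (ZMod ℓ)) = ∏ j, quad (q : ZMod ℓ) (x j)) :
    Function.Injective α ∧ Function.Injective β ∧ ∀ i j, α i ≠ β j := by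
  obtain ⟨K, _, _, _, φ, -⟩ := exists_frob L ℓ
  obtain ⟨A, B, hA, hB, hAB, hprod⟩ := setup hαβ hP hPl φ
  obtain ⟨h1, h2, h3, -⟩ := core hAB hx hprod
  have hinj : Function.Injective (algebraMap (NumberField.RingOfIntegers L) L) :=
    NumberField.RingOfIntegers.coe_injective
  refine ⟨fun i j h ↦ h1 (congrArg φ (hinj ?_)), fun i j h ↦ h2 (congrArg φ (hinj ?_)),
    fun i j h ↦ h3 i j (congrArg φ (hinj ?_))⟩
  · exact (hA i).trans (h.trans (hA j).symm)
  · exact (hB i).trans (h.trans (hB j).symm)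
  · exact (hA i).trans (h.trans (hB j).symm)

theorem exists_swap {L : Type} [Field L] [NumberField L] [IsGalois ℚ L] {g q ℓ : ℕ}
    [Fact ℓ.Prime] {P : ℤ[X]} {α β : Fin g → L} (hαβ : ∀ i, α i * β i = (q : L))
    (hP : P.map (Int.castRingHom L) = ∏ i, ((X - C (α i)) * (X - C (β i))))
    {x : Fin g → ZMod ℓ} {j₀ : Fin g} (hx : IsSwapType q ℓ x j₀)
    (hPl : P.map (Int.castRingHom (ZMod ℓ)) = ∏ j, quad (q : ZMod ℓ) (x j)) :
    ∃ (σ : L ≃ₐ[ℚ] L) (i₀ : Fin g), σ (α i₀) = β i₀ ∧ σ (β i₀) = α i₀ ∧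
      ∀ i, i ≠ i₀ → σ (α i) = α i ∧ σ (β i) = β i := by
  obtain ⟨K, _, _, _, φ, hφ⟩ := exists_frob L ℓ
  obtain ⟨σ, hσ⟩ := hφ inferInstance
  obtain ⟨A, B, hA, hB, hAB, hprod⟩ := setup hαβ hP hPl φ
  obtain ⟨h1, h2, h3, i₀, h4, h5, h6⟩ := core hAB hx hprod
  have hsmul : ∀ y : NumberField.RingOfIntegers L,
      ((σ • y : NumberField.RingOfIntegers L) : L) = σ (y : L) := fun y ↦ rfl
  -- the roots are permuted
  have hroot : ∀ z : L, (P.map (Int.castRingHom L)).eval z = 0 →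
      ∃ i, σ z = α i ∨ σ z = β i := by
    intro z hz
    have hz' : (P.map (Int.castRingHom L)).eval (σ z) = 0 := by
      have h7 : Int.castRingHom L = (σ : L →+* L).comp (Int.castRingHom L) := RingHom.ext_int _ _
      rw [eval_map, h7]
      have h8 := Polynomial.hom_eval₂ P (Int.castRingHom L) (σ : L →+* L) z
      rw [← eval_map, hz, map_zero] at h8
      exact h8.symm
    rw [hP, eval_prod, Finset.prod_eq_zero_iff] at hz'
    obtain ⟨i, -, hi⟩ := hz'
    refine ⟨i, ?_⟩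
    have hi' : (σ z - α i) * (σ z - β i) = 0 := by simpa using hi
    rcases mul_eq_zero.1 hi' with h | h
    · exact Or.inl (sub_eq_zero.1 h)
    · exact Or.inr (sub_eq_zero.1 h)
  have hinj : Function.Injective (algebraMap (NumberField.RingOfIntegers L) L) :=
    NumberField.RingOfIntegers.coe_injective
  have hr1 : ∀ i, (P.map (Int.castRingHom L)).eval (α i) = 0 := fun i ↦ by
    rw [hP, eval_prod]
    exact Finset.prod_eq_zero (Finset.mem_univ i) (by simp)
  have hr2 : ∀ i, (P.map (Int.castRingHom L)).eval (β i) = 0 := fun i ↦ by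
    rw [hP, eval_prod]
    exact Finset.prod_eq_zero (Finset.mem_univ i) (by simp)
  -- a root is determined by its class
  have key : ∀ (Z W : NumberField.RingOfIntegers L), (∃ i, W = A i ∨ W = B i) →
      (P.map (Int.castRingHom L)).eval (Z : L) = 0 → φ Z ^ ℓ = φ W → σ (Z : L) = (W : L) := by
    intro Z W hW hZ hZW
    obtain ⟨j, hj⟩ := hroot _ hZ
    rw [← hσ] at hZW
    have hj' : σ • Z = A j ∨ σ • Z = B j := by
      rcases hj with hj | hj
      · exact Or.inl (hinj (hj.trans (hA j).symm))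
      · exact Or.inr (hinj (hj.trans (hB j).symm))
    have : σ • Z = W := by
      obtain ⟨i, hi⟩ := hW
      rcases hj' with hj' | hj' <;> rcases hi with hi | hi <;> rw [hj', hi] at hZW <;>
        rw [hj', hi]
      · rw [h1 hZW]
      · exact absurd hZW (h3 j i)
      · exact absurd hZW.symm (h3 i j)
      · rw [h2 hZW]
    rw [← this]
    rfl
  refine ⟨σ, i₀, ?_, ?_, ?_⟩
  · rw [← hA, ← hB]
    exact key _ _ ⟨i₀, Or.inr rfl⟩ (by rw [hA]; exact hr1 i₀) h4
  · rw [← hA, ← hB]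
    exact key _ _ ⟨i₀, Or.inl rfl⟩ (by rw [hB]; exact hr2 i₀) h5
  · intro i hi
    rw [← hA, ← hB]
    exact ⟨key _ _ ⟨i, Or.inl rfl⟩ (by rw [hA]; exact hr1 i) (h6 i hi).1,
      key _ _ ⟨i, Or.inr rfl⟩ (by rw [hB]; exact hr2 i) (h6 i hi).2⟩

end Pool.Agent.Helper71.AA
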