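import Pool.Agent.Helper71.AA.Defs

/-!
# The Galois group is transitive on the pairs of roots of an indecomposable Weil polynomial
-/

set_option autoImplicit false

namespace Pool.Agent.Helper71.AA

open Polynomial

private theorem h60_inj {L : Type} [Field L] [CharZero L] {q : ℕ} (hq : 0 < q) (M N : Multiset L)
    (hc : M.card = N.card)
    (h : (M.map (fun y => quad (q : L) y)).prod = (N.map (fun y => quad (q : L) y)).prod) : M = N := by
  have key : (M.map (fun y => X - C y)).prod = (N.map (fun y => X - C y)).prod := by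
    apply Polynomial.eq_of_infinite_eval_eq
    have hsub : (fun n : ℕ => (n : L) + q / n) '' {n : ℕ | q < n} ⊆
        {x : L | eval x (M.map (fun y => X - C y)).prod = eval x (N.map (fun y => X - C y)).prod} := by
      rintro c ⟨n, hn, rfl⟩
      have hn0 : (n : L) ≠ 0 := by
        have : 0 < n := lt_trans hq hn
        exact_mod_cast this.ne'
      have hev : ∀ K : Multiset L, eval (n : L) (K.map (fun y => quad (q : L) y)).prod =
          (n : L) ^ K.card * eval ((n : L) + q / n) (K.map (fun y => X - C y)).prod := by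
        intro K
        induction K using Multiset.induction_on with
        | empty => simp
        | cons a K ih =>
          rw [Multiset.map_cons, Multiset.prod_cons, Multiset.map_cons, Multiset.prod_cons, eval_mul,
            eval_mul, ih, Multiset.card_cons, pow_succ]
          simp only [quad, eval_add, eval_sub, eval_pow, eval_mul, eval_C, eval_X]
          have e3 : (n : L) * ((n : L) + q / n) = (n : L) ^ 2 + q := by
            field_simp
          linear_combination (-(n : L) ^ K.card *
            eval ((n : L) + q / n) (Multiset.map (fun y => X - C y) K).prod) * e3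
      have h1 := congrArg (eval (n : L)) h
      rw [hev, hev, hc] at h1
      exact mul_left_cancel₀ (pow_ne_zero _ hn0) h1
    refine Set.Infinite.mono hsub (Set.Infinite.image ?_ (Set.infinite_of_not_bddAbove ?_))
    · intro a ha b hb hab
      simp only [Set.mem_ofPred_eq] at ha hb
      have ha0 : (a : L) ≠ 0 := by
        have : 0 < a := lt_trans hq ha
        exact_mod_cast this.ne'
      have hb0 : (b : L) ≠ 0 := by
        have : 0 < b := lt_trans hq hb
        exact_mod_cast this.ne'
      simp only at hab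
      have h1 : ((a : L) - b) * ((a : L) * b - q) = 0 := by
        field_simp at hab
        linear_combination hab
      rcases mul_eq_zero.mp h1 with h2 | h2
      · exact_mod_cast sub_eq_zero.mp h2
      · exfalso
        have h3 : a * b = q := by exact_mod_cast sub_eq_zero.mp h2
        have h4 : 1 ≤ b := le_of_lt (lt_of_le_of_lt hq hb)
        nlinarith
    · rintro ⟨B, hB⟩
      have := hB (show max B q + 1 ∈ {n : ℕ | q < n} from by
        simp only [Set.mem_ofPred_eq]
        exact Nat.lt_succ_of_le (le_max_right _ _))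
      have h2 := le_max_left B q
      omega
  have h2 := congrArg Polynomial.roots key
  rwa [Polynomial.roots_multiset_prod_X_sub_C, Polynomial.roots_multiset_prod_X_sub_C] at h2

private theorem h60_map_quad {R S : Type*} [CommRing R] [CommRing S] (f : R →+* S) (q : ℕ) (x : R) :
    (quad (q : R) x).map f = quad (q : S) (f x) := by
  simp [quad]

private theorem h60_part {L : Type} [Field L] [NumberField L] [IsGalois ℚ L] {g q : ℕ}
    (hq : 0 < q) {P : ℤ[X]} {α β : Fin g → L} (φ : L →+* ℂ)
    (hφ : ∀ i, φ (β i) = (starRingEnd ℂ) (φ (α i)))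
    (hαβ : ∀ i, α i * β i = (q : L))
    (hP : P.map (Int.castRingHom L) = ∏ i, ((X - C (α i)) * (X - C (β i))))
    (p : L → Prop) [DecidablePred p] (hp : ∀ (σ : L ≃ₐ[ℚ] L) (y : L), p (σ y) ↔ p y) :
    ∃ P' : ℤ[X], IsWeil q (Finset.univ.filter (fun i => p (α i + β i))).card P' ∧
      P'.map (Int.castRingHom L) =
        ∏ i ∈ Finset.univ.filter (fun i => p (α i + β i)), quad (q : L) (α i + β i) := by
  classical
  set y : Fin g → L := fun i => α i + β i with hy
  set S := Finset.univ.filter (fun i => p (y i)) with hS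
  have hquad : ∀ i, (X - C (α i)) * (X - C (β i)) = quad (q : L) (y i) := by
    intro i
    simp only [quad, hy, C_add, ← hαβ i, C_mul]
    ring
  have hP' : P.map (Int.castRingHom L) = ∏ i, quad (q : L) (y i) := by
    rw [hP]
    exact Finset.prod_congr rfl (fun i _ => hquad i)
  have hinj : Function.Injective (Int.castRingHom L) := RingHom.injective_int _
  have hmonL : (P.map (Int.castRingHom L)).Monic := by
    rw [hP]
    apply monic_prod_of_monic
    intro i _
    exact (monic_X_sub_C _).mul (monic_X_sub_C _)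
  have hmon : P.Monic := Polynomial.monic_of_injective hinj hmonL
  have hint : ∀ i, IsIntegral ℤ (y i) := by
    intro i
    have h1 : ∀ z : L, eval z (P.map (Int.castRingHom L)) = 0 → IsIntegral ℤ z := by
      intro z hz
      refine ⟨P, hmon, ?_⟩
      rw [eval_map] at hz
      exact hz
    have hprod : ∀ z : L, ((X - C (α i)) * (X - C (β i))).eval z = 0 →
        eval z (P.map (Int.castRingHom L)) = 0 := by
      intro z hz
      rw [hP, eval_prod]
      exact Finset.prod_eq_zero (Finset.mem_univ i) hz
    exact (h1 _ (hprod _ (by simp))).add (h1 _ (hprod _ (by simp)))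
  -- the multiset of all traces is stable
  have hstab : ∀ σ : L ≃ₐ[ℚ] L, ((Finset.univ : Finset (Fin g)).val.map y).map σ =
      (Finset.univ : Finset (Fin g)).val.map y := by
    intro σ
    apply h60_inj hq _ _ (by simp)
    have h1 : (P.map (Int.castRingHom L)).map (σ : L →+* L) = P.map (Int.castRingHom L) := by
      rw [Polynomial.map_map]
      congr 1
      exact RingHom.ext_int _ _
    rw [hP', Polynomial.map_prod] at h1
    rw [Multiset.map_map, Multiset.map_map, Multiset.map_map]
    have e1 : (Multiset.map (((fun y => quad (q : L) y) ∘ ⇑σ) ∘ y) (Finset.univ : Finset (Fin g)).val).prod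
        = ∏ i, (quad (q : L) (y i)).map (σ : L →+* L) := by
      apply Finset.prod_congr rfl
      intro i _
      rw [h60_map_quad]
      rfl
    rw [e1, h1]
    rfl
  set Q : L[X] := ∏ i ∈ S, quad (q : L) (y i) with hQ
  have hQm : Q = ((((Finset.univ : Finset (Fin g)).val.map y).filter p).map
      (fun z => quad (q : L) z)).prod := by
    rw [Multiset.filter_map, Multiset.map_map]
    rfl
  have hfix : ∀ σ : L ≃ₐ[ℚ] L, Q.map (σ : L →+* L) = Q := by
    intro σ
    have h2 : (((Finset.univ : Finset (Fin g)).val.map y).filter p).map σ =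
        ((Finset.univ : Finset (Fin g)).val.map y).filter p := by
      conv_rhs => rw [← hstab σ, Multiset.filter_map]
      congr 1
      apply Multiset.filter_congr
      intro z _
      exact (hp σ z).symm
    conv_rhs => rw [hQm, ← h2]
    rw [hQ, Polynomial.map_prod, Multiset.filter_map, Multiset.map_map, Multiset.map_map]
    apply Finset.prod_congr rfl
    intro i _
    rw [h60_map_quad]
    rfl
  have hcoef : ∀ n, Q.coeff n ∈ Set.range (Int.castRingHom L) := by
    intro n
    have h1 : Q.coeff n ∈ Set.range (algebraMap ℚ L) := by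
      rw [IsGalois.mem_range_algebraMap_iff_fixed]
      intro σ
      have := congrArg (fun r => coeff r n) (hfix σ)
      simpa using this
    have h2 : IsIntegral ℤ (Q.coeff n) := by
      have hQl : Q ∈ Polynomial.lifts (algebraMap (integralClosure ℤ L) L) := by
        rw [hQ]
        apply Subsemiring.prod_mem
        intro i _
        refine ⟨quad (q : integralClosure ℤ L) ⟨y i, hint i⟩, ?_⟩
        rw [Polynomial.coe_mapRingHom, h60_map_quad]
        rfl
      rw [Polynomial.lifts_iff_coeff_lifts] at hQl
      obtain ⟨z, hz⟩ := hQl n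
      rw [← hz]
      exact z.2
    obtain ⟨r, hr⟩ := h1
    rw [← hr] at h2
    have h3 : IsIntegral ℤ r := (isIntegral_algebraMap_iff (algebraMap ℚ L).injective).mp h2
    obtain ⟨m, hm⟩ := IsIntegrallyClosed.isIntegral_iff.mp h3
    refine ⟨m, ?_⟩
    rw [← hr, ← hm]
    simp
  have hlift : Q ∈ Polynomial.lifts (Int.castRingHom L) := by
    rw [Polynomial.lifts_iff_coeff_lifts]
    exact hcoef
  obtain ⟨P', hP1⟩ := hlift
  rw [Polynomial.coe_mapRingHom] at hP1
  refine ⟨P', ?_, hP1⟩
  -- the Weil property
  set e := S.equivFin with he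
  refine ⟨fun j => 2 * (φ (α (e.symm j))).re, ?_, ?_⟩
  · intro j
    set i := (e.symm j : Fin g)
    have h1 : φ (α i) * (starRingEnd ℂ) (φ (α i)) = (q : ℂ) := by
      rw [← hφ i, ← map_mul, hαβ i, map_natCast]
    have h2 : ((φ (α i)).re ^ 2 + (φ (α i)).im ^ 2 : ℝ) = q := by
      have h3 := congrArg Complex.re h1
      rw [Complex.mul_re, Complex.conj_re, Complex.conj_im] at h3
      simp only [Complex.natCast_re] at h3
      linarith
    nlinarith [sq_nonneg (φ (α i)).im]
  · apply Polynomial.map_injective (algebraMap ℝ ℂ) (algebraMap ℝ ℂ).injective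
    rw [Polynomial.map_map, Polynomial.map_prod]
    have e2 : (algebraMap ℝ ℂ).comp (Int.castRingHom ℝ) = φ.comp (Int.castRingHom L) :=
      RingHom.ext_int _ _
    rw [e2, ← Polynomial.map_map, hP1, hQ, Polynomial.map_prod]
    rw [← Finset.prod_coe_sort S, ← Equiv.prod_comp e.symm]
    apply Finset.prod_congr rfl
    intro j _
    rw [h60_map_quad, h60_map_quad]
    congr 1
    simp only [hy, map_add, hφ]
    rw [Complex.add_conj]
    simp

theorem transitive {L : Type} [Field L] [NumberField L] [IsGalois ℚ L] {g q : ℕ}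
    (hq : 0 < q) {P : ℤ[X]} {α β : Fin g → L} (φ : L →+* ℂ)
    (hφ : ∀ i, φ (β i) = (starRingEnd ℂ) (φ (α i)))
    (hαβ : ∀ i, α i * β i = (q : L))
    (hP : P.map (Int.castRingHom L) = ∏ i, ((X - C (α i)) * (X - C (β i))))
    (hirr : ¬ IsSplit q g P) (i₁ i₂ : Fin g) :
    ∃ τ : L ≃ₐ[ℚ] L, τ (α i₁) = α i₂ ∨ τ (α i₁) = β i₂ := by
  classical
  by_contra hcon
  push Not at hcon
  have hno : ∀ τ : L ≃ₐ[ℚ] L, τ (α i₁ + β i₁) ≠ α i₂ + β i₂ := by
    intro τ h
    have h1 : (τ (α i₁) - α i₂) * (τ (α i₁) - β i₂) = 0 := by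
      have h2 : τ (α i₁) * τ (β i₁) = α i₂ * β i₂ := by
        rw [← map_mul, hαβ, hαβ, map_natCast]
      rw [map_add] at h
      linear_combination (τ (α i₁)) * h - h2
    rcases mul_eq_zero.mp h1 with h2 | h2
    · exact (hcon τ).1 (sub_eq_zero.mp h2)
    · exact (hcon τ).2 (sub_eq_zero.mp h2)
  let p : L → Prop := fun z => ∃ τ : L ≃ₐ[ℚ] L, τ (α i₁ + β i₁) = z
  have hp : ∀ (σ : L ≃ₐ[ℚ] L) (y : L), p (σ y) ↔ p y := by
    intro σ y
    constructor
    · rintro ⟨τ, hτ⟩
      exact ⟨τ.trans σ.symm, by rw [AlgEquiv.trans_apply, hτ, AlgEquiv.symm_apply_apply]⟩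
    · rintro ⟨τ, hτ⟩
      exact ⟨τ.trans σ, by rw [AlgEquiv.trans_apply, hτ]⟩
  obtain ⟨P₁, hW₁, hP₁⟩ := h60_part hq φ hφ hαβ hP p hp
  obtain ⟨P₂, hW₂, hP₂⟩ := h60_part hq φ hφ hαβ hP (fun z => ¬ p z) (fun σ y => not_congr (hp σ y))
  set S := Finset.univ.filter (fun i => p (α i + β i)) with hS
  set S' := Finset.univ.filter (fun i => ¬ p (α i + β i)) with hS'
  have hcard : S.card + S'.card = g := by
    have := Finset.card_filter_add_card_filter_not (s := (Finset.univ : Finset (Fin g)))
      (fun i => p (α i + β i))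
    simpa using this
  have h1 : 0 < S.card := Finset.card_pos.mpr ⟨i₁, by
    rw [hS, Finset.mem_filter]
    exact ⟨Finset.mem_univ _, AlgEquiv.refl, rfl⟩⟩
  have h2 : 0 < S'.card := Finset.card_pos.mpr ⟨i₂, by
    rw [hS', Finset.mem_filter]
    refine ⟨Finset.mem_univ _, ?_⟩
    rintro ⟨τ, hτ⟩
    exact hno τ hτ⟩
  apply hirr
  refine ⟨S.card, h1, by omega, P₁, P₂, hW₁, ?_, ?_⟩
  · have : g - S.card = S'.card := by omega
    rw [this]
    exact hW₂
  · apply Polynomial.map_injective (Int.castRingHom L) (RingHom.injective_int _)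
    rw [Polynomial.map_mul, hP₁, hP₂, hP]
    rw [Finset.prod_filter_mul_prod_filter_not]
    apply Finset.prod_congr rfl
    intro i _
    simp only [quad, C_add, ← hαβ i, C_mul]
    ring

end Pool.Agent.Helper71.AA
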