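import Pool.Agent.Helper71.AA.Defs

/-!
# Units at the primes above `q` (block AA-UNIT)
-/

set_option autoImplicit false

namespace Pool.Agent.Helper71.AA

open Polynomial

/-- At a prime containing `q` not both `α` and `q / α` can be in the prime, if the polynomial
is ordinary. -/
theorem unit_pattern {O : Type*} [CommRing O] {g q : ℕ} {P : ℤ[X]} {a b : Fin g → O}
    (hab : ∀ i, a i * b i = (q : O))
    (hP : P.map (Int.castRingHom O) = ∏ i, ((X - C (a i)) * (X - C (b i))))
    (hord : IsCoprime (P.coeff g) (q : ℤ)) (I : Ideal O) [I.IsPrime] (hq : (q : O) ∈ I)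
    (i : Fin g) : ¬ (a i ∈ I ∧ b i ∈ I) := by
  rintro ⟨hai, hbi⟩
  set π : O →+* O ⧸ I := Ideal.Quotient.mk I with hπ
  -- every factor is divisible by `X` modulo `I`
  have hfac : ∀ j, (X : (O ⧸ I)[X]) ∣ (X - C (π (a j))) * (X - C (π (b j))) := by
    intro j
    have h1 : a j * b j ∈ I := by rw [hab j]; exact hq
    rcases (‹I.IsPrime›.mem_or_mem h1) with h | h
    · have h2 : π (a j) = 0 := Ideal.Quotient.eq_zero_iff_mem.2 h
      rw [h2, map_zero, sub_zero]
      exact dvd_mul_right _ _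
    · have h2 : π (b j) = 0 := Ideal.Quotient.eq_zero_iff_mem.2 h
      rw [h2, map_zero, sub_zero]
      exact dvd_mul_left _ _
  have hfaci : (X : (O ⧸ I)[X]) ^ 2 ∣ (X - C (π (a i))) * (X - C (π (b i))) := by
    have h2 : π (a i) = 0 := Ideal.Quotient.eq_zero_iff_mem.2 hai
    have h3 : π (b i) = 0 := Ideal.Quotient.eq_zero_iff_mem.2 hbi
    rw [h2, h3, map_zero, sub_zero, ← sq]
  have hmap : (P.map (Int.castRingHom O)).map π =
      ∏ j, ((X - C (π (a j))) * (X - C (π (b j)))) := by
    rw [hP, Polynomial.map_prod]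
    refine Finset.prod_congr rfl fun j _ => ?_
    simp
  have hdvd : (X : (O ⧸ I)[X]) ^ (g + 1) ∣ (P.map (Int.castRingHom O)).map π := by
    rw [hmap, ← Finset.mul_prod_erase Finset.univ _ (Finset.mem_univ i)]
    have h1 : (X : (O ⧸ I)[X]) ^ (g + 1) = X ^ 2 * ∏ j ∈ Finset.univ.erase i, X := by
      rw [Finset.prod_const, Finset.card_erase_of_mem (Finset.mem_univ i), Finset.card_univ,
        Fintype.card_fin, ← pow_add]
      congr 1
      have := i.pos
      omega
    rw [h1]
    exact mul_dvd_mul hfaci (Finset.prod_dvd_prod_of_dvd _ _ fun j _ => hfac j)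
  have hcoef : ((P.map (Int.castRingHom O)).map π).coeff g = 0 :=
    (Polynomial.X_pow_dvd_iff.1 hdvd) g (Nat.lt_succ_self g)
  rw [coeff_map, coeff_map] at hcoef
  have hmem : (Int.castRingHom O) (P.coeff g) ∈ I := Ideal.Quotient.eq_zero_iff_mem.1 hcoef
  obtain ⟨u, v, huv⟩ := hord
  have h1 : (1 : O) = (u : O) * (Int.castRingHom O) (P.coeff g) + (v : O) * (q : O) := by
    have := congrArg (Int.castRingHom O) huv
    simpa using this.symm
  have h2 : (1 : O) ∈ I := by
    rw [h1]
    exact I.add_mem (I.mul_mem_left _ hmem) (I.mul_mem_left _ hq)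
  exact ‹I.IsPrime›.ne_top ((Ideal.eq_top_iff_one _).2 h2)

end Pool.Agent.Helper71.AA
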