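import Pool.Agent.Helper71.AA.Root
import Pool.Agent.Helper71.AA.Swap
import Pool.Agent.Helper71.AA.Trans
import Pool.Agent.Helper71.AA.Unit
import Pool.Agent.Helper71.AA.Div

/-!
# The criterion: ordinary, indecomposable, and of swap type modulo one prime (block AA-CRIT)
-/

set_option autoImplicit false

namespace Pool.Agent.Helper71.AA

open Polynomial

private lemma root_iff {K : Type*} [Field K] {g : ℕ} {P : ℤ[X]} {α β : Fin g → K}
    (hP : P.map (Int.castRingHom K) = ∏ i, ((X - C (α i)) * (X - C (β i)))) (z : K) :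
    eval₂ (Int.castRingHom K) z P = 0 ↔ ∃ i, z = α i ∨ z = β i := by
  rw [← eval_map, hP, eval_prod, Finset.prod_eq_zero_iff]
  simp [sub_eq_zero]

private lemma root_map {L : Type*} [Field L] [CharZero L] {g : ℕ} {P : ℤ[X]} {α β : Fin g → L}
    (hP : P.map (Int.castRingHom L) = ∏ i, ((X - C (α i)) * (X - C (β i))))
    (τ : L ≃ₐ[ℚ] L) (i : Fin g) : ∃ k, τ (α i) = α k ∨ τ (α i) = β k := by
  rw [← root_iff hP]
  have h1 : eval₂ (Int.castRingHom L) (α i) P = 0 := (root_iff hP _).2 ⟨i, Or.inl rfl⟩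
  have h2 := hom_eval₂ P (Int.castRingHom L) (τ : L →+* L) (α i)
  rw [h1, map_zero] at h2
  rw [show (τ : L →+* L).comp (Int.castRingHom L) = Int.castRingHom L from
    RingHom.ext_int _ _] at h2
  exact h2.symm

private lemma partner {L : Type*} [Field L] [CharZero L] {g q : ℕ} (hq : 0 < q) {α β : Fin g → L}
    (hαβ : ∀ i, α i * β i = (q : L)) (τ : L ≃ₐ[ℚ] L) {i k : Fin g} :
    (τ (α i) = α k ↔ τ (β i) = β k) ∧ (τ (α i) = β k ↔ τ (β i) = α k) := by
  have hq0 : (q : L) ≠ 0 := by exact_mod_cast hq.ne'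
  have h1 : τ (α i) * τ (β i) = (q : L) := by rw [← map_mul, hαβ, map_natCast]
  have hα0 : ∀ j, α j ≠ 0 := fun j h => hq0 (by rw [← hαβ j, h, zero_mul])
  have hβ0 : ∀ j, β j ≠ 0 := fun j h => hq0 (by rw [← hαβ j, h, mul_zero])
  refine ⟨⟨fun h => ?_, fun h => ?_⟩, ⟨fun h => ?_, fun h => ?_⟩⟩
  · rw [h, ← hαβ k] at h1
    exact mul_left_cancel₀ (hα0 k) h1
  · rw [h, ← hαβ k] at h1
    exact mul_right_cancel₀ (hβ0 k) h1
  · rw [h, ← hαβ k, mul_comm (α k)] at h1
    exact mul_left_cancel₀ (hβ0 k) h1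
  · rw [h, ← hαβ k, mul_comm (α k)] at h1
    exact mul_right_cancel₀ (hα0 k) h1

private lemma swap_one {L : Type*} [Field L] [CharZero L] {g q : ℕ} (hq : 0 < q) {P : ℤ[X]}
    {α β : Fin g → L} (hαβ : ∀ i, α i * β i = (q : L))
    (hP : P.map (Int.castRingHom L) = ∏ i, ((X - C (α i)) * (X - C (β i))))
    (hd : Function.Injective α ∧ Function.Injective β ∧ ∀ i j, α i ≠ β j)
    {σ : L ≃ₐ[ℚ] L} {i₀ : Fin g} (h1 : σ (α i₀) = β i₀) (h2 : σ (β i₀) = α i₀)
    (h3 : ∀ i, i ≠ i₀ → σ (α i) = α i ∧ σ (β i) = β i) (i : Fin g)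
    (hτ : ∃ τ : L ≃ₐ[ℚ] L, τ (α i₀) = α i ∨ τ (α i₀) = β i) :
    ∃ σ' : L ≃ₐ[ℚ] L, σ' (α i) = β i ∧ ∀ j, j ≠ i → σ' (α j) = α j := by
  obtain ⟨τ, hτ⟩ := hτ
  have hp := @partner L _ _ g q hq α β hαβ τ
  refine ⟨(τ.symm.trans σ).trans τ, ?_, ?_⟩
  · simp only [AlgEquiv.trans_apply]
    rcases hτ with h | h
    · have : τ.symm (α i) = α i₀ := by rw [← h, AlgEquiv.symm_apply_apply]
      rw [this, h1]
      exact hp.1.1 h
    · have h' := hp.2.1 h
      have : τ.symm (α i) = β i₀ := by rw [← h', AlgEquiv.symm_apply_apply]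
      rw [this, h2]
      exact h
  · intro j hj
    simp only [AlgEquiv.trans_apply]
    have hk : σ (τ.symm (α j)) = τ.symm (α j) := by
      obtain ⟨k, hk⟩ := root_map hP τ.symm j
      have hne : k ≠ i₀ := by
        rintro rfl
        rcases hk with hk | hk
        · have hk' : τ (α k) = α j := by rw [← hk, AlgEquiv.apply_symm_apply]
          rcases hτ with h | h
          · exact hj (hd.1 (by rw [← hk', h]))
          · exact hd.2.2 j i (by rw [← hk', h])
        · have hk' : τ (β k) = α j := by rw [← hk, AlgEquiv.apply_symm_apply]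
          rcases hτ with h | h
          · exact hd.2.2 j i (by rw [← hk', ← hp.1.1 h])
          · exact hj (hd.1 (by rw [← hk', hp.2.1 h]))
      rcases hk with hk | hk
      · rw [hk]; exact (h3 k hne).1
      · rw [hk]; exact (h3 k hne).2
    rw [hk, AlgEquiv.apply_symm_apply]

private lemma swap_set {L : Type*} [Field L] [CharZero L] {g q : ℕ} (hq : 0 < q)
    {α β : Fin g → L} (hαβ : ∀ i, α i * β i = (q : L))
    (hσ : ∀ i, ∃ σ : L ≃ₐ[ℚ] L, σ (α i) = β i ∧ ∀ j, j ≠ i → σ (α j) = α j)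
    (J : Finset (Fin g)) :
    ∃ ρ : L ≃ₐ[ℚ] L, (∀ i ∈ J, ρ (α i) = β i) ∧ ∀ i, i ∉ J → ρ (α i) = α i := by
  classical
  induction J using Finset.induction_on with
  | empty => exact ⟨AlgEquiv.refl, by simp, by simp⟩
  | insert i J hi ih =>
    obtain ⟨ρ, h1, h2⟩ := ih
    obtain ⟨σ, h3, h4⟩ := hσ i
    have hp := @partner L _ _ g q hq α β hαβ ρ
    refine ⟨σ.trans ρ, ?_, ?_⟩
    · intro j hj
      rw [AlgEquiv.trans_apply]
      rcases Finset.mem_insert.1 hj with rfl | hj
      · rw [h3]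
        exact hp.1.1 (h2 _ hi)
      · rw [h4 j (fun h => hi (h ▸ hj))]
        exact h1 j hj
    · intro j hj
      rw [Finset.mem_insert, not_or] at hj
      rw [AlgEquiv.trans_apply, h4 j hj.1]
      exact h2 j hj.2

/-- the inclusion of the integers of a subfield of `ℂ` in the algebraic integers -/
private noncomputable def incl (L : IntermediateField ℚ ℂ) :
    NumberField.RingOfIntegers L →+* integralClosure ℤ ℂ :=
  ((algebraMap L ℂ).comp (algebraMap (NumberField.RingOfIntegers L) L)).codRestrict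
    (integralClosure ℤ ℂ) (fun x => by
      have h : IsIntegral ℤ (algebraMap (NumberField.RingOfIntegers L) L x) :=
        NumberField.RingOfIntegers.isIntegral_coe x
      exact h.map ((algebraMap L ℂ).toIntAlgHom))

private lemma incl_coe (L : IntermediateField ℚ ℂ) (x : NumberField.RingOfIntegers L) :
    ((incl L x : integralClosure ℤ ℂ) : ℂ) = ((x : L) : ℂ) := rfl

private lemma incl_inj (L : IntermediateField ℚ ℂ) : Function.Injective (incl L) := by
  intro x y h
  have h1 : ((x : L) : ℂ) = ((y : L) : ℂ) := by rw [← incl_coe, ← incl_coe, h]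
  exact NumberField.RingOfIntegers.coe_injective (Subtype.ext h1)

private lemma incl_integral (L : IntermediateField ℚ ℂ) : (incl L).IsIntegral := by
  intro y
  obtain ⟨p, hp, h0⟩ := (integralClosure.isIntegral y : IsIntegral ℤ y)
  refine ⟨p.map (Int.castRingHom _), hp.map _, ?_⟩
  rw [eval₂_map, show (incl L).comp (Int.castRingHom _) = algebraMap ℤ (integralClosure ℤ ℂ) from
    RingHom.ext_int _ _]
  exact h0

/-- The condition (C) of `Div.conv_iff`. -/
theorem condition {q g : ℕ} (hq : 2 ≤ q) {P : ℤ[X]} (hP : IsOrdinary q g P)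
    (hirr : ¬ IsSplit q g P) {ℓ : ℕ} [Fact ℓ.Prime] {x : Fin g → ZMod ℓ} {j₀ : Fin g}
    (hx : IsSwapType q ℓ x j₀)
    (hPl : P.map (Int.castRingHom (ZMod ℓ)) = ∏ j, quad (q : ZMod ℓ) (x j))
    (S : Set ℂ) (hS : ∀ α ∈ S, aeval α P = 0)
    (hpair : ∀ α ∈ S, ∀ β ∈ S, ∀ m : ℕ, 0 < m → (α * β) ^ m ≠ (q : ℂ) ^ m) :
    ∃ I : Ideal (integralClosure ℤ ℂ), I.IsPrime ∧ (q : integralClosure ℤ ℂ) ∈ I ∧
      ∀ y ∈ I, (y : ℂ) ∉ S := by
  classical
  have hq' : 0 < q := by omega
  obtain ⟨a, ha, hPa⟩ := hP.1.roots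
  set b : Fin g → ℂ := fun i => (starRingEnd ℂ) (a i) with hb
  have hPa' : P.map (Int.castRingHom ℂ) = ∏ i, ((X - C (a i)) * (X - C (b i))) := hPa
  have haev : ∀ z : ℂ, aeval z P = 0 ↔ ∃ i, z = a i ∨ z = b i := by
    intro z
    rw [← root_iff hPa']
    rfl
  -- the splitting field
  set p : ℚ[X] := P.map (Int.castRingHom ℚ) with hp
  have hpm : p.Monic := hP.1.monic.map _
  have haev' : ∀ z : ℂ, aeval z p = aeval z P := by
    intro z
    rw [hp, aeval_def, eval₂_map]
    rfl
  let L : IntermediateField ℚ ℂ := IntermediateField.adjoin ℚ (p.rootSet ℂ)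
  have hsf : p.IsSplittingField ℚ L :=
    IntermediateField.adjoin_rootSet_isSplittingField (IsAlgClosed.splits _)
  have hfin : FiniteDimensional ℚ L := IsSplittingField.finiteDimensional L p
  have hnor : Normal ℚ L := Normal.of_isSplittingField p
  have hgal : IsGalois ℚ L := { }
  have hnf : NumberField L := { to_charZero := inferInstance, to_finiteDimensional := hfin }
  have hmem : ∀ z : ℂ, aeval z P = 0 → z ∈ L := by
    intro z hz
    apply IntermediateField.subset_adjoin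
    rw [mem_rootSet]
    exact ⟨hpm.ne_zero, by rw [haev', hz]⟩
  have haL : ∀ i, a i ∈ L := fun i => hmem _ ((haev _).2 ⟨i, Or.inl rfl⟩)
  have hbL : ∀ i, b i ∈ L := fun i => hmem _ ((haev _).2 ⟨i, Or.inr rfl⟩)
  let α : Fin g → L := fun i => ⟨a i, haL i⟩
  let β : Fin g → L := fun i => ⟨b i, hbL i⟩
  have hαβ : ∀ i, α i * β i = (q : L) := by
    intro i
    apply Subtype.ext
    have := ha i
    push_cast
    exact this
  have hPL : P.map (Int.castRingHom L) = ∏ i, ((X - C (α i)) * (X - C (β i))) := by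
    apply map_injective (algebraMap L ℂ) (algebraMap L ℂ).injective
    rw [Polynomial.map_map, show (algebraMap L ℂ).comp (Int.castRingHom L) = Int.castRingHom ℂ from
      RingHom.ext_int _ _, hPa', Polynomial.map_prod]
    refine Finset.prod_congr rfl fun i _ => ?_
    simp only [Polynomial.map_mul, Polynomial.map_sub, map_X, map_C]
    rfl
  have hd := roots_distinct hαβ hPL hx hPl
  obtain ⟨σ, i₀, h1, h2, h3⟩ := exists_swap hαβ hPL hx hPl
  have hσ : ∀ i, ∃ σ : L ≃ₐ[ℚ] L, σ (α i) = β i ∧ ∀ j, j ≠ i → σ (α j) = α j := fun i =>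
    swap_one hq' hαβ hPL hd h1 h2 h3 i
      (transitive hq' (algebraMap L ℂ) (fun _ => rfl) hαβ hPL hirr i₀ i)
  -- a maximal ideal containing `q`
  have hqn : (Ideal.span {(q : integralClosure ℤ ℂ)}) ≠ ⊤ := by
    intro h
    rw [Ideal.span_singleton_eq_top] at h
    obtain ⟨z, hz⟩ := h.exists_right_inv
    refine Div.not_integral_inv hq z ?_
    have := congrArg (fun w : integralClosure ℤ ℂ => (w : ℂ)) hz
    push_cast at this
    exact this
  obtain ⟨I₀, hI₀, hle⟩ := Ideal.exists_le_maximal _ hqn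
  have hI₀p : I₀.IsPrime := hI₀.isPrime
  have hqI₀ : (q : integralClosure ℤ ℂ) ∈ I₀ := hle (Ideal.mem_span_singleton_self _)
  let aO : Fin g → integralClosure ℤ ℂ :=
    fun i => ⟨a i, hP.1.isIntegral_root ((haev _).2 ⟨i, Or.inl rfl⟩)⟩
  let bO : Fin g → integralClosure ℤ ℂ :=
    fun i => ⟨b i, hP.1.isIntegral_root ((haev _).2 ⟨i, Or.inr rfl⟩)⟩
  have hOinj : Function.Injective (algebraMap (integralClosure ℤ ℂ) ℂ) := Subtype.coe_injective
  have hab : ∀ i, aO i * bO i = (q : integralClosure ℤ ℂ) := by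
    intro i
    apply Subtype.ext
    have := ha i
    push_cast
    exact this
  have hPO : P.map (Int.castRingHom (integralClosure ℤ ℂ)) =
      ∏ i, ((X - C (aO i)) * (X - C (bO i))) := by
    apply map_injective (algebraMap (integralClosure ℤ ℂ) ℂ) hOinj
    rw [Polynomial.map_map, show (algebraMap (integralClosure ℤ ℂ) ℂ).comp
      (Int.castRingHom (integralClosure ℤ ℂ)) = Int.castRingHom ℂ from
      RingHom.ext_int _ _, hPa', Polynomial.map_prod]
    refine Finset.prod_congr rfl fun i _ => ?_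
    simp only [Polynomial.map_mul, Polynomial.map_sub, map_X, map_C]
    rfl
  have hunit : ∀ i, ¬ (aO i ∈ I₀ ∧ bO i ∈ I₀) := fun i =>
    unit_pattern hab hPO hP.2 I₀ hqI₀ i
  -- the set of pairs which have to be swapped
  let J : Finset (Fin g) := Finset.univ.filter
    (fun i => (a i ∈ S ∧ aO i ∈ I₀) ∨ (b i ∈ S ∧ bO i ∈ I₀))
  obtain ⟨ρ, hρ1, hρ2⟩ := swap_set hq' hαβ hσ J
  have hp' := @partner L _ _ g q hq' α β hαβ ρ
  have hnot : ∀ i, ¬ (a i ∈ S ∧ b i ∈ S) := by
    rintro i ⟨h4, h5⟩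
    exact hpair _ h4 _ h5 1 one_pos (by rw [ha i])
  let ρO : NumberField.RingOfIntegers L →+* NumberField.RingOfIntegers L :=
    NumberField.RingOfIntegers.mapRingHom (ρ : L →+* L)
  have hρO : ∀ z, ((ρO z : NumberField.RingOfIntegers L) : L) = ρ z := fun z => rfl
  let p₁ : Ideal (NumberField.RingOfIntegers L) := (I₀.comap (incl L)).comap ρO
  have hp₁ : p₁.IsPrime := inferInstance
  obtain ⟨⟨I, hI⟩, hIc⟩ := (incl_integral L).comap_surjective (incl_inj L) ⟨p₁, hp₁⟩
  have hIc' : I.comap (incl L) = p₁ := congrArg PrimeSpectrum.asIdeal hIc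
  have hkey : ∀ z : NumberField.RingOfIntegers L, incl L z ∈ I → incl L (ρO z) ∈ I₀ := by
    intro z hz
    have h4 : z ∈ I.comap (incl L) := hz
    rw [hIc'] at h4
    exact h4
  refine ⟨I, hI, ?_, ?_⟩
  · have h4 : ((q : ℕ) : NumberField.RingOfIntegers L) ∈ p₁ := by
      change incl L (ρO (q : NumberField.RingOfIntegers L)) ∈ I₀
      rw [map_natCast, map_natCast]
      exact hqI₀
    rw [← hIc'] at h4
    have h5 : incl L (q : NumberField.RingOfIntegers L) ∈ I := h4
    rwa [map_natCast] at h5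
  · intro y hy hyS
    obtain ⟨i, hi⟩ := (haev _).1 (hS _ hyS)
    rcases hi with hi | hi
    · -- `y = a i`
      have hαint : IsIntegral ℤ (α i) := by
        have h4 := hP.1.isIntegral_root ((haev _).2 ⟨i, Or.inl rfl⟩ : aeval (a i) P = 0)
        exact (isIntegral_algebraMap_iff (algebraMap L ℂ).injective).1 h4
      let z : NumberField.RingOfIntegers L := ⟨α i, hαint⟩
      have hz : incl L z = y := Subtype.ext hi.symm
      have h4 := hkey z (by rw [hz]; exact hy)
      rw [hi] at hyS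
      by_cases hiJ : i ∈ J
      · have h5 : incl L (ρO z) = bO i := by
          apply Subtype.ext
          rw [incl_coe, hρO]
          change ((ρ (α i) : L) : ℂ) = b i
          rw [hρ1 i hiJ]
        rw [h5] at h4
        rcases (Finset.mem_filter.1 hiJ).2 with h6 | h6
        · exact hunit i ⟨h6.2, h4⟩
        · exact hnot i ⟨hyS, h6.1⟩
      · have h5 : incl L (ρO z) = aO i := by
          apply Subtype.ext
          rw [incl_coe, hρO]
          change ((ρ (α i) : L) : ℂ) = a i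
          rw [hρ2 i hiJ]
        rw [h5] at h4
        exact hiJ (Finset.mem_filter.2 ⟨Finset.mem_univ _, Or.inl ⟨hyS, h4⟩⟩)
    · -- `y = b i`
      have hβint : IsIntegral ℤ (β i) := by
        have h4 := hP.1.isIntegral_root ((haev _).2 ⟨i, Or.inr rfl⟩ : aeval (b i) P = 0)
        exact (isIntegral_algebraMap_iff (algebraMap L ℂ).injective).1 h4
      let z : NumberField.RingOfIntegers L := ⟨β i, hβint⟩
      have hz : incl L z = y := Subtype.ext hi.symm
      have h4 := hkey z (by rw [hz]; exact hy)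
      rw [hi] at hyS
      by_cases hiJ : i ∈ J
      · have h5 : incl L (ρO z) = aO i := by
          apply Subtype.ext
          rw [incl_coe, hρO]
          change ((ρ (β i) : L) : ℂ) = a i
          rw [hp'.2.1 (hρ1 i hiJ)]
        rw [h5] at h4
        rcases (Finset.mem_filter.1 hiJ).2 with h6 | h6
        · exact hnot i ⟨h6.1, hyS⟩
        · exact hunit i ⟨h4, h6.2⟩
      · have h5 : incl L (ρO z) = bO i := by
          apply Subtype.ext
          rw [incl_coe, hρO]
          change ((ρ (β i) : L) : ℂ) = b i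
          rw [hp'.1.1 (hρ2 i hiJ)]
        rw [h5] at h4
        exact hiJ (Finset.mem_filter.2 ⟨Finset.mem_univ _, Or.inr ⟨hyS, h4⟩⟩)

theorem divisorsSuffice {q g : ℕ} (hq : 2 ≤ q) {P : ℤ[X]} (hP : IsOrdinary q g P)
    (hirr : ¬ IsSplit q g P) {ℓ : ℕ} [Fact ℓ.Prime]
    (hs : (fun i : Fin g => ((P.coeff (2 * g - 1 - i) : ℤ) : ZMod ℓ)) ∈ swapSet q g ℓ) :
    DivisorsSuffice q P := by
  obtain ⟨x, j₀, hx, hPl⟩ := hP.1.of_swapSet hs
  intro V _ _ _ F hF hchar
  have hev : ∀ α : ℂ, F.HasEigenvalue α → aeval α P = 0 := by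
    intro α hα
    have h1 := (Module.End.hasEigenvalue_iff_isRoot_charpoly F α).1 hα
    rw [hchar, IsRoot.def, eval_map] at h1
    exact h1
  refine (Div.conv_iff q hq F hF ?_).2 ?_
  · intro α hα
    exact ⟨hP.1.isIntegral_root (hev α hα), hP.1.norm_root (hev α hα)⟩
  · intro S hS hpair
    exact condition hq hP hirr hx hPl S (fun α hα => hev α (hS α hα)) hpair

end Pool.Agent.Helper71.AA
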