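import Pool.Agent.Helper71.AA.Final

/-!
# The exact criterion for a Weil polynomial
-/

set_option autoImplicit false

namespace Pool.Agent.Helper71.AA

open Module Polynomial

/-- Every set `S` of complex roots of `P` such that `α β / q` is a root of unity for no `α, β` in
`S` (`α = β` allowed) misses some prime ideal of the ring of algebraic integers that contains
`q`. -/
def IsCovered (q : ℕ) (P : ℤ[X]) : Prop :=
  ∀ S : Set ℂ, (∀ α ∈ S, aeval α P = 0) →
    (∀ α ∈ S, ∀ β ∈ S, ∀ m : ℕ, 0 < m → (α * β) ^ m ≠ (q : ℂ) ^ m) →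
    ∃ 𝔓 : Ideal (integralClosure ℤ ℂ), 𝔓.IsPrime ∧ (q : integralClosure ℤ ℂ) ∈ 𝔓 ∧
      ∀ x ∈ 𝔓, (x : ℂ) ∉ S

private lemma diag_semisimple {n : ℕ} (d : Fin n → ℂ) :
    Module.End.IsSemisimple (Matrix.toLin' (Matrix.diagonal d)) := by
  classical
  set F : Module.End ℂ (Fin n → ℂ) := Matrix.toLin' (Matrix.diagonal d) with hF
  set p : ℂ[X] := ∏ a ∈ Finset.univ.image d, (X - C a) with hp
  have hsq : Squarefree p := by
    have h1 : p.Separable := by
      rw [hp]
      exact Polynomial.separable_prod_X_sub_C_iff'.2 (by simp)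
    exact h1.squarefree
  refine Module.End.isSemisimple_of_squarefree_aeval_eq_zero hsq ?_
  refine (Pi.basisFun ℂ (Fin n)).ext fun i => ?_
  have he : F (Pi.basisFun ℂ (Fin n) i) = d i • Pi.basisFun ℂ (Fin n) i := by
    rw [hF, Pi.basisFun_apply, Matrix.toLin'_apply, Matrix.diagonal_mulVec_single, mul_one]
    rw [← Pi.single_smul', smul_eq_mul, mul_one]
  have hv : F.HasEigenvector (d i) (Pi.basisFun ℂ (Fin n) i) :=
    ⟨Module.End.mem_eigenspace_iff.2 he, (Pi.basisFun ℂ (Fin n)).ne_zero i⟩
  rw [Module.End.aeval_apply_of_hasEigenvector hv, LinearMap.zero_apply]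
  have h0 : p.eval (d i) = 0 := by
    rw [hp, eval_prod]
    exact Finset.prod_eq_zero (Finset.mem_image_of_mem d (Finset.mem_univ i)) (by simp)
  rw [h0, zero_smul]

theorem suffice_iff {q g : ℕ} (hq : 2 ≤ q) {P : ℤ[X]} (hP : IsWeil q g P) :
    DivisorsSuffice q P ↔ IsCovered q P := by
  classical
  have key : ∀ {V : Type} [AddCommGroup V] [Module ℂ V] [FiniteDimensional ℂ V]
      (F : Module.End ℂ V), F.IsSemisimple → F.charpoly = P.map (Int.castRingHom ℂ) →
      ((∀ n i ν : ℕ, 2 * ν ≤ i →
        galoisConiveau q (F.compLeft (Fin n)) i ν = divisorConiveau q (F.compLeft (Fin n)) i ν) ↔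
        IsCovered q P) := by
    intro V _ _ _ F hF hchar
    have hev : ∀ α : ℂ, F.HasEigenvalue α ↔ aeval α P = 0 := by
      intro α
      rw [Module.End.hasEigenvalue_iff_isRoot_charpoly F α, hchar, IsRoot.def, eval_map]
      rfl
    rw [Div.conv_iff q hq F hF fun α hα =>
      ⟨hP.isIntegral_root ((hev α).1 hα), hP.norm_root ((hev α).1 hα)⟩]
    refine forall_congr' fun S => ?_
    refine imp_congr (forall₂_congr fun α _ => hev α) Iff.rfl
  constructor
  · intro h
    set Q := P.map (Int.castRingHom ℂ) with hQ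
    have hmon : Q.Monic := hP.monic.map _
    have hsplit : Q = (Q.roots.map fun a => X - C a).prod := by
      have h1 := (IsAlgClosed.splits Q).eq_prod_roots
      rw [hmon.leadingCoeff, C_1, one_mul] at h1
      exact h1
    let L := Q.roots.toList
    let d : Fin L.length → ℂ := fun i => L.get i
    have hd : ∏ i, (X - C (d i)) = Q := by
      rw [hsplit]
      have h2 : Q.roots = (L : Multiset ℂ) := (Multiset.coe_toList _).symm
      rw [h2, Multiset.map_coe, Multiset.prod_coe]
      rw [← List.prod_ofFn]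
      congr 1
      have h3 : L.map (fun a => X - C a) = List.ofFn fun i => X - C (L.get i) := by
        conv_lhs => rw [← List.ofFn_get L]
        rw [List.map_ofFn]
        rfl
      rw [h3]
    refine (key (Matrix.toLin' (Matrix.diagonal d)) (diag_semisimple d) ?_).1 ?_
    · rw [Matrix.charpoly_toLin', Matrix.charpoly_diagonal, hd]
    · exact h (Fin L.length → ℂ) (Matrix.toLin' (Matrix.diagonal d)) (diag_semisimple d)
        (by rw [Matrix.charpoly_toLin', Matrix.charpoly_diagonal, hd])
  · intro h V _ _ _ F hF hchar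
    exact (key F hF hchar).2 h

end Pool.Agent.Helper71.AA
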