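import Mathlib

/-!
# Integer points of a box in residue classes (block AA-BOX)
-/

set_option autoImplicit false

namespace Pool.Agent.Helper71.AA

private lemma one63 (B : ℕ) (m : ℕ) (hm : 0 < m) (r : ZMod m) :
    |((((Finset.Icc (-(B : ℤ)) (B : ℤ)).filter (fun a : ℤ => (a : ZMod m) = r)).card : ℕ) : ℝ) -
      (2 * (B : ℝ) + 1) / m| ≤ 1 := by
  have : NeZero m := ⟨hm.ne'⟩
  have hmz : (0 : ℤ) < m := by exact_mod_cast hm
  have hmr : (0 : ℝ) < m := by exact_mod_cast hm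
  have e1 : (Finset.Icc (-(B : ℤ)) (B : ℤ)).filter (fun a : ℤ => (a : ZMod m) = r) =
      (Finset.Ico (-(B : ℤ)) ((B : ℤ) + 1)).filter (fun a : ℤ => a ≡ (r.val : ℤ) [ZMOD (m : ℤ)]) := by
    ext a
    simp only [Finset.mem_filter, Finset.mem_Icc, Finset.mem_Ico, Int.lt_add_one_iff]
    have : ((a : ZMod m) = r) ↔ a ≡ (r.val : ℤ) [ZMOD (m : ℤ)] := by
      rw [← ZMod.intCast_eq_intCast_iff]
      simp
    rw [this]
  have h2 := Int.Ico_filter_modEq_card (-(B : ℤ)) ((B : ℤ) + 1) hmz (r.val : ℤ)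
  rw [← e1] at h2
  set c := ((Finset.Icc (-(B : ℤ)) (B : ℤ)).filter (fun a : ℤ => (a : ZMod m) = r)).card with hc
  set x : ℚ := (((((B : ℤ) + 1 : ℤ) : ℚ)) - ((r.val : ℤ) : ℚ)) / (((m : ℤ) : ℚ)) with hx
  set y : ℚ := ((((-(B : ℤ) : ℤ) : ℚ)) - ((r.val : ℤ) : ℚ)) / (((m : ℤ) : ℚ)) with hy
  have hmq : (0 : ℚ) < ((m : ℤ) : ℚ) := by exact_mod_cast hm
  have hxy : x - y = (2 * (B : ℚ) + 1) / m := by
    rw [hx, hy, ← sub_div]
    push_cast
    ring
  have hyx : y ≤ x := by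
    have : 0 ≤ x - y := by rw [hxy]; positivity
    linarith
  have hceil : ⌈y⌉ ≤ ⌈x⌉ := Int.ceil_le_ceil hyx
  rw [max_eq_left (by linarith)] at h2
  have hxr : (x : ℝ) - y = (2 * (B : ℝ) + 1) / m := by
    have := congrArg (fun z : ℚ => (z : ℝ)) hxy
    push_cast at this
    exact this
  have h3 : ((c : ℕ) : ℝ) = ((⌈x⌉ : ℤ) : ℝ) - ((⌈y⌉ : ℤ) : ℝ) := by
    have := congrArg (fun z : ℤ => (z : ℝ)) h2
    push_cast at this
    exact this
  have hx1 : (x : ℝ) ≤ ((⌈x⌉ : ℤ) : ℝ) := by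
    have := Int.le_ceil x
    exact_mod_cast this
  have hx2 : ((⌈x⌉ : ℤ) : ℝ) < x + 1 := by
    have := Int.ceil_lt_add_one x
    exact_mod_cast this
  have hy1 : (y : ℝ) ≤ ((⌈y⌉ : ℤ) : ℝ) := by
    have := Int.le_ceil y
    exact_mod_cast this
  have hy2 : ((⌈y⌉ : ℤ) : ℝ) < y + 1 := by
    have := Int.ceil_lt_add_one y
    exact_mod_cast this
  rw [h3, ← hxr, abs_le]
  constructor <;> linarith

private lemma prod63 {ι : Type} (s : Finset ι) (θ : ι → ℝ) (t : ℝ) (ht : 0 ≤ t) (hθ : ∀ i, |θ i| ≤ t) :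
    |∏ i ∈ s, (1 + θ i) - 1| ≤ (1 + t) ^ s.card - 1 := by
  classical
  induction s using Finset.induction_on with
  | empty => simp
  | insert a s ha ih =>
    rw [Finset.prod_insert ha, Finset.card_insert_of_notMem ha]
    have e : (1 + θ a) * ∏ i ∈ s, (1 + θ i) - 1 =
        (∏ i ∈ s, (1 + θ i) - 1) * (1 + θ a) + θ a := by ring
    rw [e]
    have h1 : |1 + θ a| ≤ 1 + t := by
      refine (abs_add_le _ _).trans ?_
      rw [abs_one]; linarith [hθ a]
    have h2 : (0 : ℝ) ≤ (1 + t) ^ s.card - 1 := by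
      have := one_le_pow₀ (n := s.card) (show (1 : ℝ) ≤ 1 + t by linarith)
      linarith
    calc |(∏ i ∈ s, (1 + θ i) - 1) * (1 + θ a) + θ a|
        ≤ |(∏ i ∈ s, (1 + θ i) - 1)| * |1 + θ a| + |θ a| := by
          refine (abs_add_le _ _).trans ?_
          rw [abs_mul]
      _ ≤ ((1 + t) ^ s.card - 1) * (1 + t) + t := by
          have := mul_le_mul ih h1 (abs_nonneg _) h2
          linarith [hθ a]
      _ = (1 + t) ^ (s.card + 1) - 1 := by ring

private lemma pow63 (n : ℕ) (t : ℝ) (ht : 0 ≤ t) (ht1 : t ≤ 1) : (1 + t) ^ n - 1 ≤ (2 ^ n - 1) * t := by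
  induction n with
  | zero => simp
  | succ n ih =>
    have h1 : (1 : ℝ) ≤ 2 ^ n := one_le_pow₀ (by norm_num)
    have e : (1 + t) ^ (n + 1) - 1 = ((1 + t) ^ n - 1) * (1 + t) + t := by ring
    rw [e]
    have h2 : ((1 + t) ^ n - 1) * (1 + t) ≤ ((2 ^ n - 1) * t) * (1 + t) :=
      mul_le_mul_of_nonneg_right ih (by linarith)
    have h3 : (2 ^ n - 1) * t * (1 + t) + t ≤ (2 ^ (n + 1) - 1) * t := by
      have h4 : (2 ^ n - 1) * (1 + t) + 1 ≤ ((2 : ℝ) ^ (n + 1) - 1) := by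
        rw [pow_succ]; nlinarith
      nlinarith
    linarith

/-- Integer points of a box in prescribed residue classes. -/
theorem box_residue {ι : Type} [Fintype ι] (B : ι → ℕ) (m : ℕ) (hm : 0 < m) (A : Set (ι → ZMod m))
    (β : ℝ) (hβ : 0 < β) (hB : ∀ i, β ≤ B i) (hmβ : (m : ℝ) ≤ β) :
    |(Set.ncard {a : ι → ℤ | (∀ i, |a i| ≤ (B i : ℤ)) ∧ (fun i => ((a i : ℤ) : ZMod m)) ∈ A} : ℝ)
      - (∏ i, (2 * (B i : ℝ) + 1)) * (Nat.card A / (m : ℝ) ^ (Fintype.card ι))|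
      ≤ (∏ i, (2 * (B i : ℝ) + 1)) * (2 ^ (Fintype.card ι) * m / β) := by
  classical
  have : NeZero m := ⟨hm.ne'⟩
  have hmr : (0 : ℝ) < m := by exact_mod_cast hm
  -- the counting
  set I : ι → Finset ℤ := fun i => Finset.Icc (-(B i : ℤ)) (B i : ℤ) with hI
  set n : (ι → ZMod m) → ι → ℝ := fun r i =>
    ((((I i).filter (fun a : ℤ => (a : ZMod m) = r i)).card : ℕ) : ℝ) with hn
  have hcount : (Set.ncard {a : ι → ℤ | (∀ i, |a i| ≤ (B i : ℤ)) ∧
      (fun i => ((a i : ℤ) : ZMod m)) ∈ A} : ℝ) = ∑ r ∈ A.toFinset, ∏ i, n r i := by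
    have hset : {a : ι → ℤ | (∀ i, |a i| ≤ (B i : ℤ)) ∧ (fun i => ((a i : ℤ) : ZMod m)) ∈ A} =
        (((Fintype.piFinset I).filter (fun a => (fun i => ((a i : ℤ) : ZMod m)) ∈ A.toFinset) :
          Finset (ι → ℤ)) : Set (ι → ℤ)) := by
      ext a
      simp only [Set.mem_ofPred_eq, Finset.coe_filter, Fintype.mem_piFinset, hI, Finset.mem_Icc,
        Set.mem_toFinset, abs_le]
    rw [hset, Set.ncard_coe_finset]
    have hfib := Finset.card_eq_sum_card_fiberwise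
      (s := (Fintype.piFinset I).filter (fun a => (fun i => ((a i : ℤ) : ZMod m)) ∈ A.toFinset))
      (f := fun a => (fun i => ((a i : ℤ) : ZMod m))) (t := A.toFinset)
      (fun a ha => (Finset.mem_filter.1 ha).2)
    rw [hfib]
    push_cast
    refine Finset.sum_congr rfl fun r hr => ?_
    have : ((Fintype.piFinset I).filter (fun a => (fun i => ((a i : ℤ) : ZMod m)) ∈ A.toFinset)).filter
        (fun a => (fun i => ((a i : ℤ) : ZMod m)) = r) =
        Fintype.piFinset (fun i => (I i).filter (fun a : ℤ => (a : ZMod m) = r i)) := by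
      ext a
      simp only [Finset.mem_filter, Fintype.mem_piFinset]
      constructor
      · rintro ⟨⟨h1, -⟩, h2⟩ i
        exact ⟨h1 i, congrFun h2 i⟩
      · intro h
        have h2 : (fun i => ((a i : ℤ) : ZMod m)) = r := funext fun i => (h i).2
        exact ⟨⟨fun i => (h i).1, by rw [h2]; exact hr⟩, h2⟩
    rw [this, Fintype.card_piFinset]
    push_cast
    rfl
  rw [hcount]
  set x : ι → ℝ := fun i => (2 * (B i : ℝ) + 1) / m with hx
  have hBpos : ∀ i, (0 : ℝ) < 2 * (B i : ℝ) + 1 := fun i => by positivity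
  have hxpos : ∀ i, 0 < x i := fun i => div_pos (hBpos i) hmr
  set t : ℝ := m / β with ht
  have ht0 : 0 ≤ t := by positivity
  have ht1 : t ≤ 1 := by rw [ht, div_le_one hβ]; exact hmβ
  have hbound : ∀ r : ι → ZMod m, |∏ i, n r i - ∏ i, x i| ≤ (∏ i, x i) * (2 ^ Fintype.card ι * t) := by
    intro r
    set θ : ι → ℝ := fun i => (n r i - x i) / x i with hθ
    have hθt : ∀ i, |θ i| ≤ t := by
      intro i
      rw [hθ]
      simp only
      rw [abs_div, abs_of_pos (hxpos i), div_le_iff₀ (hxpos i)]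
      have h1 : |n r i - x i| ≤ 1 := one63 (B i) m hm (r i)
      refine h1.trans ?_
      rw [ht, hx]
      simp only
      rw [div_mul_div_comm, one_le_div (by positivity)]
      have := hB i
      nlinarith [hBpos i]
    have hfac : ∀ i, n r i = x i * (1 + θ i) := by
      intro i
      rw [hθ]
      have := (hxpos i).ne'
      field_simp
      ring
    have e1 : ∏ i, n r i = (∏ i, x i) * ∏ i, (1 + θ i) := by
      rw [← Finset.prod_mul_distrib]
      exact Finset.prod_congr rfl fun i _ => hfac i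
    have hX : 0 < ∏ i, x i := Finset.prod_pos fun i _ => hxpos i
    rw [e1]
    have e2 : (∏ i, x i) * ∏ i, (1 + θ i) - ∏ i, x i = (∏ i, x i) * (∏ i, (1 + θ i) - 1) := by ring
    rw [e2, abs_mul, abs_of_pos hX]
    refine mul_le_mul_of_nonneg_left ?_ hX.le
    refine (prod63 Finset.univ θ t ht0 hθt).trans ?_
    rw [Finset.card_univ]
    refine (pow63 _ t ht0 ht1).trans ?_
    nlinarith [pow_pos (show (0:ℝ) < 2 by norm_num) (Fintype.card ι)]
  have hcardA : (Nat.card A : ℝ) = (A.toFinset.card : ℝ) := by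
    rw [Nat.card_eq_card_toFinset]
  have hprodx : ∏ i, x i = (∏ i, (2 * (B i : ℝ) + 1)) / (m : ℝ) ^ Fintype.card ι := by
    rw [hx, Finset.prod_div_distrib, Finset.prod_const, Finset.card_univ]
  have e3 : ∑ r ∈ A.toFinset, ∏ i, n r i - (∏ i, (2 * (B i : ℝ) + 1)) *
      (Nat.card A / (m : ℝ) ^ (Fintype.card ι)) = ∑ r ∈ A.toFinset, (∏ i, n r i - ∏ i, x i) := by
    rw [Finset.sum_sub_distrib, Finset.sum_const, nsmul_eq_mul, hcardA, hprodx]
    ring
  rw [e3]
  refine (Finset.abs_sum_le_sum_abs _ _).trans ?_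
  refine (Finset.sum_le_sum fun r _ => hbound r).trans ?_
  rw [Finset.sum_const, nsmul_eq_mul, hprodx]
  have hcA : (A.toFinset.card : ℝ) ≤ (m : ℝ) ^ Fintype.card ι := by
    have h1 := Finset.card_le_univ A.toFinset
    rw [Fintype.card_fun, ZMod.card] at h1
    exact_mod_cast h1
  have hP : 0 < ∏ i, (2 * (B i : ℝ) + 1) := Finset.prod_pos fun i _ => hBpos i
  have hmn : (0 : ℝ) < (m : ℝ) ^ Fintype.card ι := by positivity
  calc (A.toFinset.card : ℝ) * ((∏ i, (2 * (B i : ℝ) + 1)) / (m : ℝ) ^ Fintype.card ι *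
        (2 ^ Fintype.card ι * t))
      ≤ (m : ℝ) ^ Fintype.card ι * ((∏ i, (2 * (B i : ℝ) + 1)) / (m : ℝ) ^ Fintype.card ι *
        (2 ^ Fintype.card ι * t)) := mul_le_mul_of_nonneg_right hcA (by positivity)
    _ = (∏ i, (2 * (B i : ℝ) + 1)) * (2 ^ Fintype.card ι * m / β) := by
        rw [ht]
        field_simp

end Pool.Agent.Helper71.AA
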