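import Pool.Agent.Helper71.AA.Root

/-!
# Counting Weil polynomials: upper bounds (block AA-CNT1)
-/

set_option autoImplicit false

namespace Pool.Agent.Helper71.AA

open Polynomial

/-- The exponent `g (g + 1) / 2`. -/
def E (g : ℕ) : ℕ := g * (g + 1) / 2

private lemma E_succ (g : ℕ) : E (g + 1) = E g + (g + 1) := by
  unfold E
  have h : (g + 1) * (g + 1 + 1) = g * (g + 1) + (g + 1) * 2 := by ring
  rw [h, Nat.add_mul_div_right _ _ (by norm_num : 0 < 2)]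

lemma prod_pow_eq (s : ℝ) (g : ℕ) : ∏ i : Fin g, s ^ ((i : ℕ) + 1) = s ^ E g := by
  induction g with
  | zero => simp [E]
  | succ g ih =>
    rw [Fin.prod_univ_castSucc]
    simp only [Fin.val_castSucc, Fin.val_last]
    rw [ih, E_succ, pow_add _ (E g) (g + 1)]

/-- The box of upper coefficients. -/
noncomputable def box (q g : ℕ) (i : Fin g) : ℕ :=
  ⌈√(q : ℝ) ^ ((i : ℕ) + 1) * (2 * g).choose ((i : ℕ) + 1)⌉₊

private lemma box_eq_Icc (q g : ℕ) : {a : Fin g → ℤ | ∀ i, |a i| ≤ (box q g i : ℤ)} =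
    ↑(Finset.Icc (fun i => -(box q g i : ℤ)) (fun i : Fin g => (box q g i : ℤ))) := by
  ext a
  simp only [Set.mem_ofPred_eq, Finset.coe_Icc, Set.mem_Icc, Pi.le_def, abs_le, ← forall_and]

/-- A set of Weil polynomials has at most as many elements as its set of vectors of upper
coefficients, which lies in the box. -/
theorem ncard_le_box {q g : ℕ} (T : Set ℤ[X]) (hT : ∀ P ∈ T, IsWeil q g P)
    (A : Set (Fin g → ℤ))
    (hA : ∀ P ∈ T, (fun i : Fin g => P.coeff (2 * g - 1 - i)) ∈ A) :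
    T.Finite ∧ T.ncard ≤ {a : Fin g → ℤ | (∀ i, |a i| ≤ (box q g i : ℤ)) ∧ a ∈ A}.ncard := by
  have hfin : {a : Fin g → ℤ | (∀ i, |a i| ≤ (box q g i : ℤ)) ∧ a ∈ A}.Finite := by
    refine Set.Finite.subset (s := {a : Fin g → ℤ | ∀ i, |a i| ≤ (box q g i : ℤ)}) ?_
      (fun a ha => ha.1)
    rw [box_eq_Icc]
    exact Finset.finite_toSet _
  have hmaps : Set.MapsTo (fun P : ℤ[X] => fun i : Fin g => P.coeff (2 * g - 1 - i)) T
      {a : Fin g → ℤ | (∀ i, |a i| ≤ (box q g i : ℤ)) ∧ a ∈ A} := by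
    intro P hP
    refine ⟨fun i => ?_, hA P hP⟩
    have h1 := (hT P hP).coeff_le i i.2
    have h2 : |((P.coeff (2 * g - 1 - i) : ℤ) : ℝ)| ≤ (box q g i : ℝ) :=
      h1.trans (Nat.le_ceil _)
    have h3 : ((|P.coeff (2 * g - 1 - i)| : ℤ) : ℝ) ≤ (((box q g i : ℕ) : ℤ) : ℝ) := by
      rw [Int.cast_abs]
      simpa using h2
    exact_mod_cast h3
  have hinj : Set.InjOn (fun P : ℤ[X] => fun i : Fin g => P.coeff (2 * g - 1 - i)) T := by
    intro P hP P' hP' h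
    refine (hT P hP).ext (hT P' hP') fun i hi => ?_
    exact congrFun h ⟨i, hi⟩
  exact ⟨Set.Finite.of_injOn hmaps hinj hfin, Set.ncard_le_ncard_of_injOn _ hmaps hinj hfin⟩

/-- The size of the box. -/
theorem box_card (g : ℕ) : ∃ K : ℝ, 0 < K ∧ ∀ q : ℕ, 0 < q →
    ∏ i, (2 * (box q g i : ℝ) + 1) ≤ K * √(q : ℝ) ^ E g := by
  refine ⟨∏ i : Fin g, (2 * ((2 * g).choose ((i : ℕ) + 1) : ℝ) + 3),
    Finset.prod_pos fun i _ => by positivity, fun q hq => ?_⟩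
  have hs : (1 : ℝ) ≤ √(q : ℝ) := by
    rw [Real.one_le_sqrt]
    exact_mod_cast hq
  rw [← prod_pow_eq, ← Finset.prod_mul_distrib]
  refine Finset.prod_le_prod (fun i _ => by positivity) fun i _ => ?_
  have h1 : (box q g i : ℝ) < √(q : ℝ) ^ ((i : ℕ) + 1) * (2 * g).choose ((i : ℕ) + 1) + 1 :=
    Nat.ceil_lt_add_one (by positivity)
  have h2 : (1 : ℝ) ≤ √(q : ℝ) ^ ((i : ℕ) + 1) := one_le_pow₀ hs
  nlinarith

theorem weil_finite (q g : ℕ) : {P : ℤ[X] | IsWeil q g P}.Finite :=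
  (ncard_le_box {P : ℤ[X] | IsWeil q g P} (fun _ h => h) Set.univ fun _ _ => Set.mem_univ _).1

theorem weil_upper (g : ℕ) : ∃ K : ℝ, 0 < K ∧ ∀ q : ℕ, 0 < q →
    ({P : ℤ[X] | IsWeil q g P}.ncard : ℝ) ≤ K * √(q : ℝ) ^ E g := by
  obtain ⟨K, hK, h⟩ := box_card g
  refine ⟨K, hK, fun q hq => le_trans ?_ (h q hq)⟩
  have h1 := (ncard_le_box {P : ℤ[X] | IsWeil q g P} (fun _ h => h) Set.univ
    fun _ _ => Set.mem_univ _).2
  have h2 : {a : Fin g → ℤ | (∀ i, |a i| ≤ (box q g i : ℤ)) ∧ a ∈ (Set.univ : Set (Fin g → ℤ))} =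
      ↑(Finset.Icc (fun i => -(box q g i : ℤ)) (fun i : Fin g => (box q g i : ℤ))) := by
    rw [← box_eq_Icc]
    ext a
    simp
  rw [h2, Set.ncard_coe_finset, Pi.card_Icc] at h1
  have h3 : ∏ i : Fin g, (Finset.Icc (-(box q g i : ℤ)) (box q g i : ℤ)).card =
      ∏ i : Fin g, (2 * box q g i + 1) := by
    refine Finset.prod_congr rfl fun i _ => ?_
    rw [Int.card_Icc]
    omega
  rw [h3] at h1
  calc ({P : ℤ[X] | IsWeil q g P}.ncard : ℝ) ≤ ((∏ i : Fin g, (2 * box q g i + 1) : ℕ) : ℝ) := by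
        exact_mod_cast h1
    _ = ∏ i, (2 * (box q g i : ℝ) + 1) := by push_cast; rfl

end Pool.Agent.Helper71.AA
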