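import Pool.Agent.Helper71.AA.Cnt1

/-!
# The decomposable Weil polynomials are few (block AA-CNT2)
-/

set_option autoImplicit false

namespace Pool.Agent.Helper71.AA

open Polynomial

private lemma c2_E {g k : ℕ} (hk : 0 < k) (hkg : k < g) : E k + E (g - k) + 1 ≤ E g := by
  obtain ⟨j, rfl⟩ : ∃ j, g = k + j := ⟨g - k, by omega⟩
  have hj : 0 < j := by omega
  rw [Nat.add_sub_cancel_left]
  have e : ∀ n : ℕ, 2 * E n = n * (n + 1) := fun n =>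
    Nat.mul_div_cancel' (Nat.even_mul_succ_self n).two_dvd
  have h1 := e k
  have h2 := e j
  have h3 := e (k + j)
  have h4 : 1 ≤ k * j := Nat.mul_pos hk hj
  nlinarith

theorem split_upper (g : ℕ) (hg : 0 < g) : ∃ K : ℝ, 0 < K ∧ ∀ q : ℕ, 0 < q →
    ({P : ℤ[X] | IsWeil q g P ∧ IsSplit q g P}.ncard : ℝ) ≤
      K * √(q : ℝ) ^ E g / √(q : ℝ) := by
  choose K hK0 hK using weil_upper
  refine ⟨1 + ∑ k ∈ Finset.Ioo 0 g, K k * K (g - k), ?_, ?_⟩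
  · have : 0 ≤ ∑ k ∈ Finset.Ioo 0 g, K k * K (g - k) :=
      Finset.sum_nonneg fun k _ => (mul_pos (hK0 _) (hK0 _)).le
    linarith
  intro q hq
  have hs : 1 ≤ √(q : ℝ) := by
    rw [Real.one_le_sqrt]
    exact_mod_cast hq
  have hs0 : 0 < √(q : ℝ) := by linarith
  set S : ℕ → Set ℤ[X] := fun k =>
    (fun p : ℤ[X] × ℤ[X] => p.1 * p.2) '' ({P | IsWeil q k P} ×ˢ {P | IsWeil q (g - k) P}) with hS
  have hSf : ∀ k, (S k).Finite := fun k => ((weil_finite q k).prod (weil_finite q (g - k))).image _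
  have hsub : {P : ℤ[X] | IsWeil q g P ∧ IsSplit q g P} ⊆ ⋃ k ∈ Finset.Ioo 0 g, S k := by
    rintro P ⟨_, k, hk0, hkg, P₁, P₂, h1, h2, rfl⟩
    rw [Set.mem_iUnion₂]
    exact ⟨k, Finset.mem_Ioo.2 ⟨hk0, hkg⟩, ⟨(P₁, P₂), ⟨h1, h2⟩, rfl⟩⟩
  have hfin : (⋃ k ∈ Finset.Ioo 0 g, S k).Finite :=
    Set.Finite.biUnion (Finset.finite_toSet _) fun k _ => hSf k
  have h1 : {P : ℤ[X] | IsWeil q g P ∧ IsSplit q g P}.ncard ≤ ∑ k ∈ Finset.Ioo 0 g, (S k).ncard :=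
    (Set.ncard_le_ncard hsub hfin).trans (Finset.set_ncard_biUnion_le _ _)
  have h2 : ∀ k ∈ Finset.Ioo 0 g, ((S k).ncard : ℝ) ≤ K k * K (g - k) * (√(q : ℝ) ^ E g / √(q : ℝ)) := by
    intro k hk
    rw [Finset.mem_Ioo] at hk
    have h3 : (S k).ncard ≤ {P : ℤ[X] | IsWeil q k P}.ncard * {P : ℤ[X] | IsWeil q (g - k) P}.ncard := by
      refine (Set.ncard_image_le ((weil_finite q k).prod (weil_finite q (g - k)))).trans ?_
      rw [Set.ncard_prod]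
    have h4 : ((S k).ncard : ℝ) ≤ ({P : ℤ[X] | IsWeil q k P}.ncard : ℝ) *
        ({P : ℤ[X] | IsWeil q (g - k) P}.ncard : ℝ) := by exact_mod_cast h3
    have h5 : √(q : ℝ) ^ E k * √(q : ℝ) ^ E (g - k) ≤ √(q : ℝ) ^ E g / √(q : ℝ) := by
      rw [le_div_iff₀ hs0, ← pow_add, ← pow_succ]
      exact pow_le_pow_right₀ hs (c2_E hk.1 hk.2)
    calc ((S k).ncard : ℝ) ≤ ({P : ℤ[X] | IsWeil q k P}.ncard : ℝ) *
        ({P : ℤ[X] | IsWeil q (g - k) P}.ncard : ℝ) := h4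
      _ ≤ (K k * √(q : ℝ) ^ E k) * (K (g - k) * √(q : ℝ) ^ E (g - k)) := by
          refine mul_le_mul (hK k q hq) (hK (g - k) q hq) (Nat.cast_nonneg _) ?_
          exact mul_nonneg (hK0 _).le (pow_nonneg hs0.le _)
      _ = K k * K (g - k) * (√(q : ℝ) ^ E k * √(q : ℝ) ^ E (g - k)) := by ring
      _ ≤ _ := mul_le_mul_of_nonneg_left h5 (mul_pos (hK0 _) (hK0 _)).le
  have h6 : ({P : ℤ[X] | IsWeil q g P ∧ IsSplit q g P}.ncard : ℝ) ≤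
      (∑ k ∈ Finset.Ioo 0 g, K k * K (g - k)) * (√(q : ℝ) ^ E g / √(q : ℝ)) := by
    calc ({P : ℤ[X] | IsWeil q g P ∧ IsSplit q g P}.ncard : ℝ) ≤
        ((∑ k ∈ Finset.Ioo 0 g, (S k).ncard : ℕ) : ℝ) := by exact_mod_cast h1
      _ = ∑ k ∈ Finset.Ioo 0 g, ((S k).ncard : ℝ) := by push_cast; rfl
      _ ≤ ∑ k ∈ Finset.Ioo 0 g, K k * K (g - k) * (√(q : ℝ) ^ E g / √(q : ℝ)) :=
          Finset.sum_le_sum h2
      _ = _ := by rw [Finset.sum_mul]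
  have h7 : 0 ≤ √(q : ℝ) ^ E g / √(q : ℝ) := div_nonneg (pow_nonneg hs0.le _) hs0.le
  calc ({P : ℤ[X] | IsWeil q g P ∧ IsSplit q g P}.ncard : ℝ) ≤
      (∑ k ∈ Finset.Ioo 0 g, K k * K (g - k)) * (√(q : ℝ) ^ E g / √(q : ℝ)) := h6
    _ ≤ (1 + ∑ k ∈ Finset.Ioo 0 g, K k * K (g - k)) * (√(q : ℝ) ^ E g / √(q : ℝ)) := by
        nlinarith
    _ = _ := by rw [mul_div_assoc]

end Pool.Agent.Helper71.AA
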