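import Pool.Agent.Helper71.AA.Cnt1

/-!
# The non-ordinary isogeny classes are few (block AA-CNT3)
-/

set_option autoImplicit false

namespace Pool.Agent.Helper71.AA

open Polynomial

private lemma pow_dvd_of_sq {p k n : ℕ} (hp : p.Prime) (h : p ^ k ∣ n ^ 2) :
    p ^ ((k + 1) / 2) ∣ n := by
  rcases Nat.eq_zero_or_pos n with rfl | hn
  · exact dvd_zero _
  · have hn0 : n ≠ 0 := hn.ne'
    rw [hp.pow_dvd_iff_le_factorization hn0]
    have h2 := (hp.pow_dvd_iff_le_factorization (pow_ne_zero 2 hn0)).mp h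
    rw [Nat.factorization_pow] at h2
    simp only [Finsupp.smul_apply, smul_eq_mul] at h2
    omega

private lemma card_mult (r B : ℕ) (hr : 0 < r) :
    ((Finset.Icc (-(B : ℤ)) B).filter (fun x => (r : ℤ) ∣ x)).card ≤ 2 * (B / r) + 1 := by
  have hsub : (Finset.Icc (-(B : ℤ)) B).filter (fun x => (r : ℤ) ∣ x) ⊆
      (Finset.Icc (-((B / r : ℕ) : ℤ)) ((B / r : ℕ) : ℤ)).image (fun m => (r : ℤ) * m) := by
    intro x hx
    rw [Finset.mem_filter, Finset.mem_Icc] at hx
    obtain ⟨⟨h1, h2⟩, m, rfl⟩ := hx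
    rw [Finset.mem_image]
    refine ⟨m, ?_, rfl⟩
    rw [Finset.mem_Icc]
    have hr' : (0 : ℤ) < r := by exact_mod_cast hr
    push_cast
    constructor
    · have : -m ≤ (B : ℤ) / r := by
        rw [Int.le_ediv_iff_mul_le hr']
        nlinarith
      linarith
    · rw [Int.le_ediv_iff_mul_le hr']
      nlinarith
  refine (Finset.card_le_card hsub).trans (Finset.card_image_le.trans ?_)
  rw [Int.card_Icc]
  omega

theorem nonordinary_upper (g : ℕ) (hg : 0 < g) : ∃ K : ℝ, 0 < K ∧ ∀ q : ℕ, IsPrimePow q →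
    ({P : ℤ[X] | IsWeil q g P ∧ (q : ℤ) ∣ P.coeff g ^ 2}.ncard : ℝ) ≤
      K * √(q : ℝ) ^ E g / √(q : ℝ) := by
  classical
  obtain ⟨K, hK, hbox⟩ := box_card g
  refine ⟨2 * K, by positivity, ?_⟩
  intro q hq
  obtain ⟨p, k, hp, hk, hpk⟩ := (isPrimePow_nat_iff q).mp hq
  have hq0 : 0 < q := hq.pos
  have hq1 : (1 : ℝ) ≤ q := by exact_mod_cast hq0
  set s : ℝ := √(q : ℝ) with hs
  have hs1 : 1 ≤ s := by
    rw [hs]; exact Real.one_le_sqrt.mpr hq1
  have hs0 : 0 < s := by linarith
  set r : ℕ := p ^ ((k + 1) / 2) with hr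
  have hr0 : 0 < r := pow_pos hp.pos _
  have hsr : s ≤ r := by
    rw [hs, Real.sqrt_le_left (by positivity)]
    have h1 : q ≤ r ^ 2 := by
      rw [← hpk, hr, ← pow_mul]
      exact Nat.pow_le_pow_right hp.pos (by omega)
    exact_mod_cast h1
  let last : Fin g := ⟨g - 1, by omega⟩
  let A : Set (Fin g → ℤ) := {a | (r : ℤ) ∣ a last}
  obtain ⟨hfin, hcard⟩ := ncard_le_box (q := q) (g := g)
    {P : ℤ[X] | IsWeil q g P ∧ (q : ℤ) ∣ P.coeff g ^ 2} (fun P hP => hP.1) A (by
      intro P hP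
      show (r : ℤ) ∣ P.coeff (2 * g - 1 - (last : ℕ))
      have e : 2 * g - 1 - (last : ℕ) = g := by
        show 2 * g - 1 - (g - 1) = g
        omega
      rw [e]
      have h2 := hP.2
      have h3 : q ∣ (P.coeff g).natAbs ^ 2 := by
        rw [← Int.natAbs_pow]
        exact Int.natCast_dvd.mp h2
      rw [← hpk] at h3
      exact Int.natCast_dvd.mpr (pow_dvd_of_sq hp h3))
  let S : Fin g → Finset ℤ := fun i => if i = last then
    (Finset.Icc (-(box q g i : ℤ)) (box q g i)).filter (fun x => (r : ℤ) ∣ x) else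
    Finset.Icc (-(box q g i : ℤ)) (box q g i)
  have hset : {a : Fin g → ℤ | (∀ i, |a i| ≤ (box q g i : ℤ)) ∧ a ∈ A} =
      ((Fintype.piFinset S : Finset (Fin g → ℤ)) : Set (Fin g → ℤ)) := by
    ext a
    rw [Finset.mem_coe, Fintype.mem_piFinset]
    constructor
    · rintro ⟨h1, h2⟩ i
      show a i ∈ (if i = last then _ else _)
      split_ifs with h
      · subst h
        rw [Finset.mem_filter, Finset.mem_Icc]
        exact ⟨abs_le.mp (h1 _), h2⟩
      · rw [Finset.mem_Icc]
        exact abs_le.mp (h1 _)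
    · intro h
      have h1 : ∀ i, a i ∈ (if i = last then
          (Finset.Icc (-(box q g i : ℤ)) (box q g i)).filter (fun x => (r : ℤ) ∣ x) else
          Finset.Icc (-(box q g i : ℤ)) (box q g i)) := h
      refine ⟨fun i => ?_, ?_⟩
      · have h2 := h1 i
        rw [abs_le]
        split_ifs at h2 with h3
        · rw [Finset.mem_filter, Finset.mem_Icc] at h2
          exact h2.1
        · rw [Finset.mem_Icc] at h2
          exact h2
      · have h2 := h1 last
        rw [if_pos rfl, Finset.mem_filter] at h2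
        exact h2.2
  rw [hset, Set.ncard_coe_finset, Fintype.card_piFinset] at hcard
  have hi : ∀ i, ((S i).card : ℝ) ≤ (2 * (box q g i : ℝ) + 1) * (if i = last then 2 / s else 1) := by
    intro i
    show (((if i = last then
      (Finset.Icc (-(box q g i : ℤ)) (box q g i)).filter (fun x => (r : ℤ) ∣ x) else
      Finset.Icc (-(box q g i : ℤ)) (box q g i)) : Finset ℤ).card : ℝ) ≤ _
    split_ifs with h
    · have hB : s ≤ (box q g i : ℝ) := by
        rw [box]
        refine le_trans ?_ (Nat.le_ceil _)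
        have h1 : s ≤ s ^ ((i : ℕ) + 1) := le_self_pow₀ hs1 (by omega)
        have h2 : (1 : ℝ) ≤ ((2 * g).choose ((i : ℕ) + 1) : ℝ) := by
          have : 0 < (2 * g).choose ((i : ℕ) + 1) := Nat.choose_pos (by have := i.2; omega)
          exact_mod_cast this
        calc s ≤ s ^ ((i : ℕ) + 1) * 1 := by rw [mul_one]; exact h1
          _ ≤ _ := mul_le_mul_of_nonneg_left h2 (by positivity)
      have h1 : (((Finset.Icc (-(box q g i : ℤ)) (box q g i)).filter
          (fun x => (r : ℤ) ∣ x)).card : ℝ) ≤ 2 * ((box q g i / r : ℕ) : ℝ) + 1 := by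
        exact_mod_cast card_mult r (box q g i) hr0
      have h2 : ((box q g i / r : ℕ) : ℝ) ≤ (box q g i : ℝ) / s :=
        Nat.cast_div_le.trans (div_le_div_of_nonneg_left (Nat.cast_nonneg _) hs0 hsr)
      refine h1.trans ?_
      have h3 : (2 * (box q g i : ℝ) + 1) * (2 / s) = 2 * ((box q g i : ℝ) / s) +
          (2 * (box q g i : ℝ) + 2) / s := by ring
      rw [h3]
      have h4 : 1 ≤ (2 * (box q g i : ℝ) + 2) / s := by
        rw [le_div_iff₀ hs0]; linarith
      linarith
    · rw [mul_one, Int.card_Icc]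
      have h1 : ((box q g i : ℤ) + 1 - -(box q g i : ℤ)).toNat = 2 * box q g i + 1 := by omega
      rw [h1]
      push_cast
      exact le_rfl
  calc ({P : ℤ[X] | IsWeil q g P ∧ (q : ℤ) ∣ P.coeff g ^ 2}.ncard : ℝ)
      ≤ ((∏ i, (S i).card : ℕ) : ℝ) := by exact_mod_cast hcard
    _ = ∏ i, ((S i).card : ℝ) := by push_cast; rfl
    _ ≤ ∏ i, ((2 * (box q g i : ℝ) + 1) * (if i = last then 2 / s else 1)) :=
        Finset.prod_le_prod (fun i _ => Nat.cast_nonneg _) (fun i _ => hi i)
    _ = (∏ i, (2 * (box q g i : ℝ) + 1)) * (2 / s) := by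
        rw [Finset.prod_mul_distrib, Finset.prod_ite_eq' Finset.univ last, if_pos (Finset.mem_univ _)]
    _ ≤ (K * s ^ E g) * (2 / s) := mul_le_mul_of_nonneg_right (hbox q hq0) (by positivity)
    _ = 2 * K * s ^ E g / s := by ring

end Pool.Agent.Helper71.AA
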