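import Pool.Agent.Helper71.AA.Defs

/-!
# Polynomials with the functional equation and given upper coefficients (block AA-POLY)
-/

set_option autoImplicit false

namespace Pool.Agent.Helper71.AA

open Polynomial

/-- The upper half of the coefficients. -/
private def upp (g : ℕ) (a : Fin g → ℤ) (m : ℕ) : ℤ :=
  if m = 2 * g then 1 else if h : 2 * g - 1 - m < g then a ⟨2 * g - 1 - m, h⟩ else 0

/-- All coefficients. -/
private def cf (q g : ℕ) (a : Fin g → ℤ) (m : ℕ) : ℤ :=
  if g ≤ m then upp g a m else (q : ℤ) ^ (g - m) * upp g a (2 * g - m)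

/-- The polynomial. -/
private noncomputable def pol (q g : ℕ) (a : Fin g → ℤ) : ℤ[X] :=
  ∑ m ∈ Finset.range (2 * g + 1), monomial m (cf q g a m)

private lemma pol_coeff (q g : ℕ) (a : Fin g → ℤ) (m : ℕ) :
    (pol q g a).coeff m = if m < 2 * g + 1 then cf q g a m else 0 := by
  unfold pol
  rw [finsetSum_coeff]
  simp_rw [coeff_monomial]
  rw [Finset.sum_ite_eq' (Finset.range (2 * g + 1)) m (cf q g a)]
  simp only [Finset.mem_range]

/-- Every vector is the vector of upper coefficients of a monic polynomial with the functional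
equation. -/
theorem exists_poly (q g : ℕ) (a : Fin g → ℤ) :
    ∃ P : ℤ[X], P.Monic ∧ P.natDegree = 2 * g ∧
      (∀ m ≤ g, P.coeff m = (q : ℤ) ^ (g - m) * P.coeff (2 * g - m)) ∧
      ∀ i : Fin g, P.coeff (2 * g - 1 - i) = a i := by
  have hdeg : (pol q g a).natDegree ≤ 2 * g := by
    rw [natDegree_le_iff_coeff_eq_zero]
    intro m hm
    rw [pol_coeff, if_neg (by omega)]
  have htop : (pol q g a).coeff (2 * g) = 1 := by
    rw [pol_coeff, if_pos (by omega)]
    unfold cf
    rw [if_pos (by omega)]
    unfold upp
    rw [if_pos rfl]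
  refine ⟨pol q g a, monic_of_natDegree_le_of_coeff_eq_one (2 * g) hdeg htop, ?_, ?_, ?_⟩
  · refine le_antisymm hdeg (le_natDegree_of_ne_zero ?_)
    rw [htop]
    exact one_ne_zero
  · intro m hm
    rw [pol_coeff, pol_coeff, if_pos (by omega), if_pos (by omega)]
    rcases Nat.lt_or_ge m g with h | h
    · have h1 : cf q g a m = (q : ℤ) ^ (g - m) * upp g a (2 * g - m) := by
        unfold cf
        rw [if_neg (by omega)]
      have h2 : cf q g a (2 * g - m) = upp g a (2 * g - m) := by
        unfold cf
        rw [if_pos (by omega)]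
      rw [h1, h2]
    · have h0 : m = g := le_antisymm hm h
      subst h0
      have h1 : 2 * m - m = m := by omega
      rw [h1, Nat.sub_self, pow_zero, one_mul]
  · intro i
    have hi := i.2
    rw [pol_coeff, if_pos (by omega)]
    unfold cf
    rw [if_pos (by omega)]
    unfold upp
    have h1 : 2 * g - 1 - (2 * g - 1 - (i : ℕ)) = i := by omega
    rw [if_neg (by omega), dif_pos (by omega)]
    congr 1
    exact Fin.ext h1

end Pool.Agent.Helper71.AA
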