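import Pool.Agent.Helper71.AA.Pal

/-!
# Polynomials with small coefficients are Weil polynomials (block AA-SMALL)
-/

set_option autoImplicit false

namespace Pool.Agent.Helper71.AA

open Polynomial

private lemma small_coprime {q x y : ℝ} (hq : q ≠ 0) (hxy : x ≠ y) :
    IsCoprime (quad q x) (quad q y) := by
  have h : y - x ≠ 0 := sub_ne_zero.2 (Ne.symm hxy)
  have h1 : (C (y - x)⁻¹ * C (y - x) : ℝ[X]) = 1 := by
    rw [← C_mul, inv_mul_cancel₀ h, C_1]
  have h2 : (C q⁻¹ * C q : ℝ[X]) = 1 := by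
    rw [← C_mul, inv_mul_cancel₀ hq, C_1]
  have h3 : (C (y - x)⁻¹ * (C y - C x) : ℝ[X]) = 1 := by
    rw [← C_sub]; exact h1
  refine ⟨C q⁻¹ * (1 - (X - C x) * C (y - x)⁻¹), C q⁻¹ * ((X - C x) * C (y - x)⁻¹), ?_⟩
  simp only [quad]
  linear_combination (-C q⁻¹ * (X - C x) * X) * h3 + h2

/-- The real function whose sign changes are used. -/
private noncomputable def sf (b : ℕ → ℝ) (g : ℕ) (t : ℝ) : ℝ :=
  ∑ m ∈ Finset.range (2 * g + 1), b m * Real.cos (((m : ℝ) - g) * t)

private lemma sf_neg (b : ℕ → ℝ) (g : ℕ) (t : ℝ) : sf b g (-t) = sf b g t := by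
  unfold sf
  refine Finset.sum_congr rfl fun m _ => ?_
  rw [mul_neg, Real.cos_neg]

private lemma sf_cont (b : ℕ → ℝ) (g : ℕ) : Continuous (sf b g) := by
  unfold sf
  fun_prop

private lemma sin_sum_zero (b : ℕ → ℝ) (g : ℕ) (hb : ∀ m ≤ 2 * g, b m = b (2 * g - m)) (t : ℝ) :
    ∑ m ∈ Finset.range (2 * g + 1), b m * Real.sin (((m : ℝ) - g) * t) = 0 := by
  have h := Finset.sum_range_reflect
    (fun m => b m * Real.sin (((m : ℝ) - g) * t)) (2 * g + 1)
  have h2 : ∑ j ∈ Finset.range (2 * g + 1),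
      (fun m => b m * Real.sin (((m : ℝ) - g) * t)) (2 * g + 1 - 1 - j)
      = - ∑ m ∈ Finset.range (2 * g + 1), b m * Real.sin (((m : ℝ) - g) * t) := by
    rw [← Finset.sum_neg_distrib]
    refine Finset.sum_congr rfl fun j hj => ?_
    have hj' : j ≤ 2 * g := by
      have := Finset.mem_range.1 hj
      omega
    have e1 : 2 * g + 1 - 1 - j = 2 * g - j := by omega
    simp only [e1]
    rw [← hb j hj', Nat.cast_sub hj']
    have e2 : (((2 * g : ℕ) : ℝ) - (j : ℝ) - g) * t = -(((j : ℝ) - g) * t) := by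
      push_cast
      ring
    rw [e2, Real.sin_neg]
    ring
  linarith [h, h2]

private lemma eval_eq (P : ℤ[X]) (g : ℕ) (s t : ℝ) (hd : P.natDegree = 2 * g)
    (hb : ∀ m ≤ 2 * g, (P.coeff m : ℝ) * s ^ m = (P.coeff (2 * g - m) : ℝ) * s ^ (2 * g - m)) :
    (P.map (Int.castRingHom ℂ)).eval ((s : ℂ) * Complex.exp (t * Complex.I)) =
      Complex.exp (((g : ℝ) * t : ℝ) * Complex.I) *
        (sf (fun m => (P.coeff m : ℝ) * s ^ m) g t : ℝ) := by
  have hdeg : (P.map (Int.castRingHom ℂ)).natDegree < 2 * g + 1 := by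
    have := Polynomial.natDegree_map_le (f := Int.castRingHom ℂ) (p := P)
    omega
  rw [Polynomial.eval_eq_sum_range' hdeg]
  have h0 := sin_sum_zero (fun m => (P.coeff m : ℝ) * s ^ m) g hb t
  have h1 : ((sf (fun m => (P.coeff m : ℝ) * s ^ m) g t : ℝ) : ℂ) =
      ∑ m ∈ Finset.range (2 * g + 1), ((P.coeff m : ℝ) * s ^ m : ℝ) *
        Complex.exp (((((m : ℝ) - g) * t : ℝ) : ℂ) * Complex.I) := by
    have h2 : ∑ m ∈ Finset.range (2 * g + 1), (((P.coeff m : ℝ) * s ^ m : ℝ) : ℂ) *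
        Complex.exp (((((m : ℝ) - g) * t : ℝ) : ℂ) * Complex.I) =
        ((∑ m ∈ Finset.range (2 * g + 1), (P.coeff m : ℝ) * s ^ m *
          Real.cos (((m : ℝ) - g) * t) : ℝ) : ℂ) +
        ((∑ m ∈ Finset.range (2 * g + 1), (P.coeff m : ℝ) * s ^ m *
          Real.sin (((m : ℝ) - g) * t) : ℝ) : ℂ) * Complex.I := by
      rw [Complex.ofReal_sum, Complex.ofReal_sum, Finset.sum_mul, ← Finset.sum_add_distrib]
      refine Finset.sum_congr rfl fun m _ => ?_
      rw [Complex.exp_mul_I, ← Complex.ofReal_cos, ← Complex.ofReal_sin]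
      simp only [Complex.ofReal_mul]
      ring
    rw [h2, h0]
    simp [sf]
  rw [h1, Finset.mul_sum]
  refine Finset.sum_congr rfl fun m _ => ?_
  rw [mul_left_comm, ← Complex.exp_add, mul_pow, ← Complex.exp_nat_mul, Polynomial.coeff_map]
  have e1 : ((m : ℂ) * (t * Complex.I)) =
      (((g : ℝ) * t : ℝ) : ℂ) * Complex.I + ((((m : ℝ) - g) * t : ℝ) : ℂ) * Complex.I := by
    push_cast
    ring
  rw [← e1]
  simp only [eq_intCast, Complex.ofReal_mul, Complex.ofReal_intCast, Complex.ofReal_pow]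
  ring

private lemma sf_sign (b : ℕ → ℝ) (g : ℕ) (hg : 0 < g) {S : ℝ} (hS : 0 < S)
    (h0 : b 0 = S) (h1 : b (2 * g) = S)
    (hb : ∀ m, 0 < m → m < 2 * g → |b m| ≤ S / (2 * g)) (k : ℕ) :
    0 < (-1 : ℝ) ^ k * sf b g (k * Real.pi / g) := by
  have hg' : (0 : ℝ) < g := by exact_mod_cast hg
  obtain ⟨n, hn⟩ : ∃ n, 2 * g = n + 1 := ⟨2 * g - 1, by omega⟩
  have hn' : (2 * g : ℝ) = n + 1 := by exact_mod_cast hn
  unfold sf
  have hc : ∀ x : ℝ, (x = g ∨ x = -g) → Real.cos (x * (k * Real.pi / g)) = (-1) ^ k := by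
    intro x hx
    rcases hx with rfl | rfl
    · rw [show (g : ℝ) * (k * Real.pi / g) = k * Real.pi by field_simp, Real.cos_nat_mul_pi]
    · rw [show -(g : ℝ) * (k * Real.pi / g) = -(k * Real.pi) by field_simp, Real.cos_neg,
        Real.cos_nat_mul_pi]
  rw [Finset.sum_range_succ, hn, Finset.sum_range_succ', ← hn, h1]
  have e0 : b 0 * Real.cos ((((0 : ℕ) : ℝ) - g) * (k * Real.pi / g)) = S * (-1) ^ k := by
    rw [h0, hc _ (Or.inr (by simp))]
  have e1 : S * Real.cos ((((2 * g : ℕ) : ℝ) - g) * (k * Real.pi / g)) = S * (-1) ^ k := by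
    rw [hc _ (Or.inl (by push_cast; ring))]
  rw [e0, e1]
  set R := ∑ j ∈ Finset.range n, b (j + 1) *
    Real.cos ((((j + 1 : ℕ) : ℝ) - g) * (k * Real.pi / g)) with hR
  have hRb : |R| ≤ n * (S / (2 * g)) := by
    rw [hR]
    refine (Finset.abs_sum_le_sum_abs _ _).trans ?_
    calc ∑ j ∈ Finset.range n, |b (j + 1) *
          Real.cos ((((j + 1 : ℕ) : ℝ) - g) * (k * Real.pi / g))|
        ≤ ∑ _j ∈ Finset.range n, S / (2 * g) := by
          refine Finset.sum_le_sum fun j hj => ?_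
          rw [abs_mul]
          have := Finset.mem_range.1 hj
          have h2 := hb (j + 1) (by omega) (by omega)
          have h3 := Real.abs_cos_le_one ((((j + 1 : ℕ) : ℝ) - g) * (k * Real.pi / g))
          calc _ ≤ S / (2 * g) * 1 := by
                gcongr
            _ = _ := mul_one _
      _ = n * (S / (2 * g)) := by simp
  have hlt : n * (S / (2 * g)) < 2 * S := by
    rw [hn']
    have hn0 : (0 : ℝ) ≤ n := Nat.cast_nonneg n
    rw [mul_div_assoc', div_lt_iff₀ (by positivity)]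
    nlinarith
  have hpm : ((-1 : ℝ) ^ k) * (-1) ^ k = 1 := by
    rw [← mul_pow]; norm_num
  have habs : |(-1 : ℝ) ^ k * R| = |R| := by
    rw [abs_mul, abs_pow]; simp
  have h5 : -|R| ≤ (-1 : ℝ) ^ k * R := by
    rw [← habs]; exact neg_abs_le _
  have h6 : (-1 : ℝ) ^ k * (R + S * (-1) ^ k + S * (-1) ^ k) = (-1 : ℝ) ^ k * R + 2 * S := by
    linear_combination (2 * S) * hpm
  rw [h6]
  linarith

private lemma exists_root (b : ℕ → ℝ) (g : ℕ) (hg : 0 < g) {S : ℝ} (hS : 0 < S)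
    (h0 : b 0 = S) (h1 : b (2 * g) = S)
    (hb : ∀ m, 0 < m → m < 2 * g → |b m| ≤ S / (2 * g)) (k : ℕ) :
    ∃ t : ℝ, k * Real.pi / g < t ∧ t < (k + 1 : ℝ) * Real.pi / g ∧ sf b g t = 0 := by
  have hg' : (0 : ℝ) < g := by exact_mod_cast hg
  have ha := sf_sign b g hg hS h0 h1 hb k
  have hb' := sf_sign b g hg hS h0 h1 hb (k + 1)
  have hle : (k : ℝ) * Real.pi / g ≤ (k + 1 : ℝ) * Real.pi / g := by
    have := Real.pi_pos
    gcongr
    linarith
  have hcont : ContinuousOn (fun t => (-1 : ℝ) ^ k * sf b g t)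
      (Set.Icc ((k : ℝ) * Real.pi / g) ((k + 1 : ℝ) * Real.pi / g)) :=
    (continuous_const.mul (sf_cont b g)).continuousOn
  have hmem : (0 : ℝ) ∈ Set.Ioo ((fun t => (-1 : ℝ) ^ k * sf b g t) ((k + 1 : ℝ) * Real.pi / g))
      ((fun t => (-1 : ℝ) ^ k * sf b g t) ((k : ℝ) * Real.pi / g)) := by
    refine ⟨?_, ha⟩
    have h2 : (-1 : ℝ) ^ (k + 1) * sf b g (((k + 1 : ℕ) : ℝ) * Real.pi / g) =
        - ((-1 : ℝ) ^ k * sf b g ((k + 1 : ℝ) * Real.pi / g)) := by
      rw [pow_succ]; push_cast; ring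
    rw [h2] at hb'
    simpa using hb'
  obtain ⟨t, ht, ht0⟩ := intermediate_value_Ioo' hle hcont hmem
  refine ⟨t, ht.1, ht.2, ?_⟩
  have h3 : ((-1 : ℝ) ^ k) ≠ 0 := by
    apply pow_ne_zero; norm_num
  exact (mul_eq_zero.1 ht0).resolve_left h3

/-- Sign changes of `P (√q e^{iθ}) e^{-igθ}` at `θ = m π / g`. -/
theorem isWeil_of_small {q g : ℕ} (hq : 0 < q) (hg : 0 < g) {P : ℤ[X]} (hm : P.Monic)
    (hd : P.natDegree = 2 * g)
    (hs : ∀ m ≤ g, P.coeff m = (q : ℤ) ^ (g - m) * P.coeff (2 * g - m))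
    (hb : ∀ i < g, |(P.coeff (2 * g - 1 - i) : ℝ)| ≤ √(q : ℝ) ^ (i + 1) / (2 * g)) :
    IsWeil q g P := by
  have hg' : (0 : ℝ) < g := by exact_mod_cast hg
  have hq' : (0 : ℝ) < q := by exact_mod_cast hq
  set s : ℝ := √(q : ℝ) with hsdef
  have hs0 : 0 < s := Real.sqrt_pos.2 hq'
  have hs2 : s ^ 2 = q := Real.sq_sqrt hq'.le
  -- symmetry
  have hsym0 : ∀ m ≤ g, (P.coeff m : ℝ) * s ^ m = (P.coeff (2 * g - m) : ℝ) * s ^ (2 * g - m) := by
    intro m hmg
    rw [hs m hmg]
    push_cast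
    rw [← hs2, ← pow_mul, show 2 * g - m = 2 * (g - m) + m by omega, pow_add]
    ring
  have hsym : ∀ m ≤ 2 * g,
      (P.coeff m : ℝ) * s ^ m = (P.coeff (2 * g - m) : ℝ) * s ^ (2 * g - m) := by
    intro m hm2
    rcases le_total m g with h | h
    · exact hsym0 m h
    · have := hsym0 (2 * g - m) (by omega)
      rw [show 2 * g - (2 * g - m) = m by omega] at this
      exact this.symm
  set b : ℕ → ℝ := fun m => (P.coeff m : ℝ) * s ^ m with hbdef
  have htop : b (2 * g) = s ^ (2 * g) := by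
    have : P.coeff (2 * g) = 1 := by rw [← hd]; exact hm
    simp [hbdef, this]
  have hbot : b 0 = s ^ (2 * g) := by
    have := hsym 0 (by omega)
    rw [← htop]
    simpa [hbdef] using this
  have hbd1 : ∀ m, g ≤ m → m < 2 * g → |b m| ≤ s ^ (2 * g) / (2 * g) := by
    intro m h1 h2
    have h3 := hb (2 * g - 1 - m) (by omega)
    rw [show 2 * g - 1 - (2 * g - 1 - m) = m by omega] at h3
    simp only [hbdef, abs_mul, abs_pow, abs_of_pos hs0]
    calc |(P.coeff m : ℝ)| * s ^ m ≤ s ^ (2 * g - 1 - m + 1) / (2 * g) * s ^ m := by gcongr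
      _ = s ^ (2 * g) / (2 * g) := by
        rw [div_mul_eq_mul_div, ← pow_add]
        congr 2
        omega
  have hbd : ∀ m, 0 < m → m < 2 * g → |b m| ≤ s ^ (2 * g) / (2 * g) := by
    intro m h1 h2
    rcases le_total g m with h | h
    · exact hbd1 m h h2
    · have h3 := hsym m (by omega)
      have h4 : b m = b (2 * g - m) := h3
      rw [h4]
      exact hbd1 (2 * g - m) (by omega) (by omega)
  have hex := exists_root b g hg (S := s ^ (2 * g)) (by positivity) hbot htop hbd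
  choose t ht1 ht2 ht3 using hex
  have hpi := Real.pi_pos
  have htpos : ∀ j : Fin g, 0 < t j := fun j =>
    lt_of_le_of_lt (by positivity) (ht1 j)
  have htlt : ∀ j : Fin g, t j < Real.pi := by
    intro j
    refine (ht2 j).trans_le ?_
    rw [div_le_iff₀ hg', mul_comm]
    have : ((j : ℕ) : ℝ) + 1 ≤ g := by exact_mod_cast j.2
    gcongr
  have htmono : ∀ i j : Fin g, i < j → t i < t j := by
    intro i j hij
    refine (ht2 i).trans_le (le_trans ?_ (ht1 j).le)
    have : ((i : ℕ) : ℝ) + 1 ≤ (j : ℕ) := by exact_mod_cast hij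
    gcongr
  have hcosne : ∀ i j : Fin g, i ≠ j → Real.cos (t i) ≠ Real.cos (t j) := by
    intro i j hij h
    have h1 := Real.injOn_cos ⟨(htpos i).le, (htlt i).le⟩ ⟨(htpos j).le, (htlt j).le⟩ h
    rcases lt_or_gt_of_ne hij with h2 | h2
    · exact absurd h1 (htmono i j h2).ne
    · exact absurd h1 (htmono j i h2).ne'
  refine ⟨fun j => 2 * s * Real.cos (t j), ?_, ?_⟩
  · intro j
    have h1 := Real.cos_sq_le_one (t j)
    have h2 : (2 * s * Real.cos (t j)) ^ 2 = 4 * q * Real.cos (t j) ^ 2 := by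
      rw [← hs2]; ring
    rw [h2]
    nlinarith
  · -- divisibility
    have hdvd : ∀ j : Fin g, quad (q : ℝ) (2 * s * Real.cos (t j)) ∣
        P.map (Int.castRingHom ℝ) := by
      intro j
      rw [← Polynomial.map_dvd_map' (algebraMap ℝ ℂ)]
      rw [Polynomial.map_map]
      have hcomp : (algebraMap ℝ ℂ).comp (Int.castRingHom ℝ) = Int.castRingHom ℂ :=
        RingHom.ext_int _ _
      rw [hcomp]
      set z : ℂ := (s : ℂ) * Complex.exp ((t j : ℝ) * Complex.I) with hz
      set w : ℂ := (s : ℂ) * Complex.exp (((-t j : ℝ)) * Complex.I) with hw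
      have hsum : z + w = ((2 * s * Real.cos (t j) : ℝ) : ℂ) := by
        rw [hz, hw]
        push_cast
        rw [← mul_add, mul_comm 2 (s : ℂ), mul_assoc]
        congr 1
        rw [Complex.two_cos]
      have hprod : z * w = ((q : ℝ) : ℂ) := by
        rw [hz, hw, ← hs2]
        have : Complex.exp ((t j : ℝ) * Complex.I) * Complex.exp (((-t j : ℝ)) * Complex.I) = 1 := by
          rw [← Complex.exp_add]
          push_cast
          rw [neg_mul, add_neg_cancel, Complex.exp_zero]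
        push_cast at this ⊢
        linear_combination (s : ℂ) ^ 2 * this
      have hquad : (quad (q : ℝ) (2 * s * Real.cos (t j))).map (algebraMap ℝ ℂ) =
          (X - C z) * (X - C w) := by
        have h1 : ∀ u v : ℂ, (X - C u) * (X - C v) = X ^ 2 - C (u + v) * X + C (u * v) := by
          intro u v
          rw [C_add, C_mul]; ring
        rw [h1, hsum, hprod]
        simp [quad]
      have hne : z ≠ w := by
        intro h
        have h2 : z.im = w.im := by rw [h]
        rw [hz, hw] at h2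
        rw [Complex.im_ofReal_mul, Complex.im_ofReal_mul, Complex.exp_ofReal_mul_I_im,
          Complex.exp_ofReal_mul_I_im, Real.sin_neg] at h2
        have h3 : 0 < Real.sin (t j) := Real.sin_pos_of_pos_of_lt_pi (htpos j) (htlt j)
        nlinarith
      rw [hquad]
      refine IsCoprime.mul_dvd ?_ ?_ ?_
      · exact Polynomial.isCoprime_X_sub_C_of_isUnit_sub (isUnit_iff_ne_zero.2 (sub_ne_zero.2 hne))
      · rw [Polynomial.dvd_iff_isRoot, Polynomial.IsRoot.def, hz, eval_eq P g s (t j) hd hsym]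
        have : sf (fun m => (P.coeff m : ℝ) * s ^ m) g (t j) = 0 := ht3 j
        rw [this]; simp
      · rw [Polynomial.dvd_iff_isRoot, Polynomial.IsRoot.def, hw, eval_eq P g s (-t j) hd hsym]
        have : sf (fun m => (P.coeff m : ℝ) * s ^ m) g (t j) = 0 := ht3 j
        rw [sf_neg, this]; simp
    have hprod : (∏ j : Fin g, quad (q : ℝ) (2 * s * Real.cos (t j))) ∣
        P.map (Int.castRingHom ℝ) := by
      refine Finset.prod_dvd_of_coprime ?_ (fun j _ => hdvd j)
      intro i _ j _ hij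
      refine small_coprime hq'.ne' ?_
      intro h
      refine hcosne i j hij ?_
      have h2 : (2 * s) ≠ 0 := by positivity
      exact mul_left_cancel₀ h2 h
    refine Polynomial.eq_of_monic_of_dvd_of_natDegree_le (prod_quad_monic _ _) (hm.map _) hprod ?_
    rw [prod_quad_natDegree, hm.natDegree_map, hd]

end Pool.Agent.Helper71.AA
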