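import Pool.Agent.Helper71.AA.Cnt1
import Pool.Agent.Helper71.AA.Poly
import Pool.Agent.Helper71.AA.Small

/-!
# There are many ordinary Weil polynomials (block AA-CNT4)
-/

set_option autoImplicit false

namespace Pool.Agent.Helper71.AA

open Polynomial

private lemma exists_set (p : ℕ) (hp : p.Prime) (t : ℝ) (ht : 2 ≤ t) :
    ∃ A : Finset ℤ, (∀ x ∈ A, |(x : ℝ)| ≤ t ∧ ¬ (p : ℤ) ∣ x) ∧ t / 4 ≤ (A.card : ℝ) := by
  classical
  set n := ⌊t⌋₊ with hn
  have hn2 : 2 ≤ n := Nat.le_floor (by exact_mod_cast ht)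
  have hnt : (n : ℝ) ≤ t := Nat.floor_le (by linarith)
  have hnt' : t < n + 1 := Nat.lt_floor_add_one t
  let f : ℕ → ℤ := fun m => if (p : ℤ) ∣ 2 * (m : ℤ) + 1 then 2 * (m : ℤ) + 2 else 2 * (m : ℤ) + 1
  have hf : ∀ m, f m = 2 * (m : ℤ) + 2 ∨ f m = 2 * (m : ℤ) + 1 := by
    intro m
    simp only [f]
    split_ifs
    · exact Or.inl rfl
    · exact Or.inr rfl
  have hinj : Function.Injective f := by
    intro a b hab
    rcases hf a with h1 | h1 <;> rcases hf b with h2 | h2 <;> rw [h1, h2] at hab <;> omega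
  refine ⟨(Finset.range (n / 2)).image f, ?_, ?_⟩
  · intro x hx
    obtain ⟨m, hm, rfl⟩ := Finset.mem_image.mp hx
    rw [Finset.mem_range] at hm
    constructor
    · have h1 : (0:ℤ) ≤ f m ∧ f m ≤ n := by
        rcases hf m with h | h <;> rw [h] <;> omega
      have h2 : (0:ℝ) ≤ (f m : ℝ) := by exact_mod_cast h1.1
      have h3 : (f m : ℝ) ≤ n := by exact_mod_cast h1.2
      rw [abs_of_nonneg h2]
      linarith
    · simp only [f]
      split_ifs with h
      · intro h'
        have h4 : (p : ℤ) ∣ (2 * (m : ℤ) + 2) - (2 * (m : ℤ) + 1) := dvd_sub h' h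
        have h5 : (p : ℤ) ∣ 1 := by
          have e : (2 * (m : ℤ) + 2) - (2 * (m : ℤ) + 1) = 1 := by ring
          rwa [e] at h4
        have h6 : p ∣ 1 := by exact_mod_cast h5
        exact hp.one_lt.ne' (Nat.dvd_one.mp h6)
      · exact h
  · rw [Finset.card_image_of_injective _ hinj, Finset.card_range]
    have h1 : n + 1 ≤ 4 * (n / 2) := by omega
    have h2 : ((n : ℝ) + 1) ≤ 4 * ((n / 2 : ℕ) : ℝ) := by exact_mod_cast h1
    linarith

/-- the product of `g` copies of `X² - X + q` -/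
private lemma ordinary_exists (q g : ℕ) (hq : 0 < q) :
    IsOrdinary q g (∏ _j : Fin g, quad (q : ℤ) 1) := by
  constructor
  · refine ⟨fun _ => 1, fun j => ?_, ?_⟩
    · have : (1:ℝ) ≤ q := by exact_mod_cast hq
      linarith
    · rw [Polynomial.map_prod]
      refine Finset.prod_congr rfl fun j _ => ?_
      simp [quad]
  · have h1 : ((∏ _j : Fin g, quad (q : ℤ) 1).map (Int.castRingHom (ZMod q)))
        = X ^ g * (X - 1) ^ g := by
      rw [Polynomial.map_prod]
      have h2 : ∀ j : Fin g, (quad (q : ℤ) 1).map (Int.castRingHom (ZMod q))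
          = (X : (ZMod q)[X]) * (X - 1) := by
        intro j
        have h0 : (C (q : ℤ) : ℤ[X]).map (Int.castRingHom (ZMod q)) = 0 := by
          rw [Polynomial.map_C]
          simp
        rw [quad, Polynomial.map_add, h0]
        simp only [Polynomial.map_sub, Polynomial.map_mul, Polynomial.map_pow,
          Polynomial.map_X, map_one, Polynomial.map_one, add_zero]
        ring
      rw [Finset.prod_congr rfl fun j _ => h2 j, Finset.prod_const, Finset.card_univ, Fintype.card_fin,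
        mul_pow]
    have h3 : (((∏ _j : Fin g, quad (q : ℤ) 1).coeff g : ℤ) : ZMod q) = (-1) ^ g := by
      have h4 := congrArg (fun P => P.coeff g) h1
      simp only [coeff_map, eq_intCast] at h4
      rw [h4]
      have h5 : (X ^ g * (X - 1) ^ g : (ZMod q)[X]).coeff g = ((X - 1) ^ g : (ZMod q)[X]).coeff 0 := by
        have := coeff_X_pow_mul ((X - 1) ^ g : (ZMod q)[X]) g 0
        rwa [zero_add] at this
      rw [h5, coeff_zero_eq_eval_zero]
      simp
    refine IsCoprime.symm ?_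
    rw [← ZMod.coe_int_isUnit_iff_isCoprime, h3]
    exact (isUnit_one.neg).pow g

theorem ordinary_lower (g : ℕ) (hg : 0 < g) : ∃ c : ℝ, 0 < c ∧ ∀ q : ℕ, IsPrimePow q →
    c * √(q : ℝ) ^ E g ≤ ({P : ℤ[X] | IsOrdinary q g P}.ncard : ℝ) := by
  classical
  have hg' : (0:ℝ) < g := by exact_mod_cast hg
  set c1 : ℝ := ((4 * (g:ℝ)) ^ E g)⁻¹ with hc1
  set c2 : ℝ := ((8 * (g:ℝ)) ^ g)⁻¹ with hc2
  have hc1p : 0 < c1 := by positivity
  have hc2p : 0 < c2 := by positivity
  refine ⟨min c1 c2, lt_min hc1p hc2p, fun q hq => ?_⟩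
  have hq0 : 0 < q := hq.pos
  have hfin : {P : ℤ[X] | IsOrdinary q g P}.Finite := (weil_finite q g).subset fun P hP => hP.1
  have hs1 : 1 ≤ √(q : ℝ) := by
    rw [Real.one_le_sqrt]
    exact_mod_cast hq0
  set s := √(q : ℝ) with hs
  have hs0 : 0 < s := by linarith
  by_cases hsmall : s < 4 * g
  · have h1 : 1 ≤ {P : ℤ[X] | IsOrdinary q g P}.ncard :=
      (Set.ncard_pos hfin).mpr ⟨_, ordinary_exists q g hq0⟩
    have h2 : (1:ℝ) ≤ ({P : ℤ[X] | IsOrdinary q g P}.ncard : ℝ) := by exact_mod_cast h1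
    have h3 : s ^ E g ≤ (4 * (g:ℝ)) ^ E g := pow_le_pow_left₀ hs0.le hsmall.le _
    have h4 : min c1 c2 * s ^ E g ≤ c1 * (4 * (g:ℝ)) ^ E g :=
      mul_le_mul (min_le_left _ _) h3 (by positivity) hc1p.le
    have h5 : c1 * (4 * (g:ℝ)) ^ E g = 1 := by
      rw [hc1]
      exact inv_mul_cancel₀ (by positivity)
    linarith
  · push Not at hsmall
    obtain ⟨p, k, hp, hk, hpk⟩ := hq
    have hp' : p.Prime := hp.nat_prime
    -- the sets of coefficients
    have ht : ∀ i : Fin g, 2 ≤ s ^ ((i : ℕ) + 1) / (2 * g) := by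
      intro i
      rw [le_div_iff₀ (by positivity)]
      have h1 : s ≤ s ^ ((i : ℕ) + 1) := le_self_pow₀ hs1 (Nat.succ_ne_zero _)
      linarith
    choose A hA1 hA2 using fun i : Fin g => exists_set p hp' _ (ht i)
    choose Q hQm hQd hQs hQa using fun a : Fin g → ℤ => exists_poly q g a
    have hinj : Set.InjOn Q ((Fintype.piFinset A : Finset (Fin g → ℤ)) : Set (Fin g → ℤ)) := by
      intro a _ b _ hab
      funext i
      rw [← hQa a i, ← hQa b i, hab]
    have hsub : Q '' ((Fintype.piFinset A : Finset (Fin g → ℤ)) : Set (Fin g → ℤ))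
        ⊆ {P : ℤ[X] | IsOrdinary q g P} := by
      rintro _ ⟨a, ha, rfl⟩
      rw [Finset.mem_coe, Fintype.mem_piFinset] at ha
      refine ⟨isWeil_of_small hq0 hg (hQm a) (hQd a) (hQs a) ?_, ?_⟩
      · intro i hi
        have := (hA1 ⟨i, hi⟩ _ (ha ⟨i, hi⟩)).1
        have h2 := hQa a ⟨i, hi⟩
        simp only at h2
        rw [h2]
        exact this
      · have h1 := hQa a ⟨g - 1, by omega⟩
        have h2 := (hA1 ⟨g - 1, by omega⟩ _ (ha ⟨g - 1, by omega⟩)).2
        simp only at h1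
        have h3 : 2 * g - 1 - (g - 1) = g := by omega
        rw [h3] at h1
        rw [h1, ← hpk]
        push_cast
        refine IsCoprime.pow_right ?_
        exact (((Nat.prime_iff_prime_int.mp hp').coprime_iff_not_dvd).mpr h2).symm
    have hcard : ((Fintype.piFinset A).card : ℝ) ≤ ({P : ℤ[X] | IsOrdinary q g P}.ncard : ℝ) := by
      have h1 := Set.ncard_le_ncard hsub hfin
      rw [hinj.ncard_image, Set.ncard_coe_finset] at h1
      exact_mod_cast h1
    have hprod : c2 * s ^ E g ≤ ((Fintype.piFinset A).card : ℝ) := by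
      rw [Fintype.card_piFinset]
      push_cast
      have h1 : ∏ i : Fin g, (s ^ ((i : ℕ) + 1) / (2 * g) / 4) ≤ ∏ i : Fin g, ((A i).card : ℝ) :=
        Finset.prod_le_prod (fun i _ => by positivity) fun i _ => hA2 i
      have h2 : ∏ i : Fin g, (s ^ ((i : ℕ) + 1) / (2 * g) / 4) = c2 * s ^ E g := by
        have h3 : ∀ i : Fin g, s ^ ((i : ℕ) + 1) / (2 * g) / 4 = (8 * (g:ℝ))⁻¹ * s ^ ((i : ℕ) + 1) := by
          intro i
          field_simp
          ring
        rw [Finset.prod_congr rfl fun i _ => h3 i, Finset.prod_mul_distrib, Finset.prod_const,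
          Finset.card_univ, Fintype.card_fin, prod_pow_eq, hc2, inv_pow]
      rw [← h2]
      exact h1
    have h6 : min c1 c2 * s ^ E g ≤ c2 * s ^ E g :=
      mul_le_mul_of_nonneg_right (min_le_right _ _) (by positivity)
    linarith

end Pool.Agent.Helper71.AA
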