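import Mathlib

/-!
# Weil polynomials and the Galois coniveau of powers (definitions, project AA)
-/

set_option autoImplicit false

namespace Pool.Agent.Helper71.AA

open Module Polynomial

/-- The quadratic polynomial `X² - x X + q`. -/
noncomputable def quad {R : Type*} [CommRing R] (q x : R) : R[X] := X ^ 2 - C x * X + C q

/-- `P` is a `q`-Weil polynomial of degree `2g`: an integer polynomial which over `ℝ` is the
product of `g` polynomials `X² - x X + q` with real `x`, `|x| ≤ 2 √q`.  Equivalently `P` is monic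
of degree `2g`, its complex roots have absolute value `√q` and its real roots have even
multiplicity.  By Weil the characteristic polynomial of Frobenius of an abelian variety of
dimension `g` over `𝔽_q` is such a polynomial. -/
def IsWeil (q g : ℕ) (P : ℤ[X]) : Prop :=
  ∃ x : Fin g → ℝ, (∀ j, x j ^ 2 ≤ 4 * q) ∧
    P.map (Int.castRingHom ℝ) = ∏ j, quad (q : ℝ) (x j)

/-- The polynomial is ordinary: its middle coefficient is prime to `q`.  By Honda, Tate and
Howe the ordinary `q`-Weil polynomials of degree `2g`, `q` a prime power, correspond to the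
isogeny classes of ordinary abelian varieties of dimension `g` over `𝔽_q`. -/
def IsOrdinary (q g : ℕ) (P : ℤ[X]) : Prop :=
  IsWeil q g P ∧ IsCoprime (P.coeff g) (q : ℤ)

section Coniveau

variable {W : Type*} [AddCommGroup W] [Module ℂ W]

/-- `M ⊆ Λⁱ W` is a subrepresentation such that `M(ν)` is effective of weight `i - 2ν`:
`M` is stable under the algebra map induced by `Φ`, and for every eigenvalue `β` of it on
`M` both `β / q ^ ν` and `q ^ (i - ν) / β = q ^ (i - 2ν) / (β / q ^ ν)` are algebraic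
integers. -/
structure IsEffective (q : ℕ) (Φ : W →ₗ[ℂ] W) (i ν : ℕ)
    (M : Submodule ℂ (ExteriorAlgebra ℂ W)) : Prop where
  le : M ≤ ⋀[ℂ]^i W
  stable : ∀ x ∈ M, ExteriorAlgebra.map Φ x ∈ M
  integral : ∀ x ∈ M, x ≠ 0 → ∀ β : ℂ, ExteriorAlgebra.map Φ x = β • x →
    IsIntegral ℤ (β / (q : ℂ) ^ ν) ∧ IsIntegral ℤ ((q : ℂ) ^ (i - ν) / β)

/-- The Galois coniveau: the span of all subrepresentations `M` of `Λⁱ W` such that `M(ν)` is
effective of weight `i - 2ν`. -/
noncomputable def galoisConiveau (q : ℕ) (Φ : W →ₗ[ℂ] W) (i ν : ℕ) :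
    Submodule ℂ (ExteriorAlgebra ℂ W) :=
  sSup {M | IsEffective q Φ i ν M}

/-- A Tate class of degree two: for some `m > 0` the `m`-th power of the Frobenius
multiplies it by `q ^ m`. -/
def IsDivisorClass (q : ℕ) (Φ : Module.End ℂ W) (d : ExteriorAlgebra ℂ W) : Prop :=
  d ∈ ⋀[ℂ]^2 W ∧ ∃ m : ℕ, 0 < m ∧ ExteriorAlgebra.map (Φ ^ m) d = (q : ℂ) ^ m • d

/-- The span of all products `d₁ ⋯ d_ν w` with divisor classes `d_k` and
`w ∈ Λ^(i-2ν) W`. -/
noncomputable def divisorConiveau (q : ℕ) (Φ : Module.End ℂ W) (i ν : ℕ) :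
    Submodule ℂ (ExteriorAlgebra ℂ W) :=
  Submodule.span ℂ {x | ∃ (d : Fin ν → ExteriorAlgebra ℂ W) (w : ExteriorAlgebra ℂ W),
    (∀ k, IsDivisorClass q Φ (d k)) ∧ w ∈ ⋀[ℂ]^(i - 2 * ν) W ∧ x = (List.ofFn d).prod * w}

end Coniveau

/-- The Galois coniveau of the cohomology of every power `Aⁿ` is generated by divisor classes,
`A` an abelian variety with characteristic polynomial of Frobenius `P`: for the first cohomology
`V` of `A` with its (semisimple) Frobenius `F`, `Λ(Vⁿ)` is the cohomology of `Aⁿ`. -/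
def DivisorsSuffice (q : ℕ) (P : ℤ[X]) : Prop :=
  ∀ (V : Type) [AddCommGroup V] [Module ℂ V] [FiniteDimensional ℂ V] (F : Module.End ℂ V),
    F.IsSemisimple → F.charpoly = P.map (Int.castRingHom ℂ) →
    ∀ n i ν : ℕ, 2 * ν ≤ i →
      galoisConiveau q (F.compLeft (Fin n)) i ν = divisorConiveau q (F.compLeft (Fin n)) i ν

/-- The polynomial is a product of two Weil polynomials of smaller degree. -/
def IsSplit (q g : ℕ) (P : ℤ[X]) : Prop :=
  ∃ k, 0 < k ∧ k < g ∧ ∃ P₁ P₂ : ℤ[X], IsWeil q k P₁ ∧ IsWeil q (g - k) P₂ ∧ P = P₁ * P₂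

/-- The tuple `x` of traces modulo a prime is of swap type: the `x j` are different, and exactly
one `x j ^ 2 - 4 q` is not a square, the others are nonzero squares. -/
def IsSwapType (q ℓ : ℕ) {g : ℕ} (x : Fin g → ZMod ℓ) (j₀ : Fin g) : Prop :=
  Function.Injective x ∧ ¬ IsSquare (x j₀ ^ 2 - 4 * (q : ZMod ℓ)) ∧
    ∀ j, j ≠ j₀ → x j ^ 2 - 4 * (q : ZMod ℓ) ≠ 0 ∧ IsSquare (x j ^ 2 - 4 * (q : ZMod ℓ))

/-- The vectors of upper coefficients of the polynomials of swap type modulo `ℓ`. -/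
def swapSet (q g ℓ : ℕ) : Set (Fin g → ZMod ℓ) :=
  {v | ∃ (x : Fin g → ZMod ℓ) (j₀ : Fin g), IsSwapType q ℓ x j₀ ∧
    ∀ i : Fin g, v i = (∏ j, quad (q : ZMod ℓ) (x j)).coeff (2 * g - 1 - i)}

end Pool.Agent.Helper71.AA
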