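import Pool.Agent.Helper71.AA.Pal

/-!
# A positive proportion of the vectors modulo `ℓ` is of swap type (block AA-LOC)
-/

set_option autoImplicit false

namespace Pool.Agent.Helper71.AA

open Polynomial

/-- The tuple is determined up to its indices by the product of the quadratic polynomials. -/
private lemma loc40_range {F : Type*} [Field F] {q : F} (hq : q ≠ 0) {g : ℕ} {x x' : Fin g → F}
    (h : ∏ j, quad q (x j) = ∏ j, quad q (x' j)) (j : Fin g) : ∃ k, x j = x' k := by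
  classical
  let K := AlgebraicClosure F
  have hdeg : ((quad q (x j)).map (algebraMap F K)).degree ≠ 0 := by
    rw [degree_map]
    rw [degree_eq_natDegree (quad_monic q (x j)).ne_zero, quad_natDegree]
    decide
  obtain ⟨z, hz⟩ := IsAlgClosed.exists_root _ hdeg
  have hz1 : z ^ 2 - algebraMap F K (x j) * z + algebraMap F K q = 0 := by
    have := hz
    rw [IsRoot.def, eval_map] at this
    simpa [quad, eval₂_add, eval₂_sub, eval₂_mul, eval₂_pow] using this
  have hz0 : z ≠ 0 := by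
    rintro rfl
    apply hq
    have : algebraMap F K q = 0 := by simpa using hz1
    exact (map_eq_zero _).1 this
  have h1 : (∏ k, (quad q (x' k)).map (algebraMap F K)).eval z = 0 := by
    rw [← Polynomial.map_prod, ← h, Polynomial.map_prod, eval_prod]
    exact Finset.prod_eq_zero (Finset.mem_univ j) hz
  rw [eval_prod, Finset.prod_eq_zero_iff] at h1
  obtain ⟨k, -, hk⟩ := h1
  refine ⟨k, ?_⟩
  have hz2 : z ^ 2 - algebraMap F K (x' k) * z + algebraMap F K q = 0 := by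
    rw [eval_map] at hk
    simpa [quad, eval₂_add, eval₂_sub, eval₂_mul, eval₂_pow] using hk
  have h2 : (algebraMap F K (x j) - algebraMap F K (x' k)) * z = 0 := by linear_combination hz2 - hz1
  rcases mul_eq_zero.1 h2 with h3 | h3
  · exact (algebraMap F K).injective (sub_eq_zero.1 h3)
  · exact absurd h3 hz0

/-- Solutions of `y² = x² - 4q`. -/
private lemma loc40_card {ℓ : ℕ} [Fact ℓ.Prime] (h2 : (2 : ZMod ℓ) ≠ 0) {q : ZMod ℓ} (hq : q ≠ 0) :
    Fintype.card {p : ZMod ℓ × ZMod ℓ // p.2 ^ 2 = p.1 ^ 2 - 4 * q} = ℓ - 1 := by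
  classical
  rw [← ZMod.card_units ℓ]
  refine Fintype.card_congr ?_
  refine
    { toFun := fun p => Units.mk0 (p.1.1 - p.1.2) ?_
      invFun := fun u => ⟨(((u : ZMod ℓ) + 4 * q * (u : ZMod ℓ)⁻¹) / 2,
        (4 * q * (u : ZMod ℓ)⁻¹ - (u : ZMod ℓ)) / 2), ?_⟩
      left_inv := ?_
      right_inv := ?_ }
  · intro h0
    have h1 := p.2
    have h3 : 4 * q = 0 := by
      have : (p.1.1 - p.1.2) * (p.1.1 + p.1.2) = 4 * q := by linear_combination - h1
      rw [← this, h0, zero_mul]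
    have h4 : (4 : ZMod ℓ) ≠ 0 := by
      have : (4 : ZMod ℓ) = 2 * 2 := by norm_num
      rw [this]; exact mul_ne_zero h2 h2
    exact (mul_ne_zero h4 hq) h3
  · have hu : (u : ZMod ℓ) ≠ 0 := u.ne_zero
    show ((4 * q * (u : ZMod ℓ)⁻¹ - (u : ZMod ℓ)) / 2) ^ 2 =
      (((u : ZMod ℓ) + 4 * q * (u : ZMod ℓ)⁻¹) / 2) ^ 2 - 4 * q
    field_simp
    ring
  · rintro ⟨⟨x, y⟩, hxy⟩
    have hxy' : y ^ 2 = x ^ 2 - 4 * q := hxy
    have hne : x - y ≠ 0 := by
      intro h0
      have h3 : 4 * q = 0 := by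
        have : (x - y) * (x + y) = 4 * q := by linear_combination - hxy'
        rw [← this, h0, zero_mul]
      have h4 : (4 : ZMod ℓ) ≠ 0 := by
        have : (4 : ZMod ℓ) = 2 * 2 := by norm_num
        rw [this]; exact mul_ne_zero h2 h2
      exact (mul_ne_zero h4 hq) h3
    have h5 : 4 * q * (x - y)⁻¹ = x + y := by
      rw [mul_inv_eq_iff_eq_mul₀ hne]
      linear_combination hxy'
    apply Subtype.ext
    apply Prod.ext
    · show ((x - y) + 4 * q * (x - y)⁻¹) / 2 = x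
      rw [h5]; field_simp; ring
    · show (4 * q * (x - y)⁻¹ - (x - y)) / 2 = y
      rw [h5]; field_simp; ring
  · intro u
    apply Units.ext
    show ((u : ZMod ℓ) + 4 * q * (u : ZMod ℓ)⁻¹) / 2 -
        (4 * q * (u : ZMod ℓ)⁻¹ - (u : ZMod ℓ)) / 2 = (u : ZMod ℓ)
    field_simp
    ring

private lemma loc40_counts {ℓ : ℕ} [Fact ℓ.Prime] (h2 : (2 : ZMod ℓ) ≠ 0) {q : ZMod ℓ}
    (hq : q ≠ 0) :
    ℓ ≤ 2 * Nat.card {x : ZMod ℓ // ¬ IsSquare (x ^ 2 - 4 * q)} + 1 ∧
    ℓ ≤ 2 * Nat.card {x : ZMod ℓ // x ^ 2 - 4 * q ≠ 0 ∧ IsSquare (x ^ 2 - 4 * q)} + 3 := by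
  classical
  have hp : ℓ.Prime := Fact.out
  have hS := loc40_card h2 hq
  have hchar : ringChar (ZMod ℓ) ≠ 2 := by
    rw [ZMod.ringChar_zmod_n]
    intro h
    apply h2
    have h3 : ((2 : ℕ) : ZMod ℓ) = 0 := (ZMod.natCast_eq_zero_iff 2 ℓ).2 (h ▸ dvd_rfl)
    exact_mod_cast h3
  have e1 : Fintype.card {p : ZMod ℓ × ZMod ℓ // p.2 ^ 2 = p.1 ^ 2 - 4 * q} =
      ∑ x : ZMod ℓ, (Finset.univ.filter (fun y : ZMod ℓ => y ^ 2 = x ^ 2 - 4 * q)).card := by
    rw [Fintype.card_subtype, ← Finset.univ_product_univ, Finset.card_filter,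
      Finset.sum_product]
    refine Finset.sum_congr rfl (fun x _ => ?_)
    rw [Finset.card_filter]
  have e2 : ∀ x : ZMod ℓ, (Finset.univ.filter (fun y : ZMod ℓ => y ^ 2 = x ^ 2 - 4 * q)).card =
      (if x ^ 2 - 4 * q = 0 then 1 else 0) +
      2 * (if x ^ 2 - 4 * q ≠ 0 ∧ IsSquare (x ^ 2 - 4 * q) then 1 else 0) := by
    intro x
    have h3 := quadraticChar_card_sqrts hchar (x ^ 2 - 4 * q)
    have h4 : ({y : ZMod ℓ | y ^ 2 = x ^ 2 - 4 * q} : Set (ZMod ℓ)).toFinset =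
        Finset.univ.filter (fun y : ZMod ℓ => y ^ 2 = x ^ 2 - 4 * q) := by
      ext y; simp
    rw [h4] at h3
    by_cases h0 : x ^ 2 - 4 * q = 0
    · rw [quadraticChar_eq_zero_iff.2 h0] at h3
      have : (Finset.univ.filter (fun y : ZMod ℓ => y ^ 2 = x ^ 2 - 4 * q)).card = 1 := by
        exact_mod_cast h3
      rw [this]; simp [h0]
    · by_cases hs : IsSquare (x ^ 2 - 4 * q)
      · rw [(quadraticChar_one_iff_isSquare h0).2 hs] at h3
        have : (Finset.univ.filter (fun y : ZMod ℓ => y ^ 2 = x ^ 2 - 4 * q)).card = 2 := by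
          exact_mod_cast h3
        rw [this]; simp [h0, hs]
      · rw [quadraticChar_neg_one_iff_not_isSquare.2 hs] at h3
        have : (Finset.univ.filter (fun y : ZMod ℓ => y ^ 2 = x ^ 2 - 4 * q)).card = 0 := by
          have : ((Finset.univ.filter (fun y : ZMod ℓ => y ^ 2 = x ^ 2 - 4 * q)).card : ℤ) = 0 := by
            rw [h3]; norm_num
          exact_mod_cast this
        rw [this]; simp [h0, hs]
  have e3 : ∑ x : ZMod ℓ, (Finset.univ.filter (fun y : ZMod ℓ => y ^ 2 = x ^ 2 - 4 * q)).card =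
      (Finset.univ.filter (fun x : ZMod ℓ => x ^ 2 - 4 * q = 0)).card +
      2 * (Finset.univ.filter (fun x : ZMod ℓ => x ^ 2 - 4 * q ≠ 0 ∧
        IsSquare (x ^ 2 - 4 * q))).card := by
    rw [Finset.sum_congr rfl (fun x _ => e2 x), Finset.sum_add_distrib, ← Finset.mul_sum,
      Finset.card_filter, Finset.card_filter]
  have e4 : (Finset.univ.filter (fun x : ZMod ℓ => x ^ 2 - 4 * q = 0)).card ≤ 2 := by
    have h3 : (Finset.univ.filter (fun x : ZMod ℓ => x ^ 2 - 4 * q = 0)) ⊆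
        (X ^ 2 - C (4 * q) : (ZMod ℓ)[X]).roots.toFinset := by
      intro x hx
      rw [Finset.mem_filter] at hx
      rw [Multiset.mem_toFinset, mem_roots (X_pow_sub_C_ne_zero (by norm_num) _)]
      simpa using hx.2
    refine (Finset.card_le_card h3).trans ((Multiset.toFinset_card_le _).trans ?_)
    refine (card_roots' _).trans ?_
    rw [natDegree_X_pow_sub_C]
  have e5 : (Finset.univ.filter (fun x : ZMod ℓ => x ^ 2 - 4 * q = 0)).card +
      (Finset.univ.filter (fun x : ZMod ℓ => x ^ 2 - 4 * q ≠ 0 ∧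
        IsSquare (x ^ 2 - 4 * q))).card +
      (Finset.univ.filter (fun x : ZMod ℓ => ¬ IsSquare (x ^ 2 - 4 * q))).card = ℓ := by
    have h3 : ∑ x : ZMod ℓ, (1 : ℕ) = ℓ := by simp [ZMod.card]
    rw [Finset.card_filter, Finset.card_filter, Finset.card_filter, ← Finset.sum_add_distrib,
      ← Finset.sum_add_distrib]
    refine Eq.trans (Finset.sum_congr rfl (fun x _ => ?_)) h3
    by_cases h0 : x ^ 2 - 4 * q = 0
    · simp [h0]
    · by_cases hs : IsSquare (x ^ 2 - 4 * q)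
      · simp [h0, hs]
      · simp [h0, hs]
  rw [e1, e3] at hS
  rw [Nat.card_eq_fintype_card, Nat.card_eq_fintype_card, Fintype.card_subtype,
    Fintype.card_subtype]
  have := hp.two_le
  omega

theorem card_swapSet (g : ℕ) (hg : 0 < g) :
    ∃ c : ℝ, 0 < c ∧ ∃ ℓ₀ : ℕ, ∀ ℓ : ℕ, ℓ.Prime → ℓ₀ ≤ ℓ → ∀ q : ℕ, ¬ ℓ ∣ q →
      c * (ℓ : ℝ) ^ g ≤ Nat.card (swapSet q g ℓ) := by
  classical
  obtain ⟨n, rfl⟩ : ∃ n, g = n + 1 := ⟨g - 1, by omega⟩
  refine ⟨1 / (4 ^ (n + 1) * ((n + 1 : ℕ) : ℝ) ^ (n + 1)), by positivity, 4 * (n + 2),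
    fun ℓ hℓ hle q hq => ?_⟩
  haveI : Fact ℓ.Prime := ⟨hℓ⟩
  have hqR : (q : ZMod ℓ) ≠ 0 := by
    rwa [Ne, ZMod.natCast_eq_zero_iff]
  have h2 : (2 : ZMod ℓ) ≠ 0 := by
    have : ((2 : ℕ) : ZMod ℓ) ≠ 0 := by
      rw [Ne, ZMod.natCast_eq_zero_iff]
      intro h
      have := Nat.le_of_dvd (by norm_num) h
      omega
    exact_mod_cast this
  obtain ⟨hm, hp⟩ := loc40_counts h2 hqR
  set Nm := {x : ZMod ℓ // ¬ IsSquare (x ^ 2 - 4 * (q : ZMod ℓ))} with hNm
  set Np := {x : ZMod ℓ // x ^ 2 - 4 * (q : ZMod ℓ) ≠ 0 ∧ IsSquare (x ^ 2 - 4 * (q : ZMod ℓ))}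
    with hNp
  replace hm : ℓ ≤ 2 * Fintype.card Nm + 1 := by
    rw [← Nat.card_eq_fintype_card]; exact hm
  replace hp : ℓ ≤ 2 * Fintype.card Np + 3 := by
    rw [← Nat.card_eq_fintype_card]; exact hp
  let T := Nm × (Fin n ↪ Np)
  let tup : T → (Fin (n + 1) → ZMod ℓ) := fun t => Fin.cons t.1.1 (fun j => (t.2 j).1)
  have htup_inj : Function.Injective tup := by
    intro t t' h
    have h0 : t.1.1 = t'.1.1 := by simpa [tup] using congrFun h 0
    have h1 : ∀ j, (t.2 j).1 = (t'.2 j).1 := by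
      intro j
      simpa [tup] using congrFun h j.succ
    refine Prod.ext (Subtype.ext h0) ?_
    ext j
    exact h1 j
  have hswap : ∀ t : T, IsSwapType q ℓ (tup t) 0 := by
    intro t
    refine ⟨?_, ?_, ?_⟩
    · intro a b hab
      refine Fin.cases ?_ ?_ a b hab <;> clear hab a b
      · intro b hb
        revert hb
        refine Fin.cases (fun _ => rfl) (fun b hb => ?_) b
        exfalso
        have h3 : t.1.1 = (t.2 b).1 := by simpa [tup] using hb
        apply t.1.2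
        rw [h3]
        exact (t.2 b).2.2
      · intro a b hb
        revert hb
        refine Fin.cases (fun hb => ?_) (fun b hb => ?_) b
        · exfalso
          have h3 : (t.2 a).1 = t.1.1 := by simpa [tup] using hb
          apply t.1.2
          rw [← h3]
          exact (t.2 a).2.2
        · have h3 : (t.2 a).1 = (t.2 b).1 := by simpa [tup] using hb
          rw [t.2.injective (Subtype.ext h3)]
    · simpa [tup] using t.1.2
    · intro j hj
      obtain ⟨k, rfl⟩ := Fin.exists_succ_eq.2 hj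
      simpa [tup] using (t.2 k).2
  let vec : T → (Fin (n + 1) → ZMod ℓ) := fun t i =>
    (∏ j, quad (q : ZMod ℓ) (tup t j)).coeff (2 * (n + 1) - 1 - i)
  have hvec_mem : ∀ t, vec t ∈ swapSet q (n + 1) ℓ := fun t => ⟨tup t, 0, hswap t, fun i => rfl⟩
  have hfib : ∀ t t' : T, vec t = vec t' → ∃ σ : Fin (n + 1) → Fin (n + 1),
      tup t = tup t' ∘ σ := by
    intro t t' h
    have hpoly : ∏ j, quad (q : ZMod ℓ) (tup t j) = ∏ j, quad (q : ZMod ℓ) (tup t' j) := by
      refine eq_of_top (q := (q : ZMod ℓ)) (g := n + 1) (prod_quad_monic _ _)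
        (prod_quad_monic _ _) (prod_quad_natDegree _ _) (prod_quad_natDegree _ _)
        (fun m hm => prod_quad_coeff _ _ m hm) (fun m hm => prod_quad_coeff _ _ m hm) ?_
      intro i hi
      exact congrFun h ⟨i, hi⟩
    choose σ hσ using fun j => loc40_range hqR hpoly j
    exact ⟨σ, funext hσ⟩
  have hcard1 : (Finset.univ : Finset T).card ≤
      (n + 1) ^ (n + 1) * (Finset.univ.image vec).card := by
    refine Finset.card_le_mul_card_image _ _ (fun v hv => ?_)
    obtain ⟨t', -, rfl⟩ := Finset.mem_image.1 hv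
    have h3 : (Finset.univ.filter (fun t => vec t = vec t')).card ≤
        (Finset.univ.image (fun σ : Fin (n + 1) → Fin (n + 1) => tup t' ∘ σ)).card := by
      refine Finset.card_le_card_of_injOn tup ?_ (fun a _ b _ hab => htup_inj hab)
      intro t ht
      have ht' : vec t = vec t' := by simpa using ht
      obtain ⟨σ, hσ⟩ := hfib t t' ht'
      exact Finset.mem_coe.2 (Finset.mem_image.2 ⟨σ, Finset.mem_univ _, hσ.symm⟩)
    refine h3.trans (Finset.card_image_le.trans ?_)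
    simp
  have hcard2 : (Finset.univ.image vec).card ≤ Nat.card (swapSet q (n + 1) ℓ) := by
    rw [Nat.card_coe_set_eq, ← Set.ncard_coe_finset]
    refine Set.ncard_le_ncard ?_ (Set.toFinite _)
    intro v hv
    obtain ⟨t, -, rfl⟩ := Finset.mem_image.1 (Finset.mem_coe.1 hv)
    exact hvec_mem t
  have hcardT : (Finset.univ : Finset T).card = Fintype.card Nm * (Fintype.card Np).descFactorial n := by
    rw [Finset.card_univ, Fintype.card_prod, Fintype.card_embedding_eq, Fintype.card_fin]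
  have hdesc : (Fintype.card Np + 1 - n) ^ n ≤ (Fintype.card Np).descFactorial n :=
    Nat.pow_sub_le_descFactorial _ _
  have hb1 : ((ℓ : ℝ) / 4) ≤ Fintype.card Nm := by
    have h3 : (ℓ : ℝ) ≤ 2 * Fintype.card Nm + 1 := by exact_mod_cast hm
    have h4 : (4 * (n + 2) : ℝ) ≤ ℓ := by exact_mod_cast hle
    have h5 : (0 : ℝ) ≤ n := Nat.cast_nonneg n
    nlinarith
  have hb2 : ((ℓ : ℝ) / 4) ≤ ((Fintype.card Np + 1 - n : ℕ) : ℝ) := by
    have h3 : ℓ ≤ 4 * (Fintype.card Np + 1 - n) := by omega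
    have h4 : (ℓ : ℝ) ≤ 4 * ((Fintype.card Np + 1 - n : ℕ) : ℝ) := by exact_mod_cast h3
    linarith
  have hb3 : ((ℓ : ℝ) / 4) ^ (n + 1) ≤ ((Finset.univ : Finset T).card : ℝ) := by
    rw [hcardT, pow_succ']
    push_cast
    refine mul_le_mul hb1 ?_ (by positivity) (by positivity)
    refine (pow_le_pow_left₀ (by positivity) hb2 n).trans ?_
    exact_mod_cast hdesc
  have hb4 : ((Finset.univ : Finset T).card : ℝ) ≤
      ((n + 1 : ℕ) : ℝ) ^ (n + 1) * Nat.card (swapSet q (n + 1) ℓ) := by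
    have h3 := hcard1.trans (Nat.mul_le_mul_left _ hcard2)
    exact_mod_cast h3
  have hb5 := hb3.trans hb4
  rw [div_mul_eq_mul_div, one_mul, div_le_iff₀ (by positivity)]
  rw [div_pow, div_le_iff₀ (by positivity)] at hb5
  calc (ℓ : ℝ) ^ (n + 1) ≤ ((n + 1 : ℕ) : ℝ) ^ (n + 1) * Nat.card (swapSet q (n + 1) ℓ) *
        4 ^ (n + 1) := hb5
    _ = _ := by ring

end Pool.Agent.Helper71.AA
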