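import Pool.Agent.Helper71.AA.Box

/-!
# A second moment (Turán) sieve in a box (block AA-TUR)
-/

set_option autoImplicit false

namespace Pool.Agent.Helper71.AA

private lemma second63 {α κ : Type} (S : Finset α) (L : Finset κ) (hne : L.Nonempty)
    (f : κ → α → ℝ) (δ : κ → ℝ) (c ε : ℝ) (hc : 0 < c) (hε : 0 ≤ ε)
    (hf : ∀ l ∈ L, ∀ a ∈ S, f l a = 0 ∨ f l a = 1)
    (hδ : ∀ l ∈ L, c ≤ δ l ∧ δ l ≤ 1)
    (h1 : ∀ l ∈ L, |(∑ a ∈ S, f l a) - (S.card : ℝ) * δ l| ≤ (S.card : ℝ) * ε)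
    (h2 : ∀ l ∈ L, ∀ l' ∈ L, l ≠ l' →
      |(∑ a ∈ S, f l a * f l' a) - (S.card : ℝ) * (δ l * δ l')| ≤ (S.card : ℝ) * ε)
    (T : Finset α) (hT : T ⊆ S) (hT0 : ∀ a ∈ T, ∀ l ∈ L, f l a = 0) :
    (T.card : ℝ) ≤ (S.card : ℝ) * (1 / c ^ 2) * (1 / (L.card : ℝ) + 3 * ε) := by
  classical
  have hL : (0 : ℝ) < L.card := by exact_mod_cast hne.card_pos
  have hS : (0 : ℝ) ≤ S.card := Nat.cast_nonneg _
  -- the second moment
  have key : ∀ l ∈ L, ∀ l' ∈ L, ∑ a ∈ S, (f l a - δ l) * (f l' a - δ l') ≤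
      (S.card : ℝ) * (3 * ε) + (if l = l' then (S.card : ℝ) else 0) := by
    intro l hl l' hl'
    by_cases hll : l = l'
    · subst hll
      rw [if_pos rfl]
      have : ∑ a ∈ S, (f l a - δ l) * (f l a - δ l) ≤ ∑ a ∈ S, (1 : ℝ) := by
        apply Finset.sum_le_sum
        intro a ha
        have h0 := hδ l hl
        rcases hf l hl a ha with h | h <;> rw [h] <;> nlinarith [h0.1, h0.2]
      rw [Finset.sum_const, nsmul_eq_mul, mul_one] at this
      have h3 : 0 ≤ (S.card : ℝ) * (3 * ε) := by positivity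
      linarith
    · rw [if_neg hll, add_zero]
      have e : ∑ a ∈ S, (f l a - δ l) * (f l' a - δ l') =
          ((∑ a ∈ S, f l a * f l' a) - (S.card : ℝ) * (δ l * δ l'))
          - δ l * ((∑ a ∈ S, f l' a) - (S.card : ℝ) * δ l')
          - δ l' * ((∑ a ∈ S, f l a) - (S.card : ℝ) * δ l) := by
        have e1 : ∀ a ∈ S, (f l a - δ l) * (f l' a - δ l') =
            f l a * f l' a - δ l * f l' a - δ l' * f l a + δ l * δ l' := fun a _ => by ring
        rw [Finset.sum_congr rfl e1, Finset.sum_add_distrib, Finset.sum_sub_distrib,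
          Finset.sum_sub_distrib, ← Finset.mul_sum, ← Finset.mul_sum, Finset.sum_const,
          nsmul_eq_mul]
        ring
      rw [e]
      have a1 := h2 l hl l' hl' hll
      have a2 := h1 l hl
      have a3 := h1 l' hl'
      have d1 := hδ l hl
      have d2 := hδ l' hl'
      rw [abs_le] at a1 a2 a3
      have hd1 : 0 ≤ δ l := by linarith
      have hd2 : 0 ≤ δ l' := by linarith
      have hSε : 0 ≤ (S.card : ℝ) * ε := by positivity
      have b1 : -(δ l * ((∑ a ∈ S, f l' a) - (S.card : ℝ) * δ l')) ≤ (S.card : ℝ) * ε := by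
        have := mul_le_mul_of_nonneg_left a3.1 hd1
        nlinarith
      have b2 : -(δ l' * ((∑ a ∈ S, f l a) - (S.card : ℝ) * δ l)) ≤ (S.card : ℝ) * ε := by
        have := mul_le_mul_of_nonneg_left a2.1 hd2
        nlinarith
      linarith [a1.2]
  have hsum : ∑ a ∈ S, (∑ l ∈ L, (f l a - δ l)) ^ 2 ≤
      (S.card : ℝ) * (3 * ε) * (L.card : ℝ) ^ 2 + (S.card : ℝ) * L.card := by
    have e : ∑ a ∈ S, (∑ l ∈ L, (f l a - δ l)) ^ 2 =
        ∑ l ∈ L, ∑ l' ∈ L, ∑ a ∈ S, (f l a - δ l) * (f l' a - δ l') := by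
      have e1 : ∀ a ∈ S, (∑ l ∈ L, (f l a - δ l)) ^ 2 =
          ∑ l ∈ L, ∑ l' ∈ L, (f l a - δ l) * (f l' a - δ l') := by
        intro a _
        rw [sq, Finset.sum_mul_sum]
      rw [Finset.sum_congr rfl e1, Finset.sum_comm]
      refine Finset.sum_congr rfl fun l _ => ?_
      rw [Finset.sum_comm]
    rw [e]
    have e2 : ∑ l ∈ L, ∑ l' ∈ L, ∑ a ∈ S, (f l a - δ l) * (f l' a - δ l') ≤
        ∑ l ∈ L, ∑ l' ∈ L, ((S.card : ℝ) * (3 * ε) + (if l = l' then (S.card : ℝ) else 0)) :=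
      Finset.sum_le_sum fun l hl => Finset.sum_le_sum fun l' hl' => key l hl l' hl'
    refine e2.trans (le_of_eq ?_)
    have e3 : ∀ l ∈ L, ∑ l' ∈ L, ((S.card : ℝ) * (3 * ε) + (if l = l' then (S.card : ℝ) else 0)) =
        (L.card : ℝ) * ((S.card : ℝ) * (3 * ε)) + S.card := by
      intro l hl
      rw [Finset.sum_add_distrib, Finset.sum_const, nsmul_eq_mul, Finset.sum_ite_eq, if_pos hl]
    rw [Finset.sum_congr rfl e3, Finset.sum_const, nsmul_eq_mul]
    ring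
  have hlow : (T.card : ℝ) * (c * L.card) ^ 2 ≤ ∑ a ∈ S, (∑ l ∈ L, (f l a - δ l)) ^ 2 := by
    have e1 : ∑ a ∈ T, (∑ l ∈ L, (f l a - δ l)) ^ 2 ≤ ∑ a ∈ S, (∑ l ∈ L, (f l a - δ l)) ^ 2 :=
      Finset.sum_le_sum_of_subset_of_nonneg hT fun _ _ _ => sq_nonneg _
    refine le_trans ?_ e1
    rw [← nsmul_eq_mul, ← Finset.sum_const]
    apply Finset.sum_le_sum
    intro a ha
    have e2 : ∑ l ∈ L, (f l a - δ l) = -∑ l ∈ L, δ l := by
      rw [← Finset.sum_neg_distrib]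
      refine Finset.sum_congr rfl fun l hl => ?_
      rw [hT0 a ha l hl]; ring
    rw [e2, neg_sq]
    have e3 : c * (L.card : ℝ) ≤ ∑ l ∈ L, δ l := by
      have : ∑ l ∈ L, c ≤ ∑ l ∈ L, δ l := Finset.sum_le_sum fun l hl => (hδ l hl).1
      rw [Finset.sum_const, nsmul_eq_mul] at this
      linarith
    have e4 : 0 ≤ c * (L.card : ℝ) := by positivity
    exact pow_le_pow_left₀ e4 e3 2
  have hfin := hlow.trans hsum
  have hcl : (0 : ℝ) < (c * L.card) ^ 2 := by positivity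
  have : (T.card : ℝ) ≤ ((S.card : ℝ) * (3 * ε) * (L.card : ℝ) ^ 2 + (S.card : ℝ) * L.card) /
      (c * L.card) ^ 2 := by
    rw [le_div_iff₀ hcl]; exact hfin
  refine this.trans (le_of_eq ?_)
  field_simp
  ring

private lemma crt63 {ι : Type} [Fintype ι] (m m' : ℕ) (hm : 0 < m) (hm' : 0 < m')
    (hco : m.Coprime m') (A : Set (ι → ZMod m)) (A' : Set (ι → ZMod m')) :
    Nat.card {v : ι → ZMod (m * m') |
      (fun i => ZMod.castHom (Dvd.intro _ rfl : m ∣ m * m') (ZMod m) (v i)) ∈ A ∧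
      (fun i => ZMod.castHom (Dvd.intro_left _ rfl : m' ∣ m * m') (ZMod m') (v i)) ∈ A'} =
      Nat.card A * Nat.card A' := by
  classical
  have : NeZero m := ⟨hm.ne'⟩
  have : NeZero m' := ⟨hm'.ne'⟩
  rw [← Nat.card_prod]
  set e := ZMod.chineseRemainder hco with he
  have e1 : ∀ x : ZMod (m * m'), (e x).1 = ZMod.castHom (Dvd.intro _ rfl : m ∣ m * m') (ZMod m) x := by
    intro x
    exact RingHom.congr_fun (Subsingleton.elim ((RingHom.fst _ _).comp e.toRingHom)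
      (ZMod.castHom (Dvd.intro _ rfl : m ∣ m * m') (ZMod m))) x
  have e2 : ∀ x : ZMod (m * m'),
      (e x).2 = ZMod.castHom (Dvd.intro_left _ rfl : m' ∣ m * m') (ZMod m') x := by
    intro x
    exact RingHom.congr_fun (Subsingleton.elim ((RingHom.snd _ _).comp e.toRingHom)
      (ZMod.castHom (Dvd.intro_left _ rfl : m' ∣ m * m') (ZMod m'))) x
  refine Nat.card_congr
    { toFun := fun v => (⟨_, v.2.1⟩, ⟨_, v.2.2⟩)
      invFun := fun p => ⟨fun i => e.symm (p.1.1 i, p.2.1 i), ?_, ?_⟩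
      left_inv := ?_
      right_inv := ?_ }
  · have : (fun i => ZMod.castHom (Dvd.intro _ rfl : m ∣ m * m') (ZMod m)
        (e.symm (p.1.1 i, p.2.1 i))) = p.1.1 := by
      funext i
      rw [← e1, RingEquiv.apply_symm_apply]
    rw [this]
    exact p.1.2
  · have : (fun i => ZMod.castHom (Dvd.intro_left _ rfl : m' ∣ m * m') (ZMod m')
        (e.symm (p.1.1 i, p.2.1 i))) = p.2.1 := by
      funext i
      rw [← e2, RingEquiv.apply_symm_apply]
    rw [this]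
    exact p.2.2
  · intro v
    apply Subtype.ext
    funext i
    show e.symm (_, _) = _
    rw [RingEquiv.symm_apply_eq]
    apply Prod.ext
    · rw [e1]
    · rw [e2]
  · intro p
    apply Prod.ext
    · apply Subtype.ext
      funext i
      show ZMod.castHom _ _ (e.symm (p.1.1 i, p.2.1 i)) = _
      rw [← e1, RingEquiv.apply_symm_apply]
    · apply Subtype.ext
      funext i
      show ZMod.castHom _ _ (e.symm (p.1.1 i, p.2.1 i)) = _
      rw [← e2, RingEquiv.apply_symm_apply]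

theorem turan {ι : Type} [Fintype ι] {c : ℝ} (hc : 0 < c) (B : ι → ℕ) (Y : ℕ) (hY : 0 < Y)
    (β : ℝ) (hβ : 0 < β) (hB : ∀ i, β ≤ B i) (hYβ : (Y : ℝ) ^ 2 ≤ β)
    (L : Finset ℕ) (hL : ∀ ℓ ∈ L, ℓ.Prime ∧ ℓ ≤ Y) (hne : L.Nonempty)
    (A : ∀ ℓ : ℕ, Set (ι → ZMod ℓ))
    (hA : ∀ ℓ ∈ L, c * (ℓ : ℝ) ^ (Fintype.card ι) ≤ Nat.card (A ℓ)) :
    (Set.ncard {a : ι → ℤ | (∀ i, |a i| ≤ (B i : ℤ)) ∧
      ∀ ℓ ∈ L, (fun i => ((a i : ℤ) : ZMod ℓ)) ∉ A ℓ} : ℝ)
      ≤ (∏ i, (2 * (B i : ℝ) + 1)) * (1 / c ^ 2) *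
        (1 / (L.card : ℝ) + 3 * 2 ^ (Fintype.card ι) * (Y : ℝ) ^ 2 / β) := by
  classical
  set S : Finset (ι → ℤ) := Fintype.piFinset (fun i => Finset.Icc (-(B i : ℤ)) (B i : ℤ)) with hS
  have hmS : ∀ a : ι → ℤ, a ∈ S ↔ ∀ i, |a i| ≤ (B i : ℤ) := by
    intro a
    rw [hS, Fintype.mem_piFinset]
    refine forall_congr' fun i => ?_
    rw [Finset.mem_Icc, abs_le]
  have hcS : (S.card : ℝ) = ∏ i, (2 * (B i : ℝ) + 1) := by
    rw [hS, Fintype.card_piFinset]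
    push_cast
    refine Finset.prod_congr rfl fun i _ => ?_
    rw [Int.card_Icc]
    have : ((B i : ℤ) + 1 - -(B i : ℤ)).toNat = 2 * B i + 1 := by omega
    rw [this]
    push_cast
    ring
  set ε : ℝ := 2 ^ (Fintype.card ι) * (Y : ℝ) ^ 2 / β with hεd
  have hε : 0 ≤ ε := by positivity
  have hY1 : (1 : ℝ) ≤ Y := by exact_mod_cast hY
  set f : ℕ → (ι → ℤ) → ℝ := fun l a => if (fun i => ((a i : ℤ) : ZMod l)) ∈ A l then 1 else 0 with hf
  set δ : ℕ → ℝ := fun l => (Nat.card (A l) : ℝ) / (l : ℝ) ^ (Fintype.card ι) with hδ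
  have hncard : ∀ P : (ι → ℤ) → Prop, ∃ T : Finset (ι → ℤ), T ⊆ S ∧ (∀ a ∈ T, P a) ∧
      (Set.ncard {a : ι → ℤ | (∀ i, |a i| ≤ (B i : ℤ)) ∧ P a} : ℝ) = (T.card : ℝ) := by
    intro P
    refine ⟨S.filter P, Finset.filter_subset _ _, fun a ha => (Finset.mem_filter.1 ha).2, ?_⟩
    rw [← Set.ncard_coe_finset]
    congr 2
    ext a
    simp only [Set.mem_ofPred_eq, Finset.coe_filter, hmS]
  have hsum : ∀ (P : (ι → ℤ) → Prop) (g : (ι → ℤ) → ℝ), (∀ a, (P a → g a = 1) ∧ (¬ P a → g a = 0)) →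
      ∑ a ∈ S, g a = (Set.ncard {a : ι → ℤ | (∀ i, |a i| ≤ (B i : ℤ)) ∧ P a} : ℝ) := by
    intro P g hg
    have e1 : {a : ι → ℤ | (∀ i, |a i| ≤ (B i : ℤ)) ∧ P a} = ((S.filter P : Finset (ι → ℤ)) : Set (ι → ℤ)) := by
      ext a
      simp only [Set.mem_ofPred_eq, Finset.coe_filter, hmS]
    rw [e1, Set.ncard_coe_finset, ← Finset.sum_boole]
    refine Finset.sum_congr rfl fun a _ => ?_
    by_cases h : P a
    · rw [if_pos h, (hg a).1 h]
    · rw [if_neg h, (hg a).2 h]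
  have hε1 : ∀ m : ℕ, m ≤ Y ^ 2 → (S.card : ℝ) * (2 ^ (Fintype.card ι) * m / β) ≤ S.card * ε := by
    intro m hm
    have hm' : (m : ℝ) ≤ (Y : ℝ) ^ 2 := by exact_mod_cast hm
    apply mul_le_mul_of_nonneg_left _ (Nat.cast_nonneg _)
    rw [hεd]
    gcongr
  have hlY : ∀ l ∈ L, l ≤ Y ^ 2 := fun l hl =>
    (hL l hl).2.trans (by nlinarith [hY])
  obtain ⟨T, hT, hTP, hTc⟩ := hncard fun a => ∀ l ∈ L, (fun i => ((a i : ℤ) : ZMod l)) ∉ A l
  rw [hTc, ← hcS]
  have e9 : (S.card : ℝ) * (1 / c ^ 2) *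
      (1 / (L.card : ℝ) + 3 * 2 ^ (Fintype.card ι) * (Y : ℝ) ^ 2 / β) =
      (S.card : ℝ) * (1 / c ^ 2) * (1 / (L.card : ℝ) + 3 * ε) := by
    rw [hεd]
    ring
  rw [e9]
  refine second63 S L hne f δ c ε hc hε ?_ ?_ ?_ ?_ T hT ?_
  · intro l _ a _
    simp only [hf]
    by_cases h : (fun i => ((a i : ℤ) : ZMod l)) ∈ A l
    · right; rw [if_pos h]
    · left; rw [if_neg h]
  · intro l hl
    have hp := (hL l hl).1
    have : NeZero l := ⟨hp.ne_zero⟩
    have hpos : (0 : ℝ) < (l : ℝ) ^ (Fintype.card ι) := by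
      have : (0 : ℝ) < l := by exact_mod_cast hp.pos
      positivity
    constructor
    · rw [hδ]
      show c ≤ _ / _
      rw [le_div_iff₀ hpos]
      exact hA l hl
    · rw [hδ]
      show _ / _ ≤ (1 : ℝ)
      rw [div_le_one hpos]
      have h1 : Nat.card (A l) ≤ Nat.card (ι → ZMod l) := Finite.card_subtype_le _
      have h2 : Nat.card (ι → ZMod l) = l ^ (Fintype.card ι) := by
        rw [Nat.card_fun, Nat.card_zmod, Nat.card_eq_fintype_card]
      rw [h2] at h1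
      exact_mod_cast h1
  · intro l hl
    have hp := (hL l hl).1
    have hb := box_residue B l hp.pos (A l) β hβ hB
      (le_trans (by exact_mod_cast hlY l hl) hYβ)
    rw [← hsum (fun a => (fun i => ((a i : ℤ) : ZMod l)) ∈ A l) (f l) (fun a => ⟨fun h => if_pos h,
      fun h => if_neg h⟩), ← hcS] at hb
    exact hb.trans (hε1 l (hlY l hl))
  · intro l hl l' hl' hll
    have hp := (hL l hl).1
    have hp' := (hL l' hl').1
    have hco : l.Coprime l' := (Nat.coprime_primes hp hp').2 hll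
    have hle : l * l' ≤ Y ^ 2 := by
      rw [sq]
      exact Nat.mul_le_mul (hL l hl).2 (hL l' hl').2
    have hb := box_residue B (l * l') (Nat.mul_pos hp.pos hp'.pos)
      {v : ι → ZMod (l * l') |
      (fun i => ZMod.castHom (Dvd.intro _ rfl : l ∣ l * l') (ZMod l) (v i)) ∈ A l ∧
      (fun i => ZMod.castHom (Dvd.intro_left _ rfl : l' ∣ l * l') (ZMod l') (v i)) ∈ A l'} β hβ hB
      (le_trans (by exact_mod_cast hle) hYβ)
    rw [crt63 l l' hp.pos hp'.pos hco (A l) (A l'), ← hsum (fun a =>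
        (fun i => ((a i : ℤ) : ZMod (l * l'))) ∈ {v : ι → ZMod (l * l') |
      (fun i => ZMod.castHom (Dvd.intro _ rfl : l ∣ l * l') (ZMod l) (v i)) ∈ A l ∧
      (fun i => ZMod.castHom (Dvd.intro_left _ rfl : l' ∣ l * l') (ZMod l') (v i)) ∈ A l'})
      (fun a => f l a * f l' a) ?_, ← hcS] at hb
    · have hd : ((Nat.card (A l) * Nat.card (A l') : ℕ) : ℝ) / ((l * l' : ℕ) : ℝ) ^ Fintype.card ι =
          δ l * δ l' := by
        simp only [hδ]
        push_cast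
        rw [mul_pow, div_mul_div_comm]
      rw [hd] at hb
      exact hb.trans (hε1 _ hle)
    · intro a
      simp only [hf, Set.mem_ofPred_eq, map_intCast]
      by_cases h1 : (fun i => ((a i : ℤ) : ZMod l)) ∈ A l <;>
        by_cases h2 : (fun i => ((a i : ℤ) : ZMod l')) ∈ A l' <;> simp [h1, h2]
  · intro a ha l hl
    simp only [hf]
    rw [if_neg (hTP a ha l hl)]

end Pool.Agent.Helper71.AA
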