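import Pool.Agent.Helper71.AA.Cnt1
import Pool.Agent.Helper71.AA.Local
import Pool.Agent.Helper71.AA.Turan

/-!
# The Weil polynomials of swap type modulo no prime are few (block AA-NOSW)
-/

set_option autoImplicit false

namespace Pool.Agent.Helper71.AA

open Polynomial Filter Asymptotics

private lemma nosw_real (C : ℝ) : ∀ᶠ x : ℝ in atTop,
    (x ^ (6 / 7 : ℝ) + C) * Real.log x + Real.log (x + 1) ≤ x * Real.log 2 := by
  have hlog2 : 0 < Real.log 2 := Real.log_pos (by norm_num)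
  have h1 : (fun x : ℝ => x ^ (6 / 7 : ℝ) * Real.log x) =o[atTop] fun x : ℝ => x := by
    have h := (isBigO_refl (fun x : ℝ => x ^ (6 / 7 : ℝ)) atTop).mul_isLittleO
      (isLittleO_log_rpow_atTop (show (0 : ℝ) < 1 / 7 by norm_num))
    refine h.trans_eventuallyEq ?_
    filter_upwards [eventually_gt_atTop 0] with x hx
    rw [← Real.rpow_add hx]
    norm_num
  have h0 : (fun x : ℝ => Real.log x) =o[atTop] fun x : ℝ => x := Real.isLittleO_log_id_atTop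
  have h2 : (fun x : ℝ => C * Real.log x) =o[atTop] fun x : ℝ => x := h0.const_mul_left C
  have h3 := h1.bound (show (0 : ℝ) < Real.log 2 / 8 by positivity)
  have h4 := h2.bound (show (0 : ℝ) < Real.log 2 / 8 by positivity)
  have h5 := h0.bound (show (0 : ℝ) < Real.log 2 / 8 by positivity)
  filter_upwards [h3, h4, h5, eventually_ge_atTop (8 : ℝ)] with x a3 a4 a5 a6
  have hx0 : (0 : ℝ) < x := by linarith
  rw [Real.norm_eq_abs, Real.norm_eq_abs, abs_of_pos hx0] at a3 a4 a5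
  have b3 := (le_abs_self _).trans a3
  have b4 := (le_abs_self _).trans a4
  have b5 := (le_abs_self _).trans a5
  have hl : Real.log (x + 1) ≤ Real.log 2 + Real.log x := by
    rw [← Real.log_mul (by norm_num) hx0.ne']
    exact Real.log_le_log (by linarith) (by linarith)
  nlinarith

private lemma nosw_pi (C : ℝ) : ∃ Y₀ : ℕ, ∀ n : ℕ, Y₀ ≤ n →
    (n : ℝ) ^ (6 / 7 : ℝ) + C ≤ (Nat.primeCounting n : ℝ) := by
  have h := (tendsto_natCast_atTop_atTop (R := ℝ)).eventually (nosw_real C)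
  have h2 := h.and (eventually_ge_atTop (2 : ℕ))
  obtain ⟨Y₀, hY⟩ := eventually_atTop.mp h2
  refine ⟨Y₀, fun n hn => ?_⟩
  obtain ⟨a, b⟩ := hY n hn
  have hn1 : (1 : ℝ) < n := by exact_mod_cast (by omega : 1 < n)
  have hlog : 0 < Real.log n := Real.log_pos hn1
  refine le_trans ?_ (Chebyshev.pi_ge n)
  rw [le_div_iff₀ hlog]
  linarith

private lemma nosw_count (q Y ℓ₀ : ℕ) (hq : IsPrimePow q) :
    (Nat.primeCounting Y : ℝ) ≤
      (((Finset.Icc ℓ₀ Y).filter (fun ℓ => ℓ.Prime ∧ ¬ ℓ ∣ q)).card : ℝ) + (ℓ₀ + 1) := by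
  classical
  obtain ⟨p, k, hp, hk, rfl⟩ := (isPrimePow_nat_iff q).mp hq
  have h1 : Nat.primeCounting Y = ((Finset.range (Y + 1)).filter Nat.Prime).card := by
    rw [Nat.primeCounting, Nat.primeCounting', Nat.count_eq_card_filter_range]
  have h2 : (Finset.range (Y + 1)).filter Nat.Prime ⊆
      ((Finset.Icc ℓ₀ Y).filter (fun ℓ => ℓ.Prime ∧ ¬ ℓ ∣ p ^ k)) ∪
        (Finset.range ℓ₀ ∪ {p}) := by
    intro ℓ hℓ
    rw [Finset.mem_filter, Finset.mem_range] at hℓ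
    rw [Finset.mem_union, Finset.mem_union, Finset.mem_filter, Finset.mem_Icc,
      Finset.mem_range, Finset.mem_singleton]
    by_cases h3 : ℓ < ℓ₀
    · exact Or.inr (Or.inl h3)
    · by_cases h4 : ℓ ∣ p ^ k
      · exact Or.inr (Or.inr ((Nat.prime_dvd_prime_iff_eq hℓ.2 hp).mp
          (hℓ.2.dvd_of_dvd_pow h4)))
      · exact Or.inl ⟨⟨by omega, by omega⟩, hℓ.2, h4⟩
  have h5 := Finset.card_le_card h2
  have h6 := Finset.card_union_le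
    ((Finset.Icc ℓ₀ Y).filter (fun ℓ => ℓ.Prime ∧ ¬ ℓ ∣ p ^ k)) (Finset.range ℓ₀ ∪ {p})
  have h7 := Finset.card_union_le (Finset.range ℓ₀) {p}
  rw [Finset.card_range, Finset.card_singleton] at h7
  rw [h1]
  have h8 : ((Finset.range (Y + 1)).filter Nat.Prime).card ≤
      ((Finset.Icc ℓ₀ Y).filter (fun ℓ => ℓ.Prime ∧ ¬ ℓ ∣ p ^ k)).card + (ℓ₀ + 1) := by omega
  exact_mod_cast h8

private lemma nosw_box (q g : ℕ) (hq : 0 < q) (i : Fin g) : √(q : ℝ) ≤ (box q g i : ℝ) := by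
  have hs1 : (1 : ℝ) ≤ √(q : ℝ) := by
    rw [Real.one_le_sqrt]
    exact_mod_cast hq
  have h1 : √(q : ℝ) ≤ √(q : ℝ) ^ ((i : ℕ) + 1) := by
    calc √(q : ℝ) = √(q : ℝ) ^ 1 := (pow_one _).symm
      _ ≤ √(q : ℝ) ^ ((i : ℕ) + 1) := pow_le_pow_right₀ hs1 (by omega)
  have h2 : (1 : ℝ) ≤ ((2 * g).choose ((i : ℕ) + 1) : ℝ) := by
    have : 0 < (2 * g).choose ((i : ℕ) + 1) := Nat.choose_pos (by have := i.2; omega)
    exact_mod_cast this
  unfold box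
  refine le_trans ?_ (Nat.le_ceil _)
  calc √(q : ℝ) ≤ √(q : ℝ) ^ ((i : ℕ) + 1) := h1
    _ = √(q : ℝ) ^ ((i : ℕ) + 1) * 1 := (mul_one _).symm
    _ ≤ √(q : ℝ) ^ ((i : ℕ) + 1) * ((2 * g).choose ((i : ℕ) + 1) : ℝ) :=
      mul_le_mul_of_nonneg_left h2 (by positivity)

theorem noSwap_upper (g : ℕ) (hg : 0 < g) : ∃ K : ℝ, 0 < K ∧ ∀ q : ℕ, IsPrimePow q →
    ({P : ℤ[X] | IsWeil q g P ∧ ∀ ℓ : ℕ, ℓ.Prime →
      (fun i : Fin g => ((P.coeff (2 * g - 1 - i) : ℤ) : ZMod ℓ)) ∉ swapSet q g ℓ}.ncard : ℝ) ≤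
      K * √(q : ℝ) ^ E g * (q : ℝ) ^ (-(1 / 7) : ℝ) := by
  classical
  obtain ⟨c, hc, ℓ₀, hcard⟩ := card_swapSet g hg
  obtain ⟨Kb, hKb, hbox⟩ := box_card g
  obtain ⟨Kw, hKw, hweil⟩ := weil_upper g
  obtain ⟨Y₀, hY₀⟩ := nosw_pi (ℓ₀ + 1)
  -- the threshold
  have htend : Tendsto (fun q : ℕ => √(q : ℝ) ^ (1 / 3 : ℝ)) atTop atTop :=
    (tendsto_rpow_atTop (by norm_num : (0 : ℝ) < 1 / 3)).comp
      (Real.tendsto_sqrt_atTop.comp tendsto_natCast_atTop_atTop)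
  obtain ⟨q₀, hq₀⟩ := eventually_atTop.mp (htend.eventually_ge_atTop (max 2 (Y₀ + 1 : ℝ)))
  set K1 : ℝ := Kb * (1 / c ^ 2) * (2 + 3 * 2 ^ g) with hK1
  have hK1pos : 0 < K1 := by positivity
  refine ⟨K1 + Kw * ((q₀ : ℝ) + 1) ^ (1 / 7 : ℝ), by positivity, fun q hq => ?_⟩
  have hqpos : 0 < q := hq.pos
  have hqR : (0 : ℝ) < q := by exact_mod_cast hqpos
  set s : ℝ := √(q : ℝ) with hs
  have hs1 : (1 : ℝ) ≤ s := by
    rw [hs, Real.one_le_sqrt]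
    exact_mod_cast hqpos
  have hs0 : 0 < s := by linarith
  have hqs : (q : ℝ) = s ^ 2 := (Real.sq_sqrt hqR.le).symm
  have hq7 : (q : ℝ) ^ (-(1 / 7) : ℝ) = s ^ (-(2 / 7) : ℝ) := by
    rw [hqs, ← Real.rpow_natCast, ← Real.rpow_mul hs0.le]
    norm_num
  have hq7pos : 0 < (q : ℝ) ^ (-(1 / 7) : ℝ) := Real.rpow_pos_of_pos hqR _
  have hsE : 0 < s ^ E g := by positivity
  set T : Set ℤ[X] := {P : ℤ[X] | IsWeil q g P ∧ ∀ ℓ : ℕ, ℓ.Prime →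
      (fun i : Fin g => ((P.coeff (2 * g - 1 - i) : ℤ) : ZMod ℓ)) ∉ swapSet q g ℓ} with hT
  rcases Nat.lt_or_ge q q₀ with hlt | hge
  · -- small q
    have h1 : (T.ncard : ℝ) ≤ ({P : ℤ[X] | IsWeil q g P}.ncard : ℝ) := by
      have := Set.ncard_le_ncard (s := T) (t := {P : ℤ[X] | IsWeil q g P})
        (fun P hP => hP.1) (weil_finite q g)
      exact_mod_cast this
    have h2 := hweil q hqpos
    have h3 : (1 : ℝ) ≤ ((q₀ : ℝ) + 1) ^ (1 / 7 : ℝ) * (q : ℝ) ^ (-(1 / 7) : ℝ) := by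
      have h4 : (q : ℝ) ^ (1 / 7 : ℝ) ≤ ((q₀ : ℝ) + 1) ^ (1 / 7 : ℝ) := by
        refine Real.rpow_le_rpow hqR.le ?_ (by norm_num)
        have : (q : ℝ) < q₀ := by exact_mod_cast hlt
        linarith
      have h5 : (q : ℝ) ^ (1 / 7 : ℝ) * (q : ℝ) ^ (-(1 / 7) : ℝ) = 1 := by
        rw [← Real.rpow_add hqR]
        norm_num
      calc (1 : ℝ) = (q : ℝ) ^ (1 / 7 : ℝ) * (q : ℝ) ^ (-(1 / 7) : ℝ) := h5.symm
        _ ≤ _ := mul_le_mul_of_nonneg_right h4 hq7pos.le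
    calc (T.ncard : ℝ) ≤ Kw * s ^ E g := h1.trans h2
      _ = Kw * s ^ E g * 1 := by ring
      _ ≤ Kw * s ^ E g * (((q₀ : ℝ) + 1) ^ (1 / 7 : ℝ) * (q : ℝ) ^ (-(1 / 7) : ℝ)) :=
        mul_le_mul_of_nonneg_left h3 (by positivity)
      _ = Kw * ((q₀ : ℝ) + 1) ^ (1 / 7 : ℝ) * s ^ E g * (q : ℝ) ^ (-(1 / 7) : ℝ) := by ring
      _ ≤ (K1 + Kw * ((q₀ : ℝ) + 1) ^ (1 / 7 : ℝ)) * s ^ E g * (q : ℝ) ^ (-(1 / 7) : ℝ) := by
        have : 0 ≤ K1 * s ^ E g * (q : ℝ) ^ (-(1 / 7) : ℝ) := by positivity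
        linarith
  · -- large q
    have hbig := hq₀ q hge
    rw [← hs] at hbig
    have hbig2 : (2 : ℝ) ≤ s ^ (1 / 3 : ℝ) := (le_max_left _ _).trans hbig
    have hbigY : (Y₀ + 1 : ℝ) ≤ s ^ (1 / 3 : ℝ) := (le_max_right _ _).trans hbig
    set Y : ℕ := ⌊s ^ (1 / 3 : ℝ)⌋₊ with hY
    have hs3 : 0 ≤ s ^ (1 / 3 : ℝ) := by positivity
    have hYle : (Y : ℝ) ≤ s ^ (1 / 3 : ℝ) := Nat.floor_le hs3
    have hYgt : s ^ (1 / 3 : ℝ) < Y + 1 := Nat.lt_floor_add_one _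
    have hYhalf : s ^ (1 / 3 : ℝ) / 2 ≤ Y := by linarith
    have hYY₀ : Y₀ ≤ Y := by
      refine Nat.le_floor ?_
      linarith
    have hYpos : 0 < Y := by
      have : (0 : ℝ) < Y := by linarith
      exact_mod_cast this
    have hY2 : (Y : ℝ) ^ 2 ≤ s ^ (2 / 3 : ℝ) := by
      calc (Y : ℝ) ^ 2 ≤ (s ^ (1 / 3 : ℝ)) ^ 2 := pow_le_pow_left₀ (Nat.cast_nonneg _) hYle 2
        _ = s ^ (2 / 3 : ℝ) := by
          rw [← Real.rpow_natCast, ← Real.rpow_mul hs0.le]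
          norm_num
    have hYs : (Y : ℝ) ^ 2 ≤ s := by
      refine hY2.trans ?_
      calc s ^ (2 / 3 : ℝ) ≤ s ^ (1 : ℝ) := Real.rpow_le_rpow_of_exponent_le hs1 (by norm_num)
        _ = s := Real.rpow_one s
    set L : Finset ℕ := (Finset.Icc ℓ₀ Y).filter (fun ℓ => ℓ.Prime ∧ ¬ ℓ ∣ q) with hL
    have hLcard : (Y : ℝ) ^ (6 / 7 : ℝ) ≤ (L.card : ℝ) := by
      have h1 := hY₀ Y hYY₀
      have h2 := nosw_count q Y ℓ₀ hq
      rw [← hL] at h2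
      linarith
    have hLlow : s ^ (2 / 7 : ℝ) / 2 ≤ (L.card : ℝ) := by
      refine le_trans ?_ hLcard
      calc s ^ (2 / 7 : ℝ) / 2 ≤ s ^ (2 / 7 : ℝ) * (1 / 2) ^ (6 / 7 : ℝ) := by
            rw [div_eq_mul_one_div]
            refine mul_le_mul_of_nonneg_left ?_ (by positivity)
            calc (1 / 2 : ℝ) = (1 / 2 : ℝ) ^ (1 : ℝ) := (Real.rpow_one _).symm
              _ ≤ (1 / 2 : ℝ) ^ (6 / 7 : ℝ) :=
                Real.rpow_le_rpow_of_exponent_ge (by norm_num) (by norm_num) (by norm_num)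
        _ = (s ^ (1 / 3 : ℝ) / 2) ^ (6 / 7 : ℝ) := by
            rw [div_eq_mul_one_div (s ^ (1 / 3 : ℝ)), Real.mul_rpow hs3 (by norm_num),
              ← Real.rpow_mul hs0.le]
            norm_num
        _ ≤ (Y : ℝ) ^ (6 / 7 : ℝ) := Real.rpow_le_rpow (by positivity) hYhalf (by norm_num)
    have hs27 : 0 < s ^ (2 / 7 : ℝ) := Real.rpow_pos_of_pos hs0 _
    have hLpos : (0 : ℝ) < L.card := lt_of_lt_of_le (by positivity) hLlow
    have hLne : L.Nonempty := by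
      rw [← Finset.card_pos]
      exact_mod_cast hLpos
    -- the sieve
    have hbeta : ∀ i : Fin g, s ≤ (box q g i : ℝ) := fun i => nosw_box q g hqpos i
    have htur := turan (ι := Fin g) hc (box q g) Y hYpos s hs0 hbeta hYs L
      (fun ℓ hℓ => by
        rw [hL, Finset.mem_filter, Finset.mem_Icc] at hℓ
        exact ⟨hℓ.2.1, hℓ.1.2⟩) hLne (fun ℓ => swapSet q g ℓ)
      (fun ℓ hℓ => by
        rw [hL, Finset.mem_filter, Finset.mem_Icc] at hℓ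
        rw [Fintype.card_fin]
        exact hcard ℓ hℓ.2.1 hℓ.1.1 q hℓ.2.2)
    have hTbox := (ncard_le_box T (fun P hP => hP.1)
      {a : Fin g → ℤ | ∀ ℓ ∈ L, (fun i => ((a i : ℤ) : ZMod ℓ)) ∉ swapSet q g ℓ}
      (fun P hP ℓ hℓ => by
        rw [hL, Finset.mem_filter] at hℓ
        exact hP.2 ℓ hℓ.2.1)).2
    have hTbox' : (T.ncard : ℝ) ≤ ({a : Fin g → ℤ | (∀ i, |a i| ≤ (box q g i : ℤ)) ∧
        ∀ ℓ ∈ L, (fun i => ((a i : ℤ) : ZMod ℓ)) ∉ swapSet q g ℓ}.ncard : ℝ) := by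
      exact_mod_cast hTbox
    have hprod := hbox q hqpos
    rw [← hs] at hprod
    rw [Fintype.card_fin] at htur
    -- the two error terms
    have hneg : s ^ (-(2 / 7) : ℝ) = 1 / s ^ (2 / 7 : ℝ) := by
      rw [Real.rpow_neg hs0.le, one_div]
    have e1 : 1 / (L.card : ℝ) ≤ 2 * s ^ (-(2 / 7) : ℝ) := by
      rw [hneg]
      calc 1 / (L.card : ℝ) ≤ 1 / (s ^ (2 / 7 : ℝ) / 2) :=
            one_div_le_one_div_of_le (by positivity) hLlow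
        _ = 2 * (1 / s ^ (2 / 7 : ℝ)) := by
            rw [one_div_div]
            ring
    have e2 : 3 * 2 ^ g * (Y : ℝ) ^ 2 / s ≤ 3 * 2 ^ g * s ^ (-(2 / 7) : ℝ) := by
      have h1 : (Y : ℝ) ^ 2 / s ≤ s ^ (-(2 / 7) : ℝ) := by
        calc (Y : ℝ) ^ 2 / s ≤ s ^ (2 / 3 : ℝ) / s := div_le_div_of_nonneg_right hY2 hs0.le
          _ = s ^ (-(1 / 3) : ℝ) := by
            rw [div_eq_mul_inv, ← Real.rpow_neg_one s, ← Real.rpow_add hs0]
            norm_num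
          _ ≤ s ^ (-(2 / 7) : ℝ) := Real.rpow_le_rpow_of_exponent_le hs1 (by norm_num)
      calc 3 * 2 ^ g * (Y : ℝ) ^ 2 / s = 3 * 2 ^ g * ((Y : ℝ) ^ 2 / s) := by ring
        _ ≤ _ := mul_le_mul_of_nonneg_left h1 (by positivity)
    have hsum : 1 / (L.card : ℝ) + 3 * 2 ^ g * (Y : ℝ) ^ 2 / s ≤
        (2 + 3 * 2 ^ g) * s ^ (-(2 / 7) : ℝ) := by
      have := add_le_add e1 e2
      linarith
    have hs7pos : 0 < s ^ (-(2 / 7) : ℝ) := Real.rpow_pos_of_pos hs0 _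
    rw [hq7]
    calc (T.ncard : ℝ) ≤ _ := hTbox'
      _ ≤ (∏ i, (2 * (box q g i : ℝ) + 1)) * (1 / c ^ 2) *
        (1 / (L.card : ℝ) + 3 * 2 ^ g * (Y : ℝ) ^ 2 / s) := htur
      _ ≤ (Kb * s ^ E g) * (1 / c ^ 2) * ((2 + 3 * 2 ^ g) * s ^ (-(2 / 7) : ℝ)) := by
        have t1 : 0 ≤ 3 * 2 ^ g * (Y : ℝ) ^ 2 / s := by positivity
        have t2 : 0 ≤ 1 / (L.card : ℝ) := div_nonneg zero_le_one hLpos.le
        refine mul_le_mul ?_ hsum (add_nonneg t2 t1) (by positivity)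
        exact mul_le_mul_of_nonneg_right hprod (by positivity)
      _ = K1 * s ^ E g * s ^ (-(2 / 7) : ℝ) := by rw [hK1]; ring
      _ ≤ (K1 + Kw * ((q₀ : ℝ) + 1) ^ (1 / 7 : ℝ)) * s ^ E g * s ^ (-(2 / 7) : ℝ) := by
        have : 0 ≤ Kw * ((q₀ : ℝ) + 1) ^ (1 / 7 : ℝ) * s ^ E g * s ^ (-(2 / 7) : ℝ) := by
          positivity
        linarith

end Pool.Agent.Helper71.AA
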