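import Pool.Agent.Helper71.AA.Crit
import Pool.Agent.Helper71.AA.Cnt2
import Pool.Agent.Helper71.AA.Cnt3
import Pool.Agent.Helper71.AA.Cnt4
import Pool.Agent.Helper71.AA.NoSw

/-!
# Almost all isogeny classes (block AA-FIN)
-/

set_option autoImplicit false

namespace Pool.Agent.Helper71.AA

open Polynomial

private lemma one_div_sqrt_le {q : ℕ} (hq : 1 ≤ q) :
    1 / √(q : ℝ) ≤ (q : ℝ) ^ (-(1 / 7) : ℝ) := by
  have h1 : (1 : ℝ) ≤ q := by exact_mod_cast hq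
  have h2 : 1 / √(q : ℝ) = (q : ℝ) ^ (-(1 / 2) : ℝ) := by
    rw [Real.sqrt_eq_rpow, Real.rpow_neg (by linarith), one_div]
  rw [h2]
  exact Real.rpow_le_rpow_of_exponent_le h1 (by norm_num)

theorem almost_all (g : ℕ) (hg : 0 < g) : ∃ K : ℝ, ∀ q : ℕ, IsPrimePow q →
    ({P : ℤ[X] | IsWeil q g P ∧ (IsCoprime (P.coeff g) (q : ℤ) ∨ (q : ℤ) ∣ P.coeff g ^ 2) ∧
      ¬ DivisorsSuffice q P}.ncard : ℝ) ≤
      K * (q : ℝ) ^ (-(1 / 7) : ℝ) * ({P : ℤ[X] | IsOrdinary q g P}.ncard : ℝ) := by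
  obtain ⟨K₁, hK₁, h₁⟩ := split_upper g hg
  obtain ⟨K₂, hK₂, h₂⟩ := nonordinary_upper g hg
  obtain ⟨K₃, hK₃, h₃⟩ := noSwap_upper g hg
  obtain ⟨c, hc, h₄⟩ := ordinary_lower g hg
  refine ⟨(K₁ + K₂ + K₃) / c, fun q hq => ?_⟩
  have hq2 : 2 ≤ q := hq.two_le
  have hq0 : 0 < q := by omega
  have hsub : {P : ℤ[X] | IsWeil q g P ∧
      (IsCoprime (P.coeff g) (q : ℤ) ∨ (q : ℤ) ∣ P.coeff g ^ 2) ∧ ¬ DivisorsSuffice q P} ⊆
      ({P : ℤ[X] | IsWeil q g P ∧ IsSplit q g P} ∪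
        {P : ℤ[X] | IsWeil q g P ∧ (q : ℤ) ∣ P.coeff g ^ 2}) ∪
        {P : ℤ[X] | IsWeil q g P ∧ ∀ ℓ : ℕ, ℓ.Prime →
          (fun i : Fin g => ((P.coeff (2 * g - 1 - i) : ℤ) : ZMod ℓ)) ∉ swapSet q g ℓ} := by
    rintro P ⟨hW, hor, hD⟩
    by_cases hs : IsSplit q g P
    · exact Or.inl (Or.inl ⟨hW, hs⟩)
    by_cases hd : (q : ℤ) ∣ P.coeff g ^ 2
    · exact Or.inl (Or.inr ⟨hW, hd⟩)
    refine Or.inr ⟨hW, fun ℓ hℓ hm => hD ?_⟩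
    have : Fact ℓ.Prime := ⟨hℓ⟩
    exact divisorsSuffice hq2 ⟨hW, hor.resolve_right hd⟩ hs hm
  have hfin : ∀ S : Set ℤ[X], (∀ P ∈ S, IsWeil q g P) → S.Finite := fun S hS =>
    (weil_finite q g).subset hS
  have hcard : ({P : ℤ[X] | IsWeil q g P ∧
      (IsCoprime (P.coeff g) (q : ℤ) ∨ (q : ℤ) ∣ P.coeff g ^ 2) ∧
        ¬ DivisorsSuffice q P}.ncard : ℝ) ≤
      ({P : ℤ[X] | IsWeil q g P ∧ IsSplit q g P}.ncard : ℝ) +
        ({P : ℤ[X] | IsWeil q g P ∧ (q : ℤ) ∣ P.coeff g ^ 2}.ncard : ℝ) +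
        ({P : ℤ[X] | IsWeil q g P ∧ ∀ ℓ : ℕ, ℓ.Prime →
          (fun i : Fin g => ((P.coeff (2 * g - 1 - i) : ℤ) : ZMod ℓ)) ∉
            swapSet q g ℓ}.ncard : ℝ) := by
    have h5 := Set.ncard_le_ncard hsub (by
      refine Set.Finite.union (Set.Finite.union ?_ ?_) ?_
      · exact hfin _ fun P hP => hP.1
      · exact hfin _ fun P hP => hP.1
      · exact hfin _ fun P hP => hP.1)
    have h6 := h5.trans ((Set.ncard_union_le _ _).trans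
      (Nat.add_le_add_right (Set.ncard_union_le _ _) _))
    exact_mod_cast h6
  set s : ℝ := √(q : ℝ) with hs
  have hs0 : 0 < s := Real.sqrt_pos.mpr (by exact_mod_cast hq0)
  set r : ℝ := (q : ℝ) ^ (-(1 / 7) : ℝ) with hr
  have hr0 : 0 ≤ r := Real.rpow_nonneg (Nat.cast_nonneg _) _
  have hsr : 1 / s ≤ r := one_div_sqrt_le (by omega)
  have hE : 0 ≤ s ^ E g := pow_nonneg hs0.le _
  have h5 : K₁ * s ^ E g / s ≤ K₁ * s ^ E g * r := by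
    rw [div_eq_mul_one_div]
    exact mul_le_mul_of_nonneg_left hsr (mul_nonneg hK₁.le hE)
  have h6 : K₂ * s ^ E g / s ≤ K₂ * s ^ E g * r := by
    rw [div_eq_mul_one_div]
    exact mul_le_mul_of_nonneg_left hsr (mul_nonneg hK₂.le hE)
  have h7 := h₁ q hq0
  have h8 := h₂ q hq
  have h9 := h₃ q hq
  have h10 := h₄ q hq
  have h11 : s ^ E g ≤ ({P : ℤ[X] | IsOrdinary q g P}.ncard : ℝ) / c := by
    rw [le_div_iff₀ hc]
    linarith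
  calc _ ≤ K₁ * s ^ E g / s + K₂ * s ^ E g / s + K₃ * s ^ E g * r := by linarith
    _ ≤ (K₁ + K₂ + K₃) * r * s ^ E g := by nlinarith
    _ ≤ (K₁ + K₂ + K₃) * r * (({P : ℤ[X] | IsOrdinary q g P}.ncard : ℝ) / c) :=
        mul_le_mul_of_nonneg_left h11 (mul_nonneg (by linarith) hr0)
    _ = _ := by ring

end Pool.Agent.Helper71.AA
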