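import Pool.Agent.Helper71.AA.Defs

/-!
# Elementary properties of Weil polynomials (block AA-PAL)
-/

set_option autoImplicit false

namespace Pool.Agent.Helper71.AA

open Polynomial

lemma quad_monic {R : Type*} [CommRing R] [Nontrivial R] (q x : R) : (quad q x).Monic := by
  unfold quad
  monicity!

lemma quad_natDegree {R : Type*} [CommRing R] [Nontrivial R] (q x : R) :
    (quad q x).natDegree = 2 := by
  unfold quad
  compute_degree!

lemma prod_quad_monic {R : Type*} [CommRing R] [Nontrivial R] (q : R) {g : ℕ} (x : Fin g → R) :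
    (∏ j, quad q (x j)).Monic := by
  exact monic_prod_of_monic _ _ fun j _ => quad_monic q (x j)

lemma prod_quad_natDegree {R : Type*} [CommRing R] [Nontrivial R] (q : R) {g : ℕ}
    (x : Fin g → R) : (∏ j, quad q (x j)).natDegree = 2 * g := by
  rw [natDegree_prod_of_monic _ _ fun j _ => quad_monic q (x j)]
  simp [quad_natDegree, mul_comm]

private lemma pal67_coeff_two {R : Type*} [CommRing R] (q y : R) (P : R[X]) (m : ℕ) :
    (P * quad q y).coeff (m + 2) = P.coeff m - y * P.coeff (m + 1) + q * P.coeff (m + 2) := by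
  have h : P * quad q y = P * X ^ 2 - C y * (P * X) + C q * P := by
    unfold quad
    ring
  rw [h, coeff_add, coeff_sub, coeff_mul_X_pow, coeff_C_mul, coeff_C_mul, coeff_mul_X]

private lemma pal67_coeff_one {R : Type*} [CommRing R] (q y : R) (P : R[X]) :
    (P * quad q y).coeff 1 = - (y * P.coeff 0) + q * P.coeff 1 := by
  have h : P * quad q y = P * X * X - C y * (P * X) + C q * P := by
    unfold quad
    ring
  rw [h, coeff_add, coeff_sub, coeff_mul_X, coeff_C_mul, coeff_C_mul, coeff_mul_X, mul_coeff_zero,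
    coeff_X_zero, mul_zero, zero_sub]

private lemma pal67_coeff_zero {R : Type*} [CommRing R] (q y : R) (P : R[X]) :
    (P * quad q y).coeff 0 = q * P.coeff 0 := by
  have h : (quad q y).coeff 0 = q := by
    unfold quad
    simp
  rw [mul_coeff_zero, h, mul_comm]

private lemma pal67_natDegree_le {R : Type*} [CommRing R] (q : R) {g : ℕ} (x : Fin g → R) :
    (∏ j, quad q (x j)).natDegree ≤ 2 * g := by
  refine (natDegree_prod_le _ _).trans ?_
  refine (Finset.sum_le_card_nsmul _ _ 2 ?_).trans ?_
  · intro j _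
    unfold quad
    compute_degree
  · simp [mul_comm]

/-- The functional equation of a product of `g` quadratic polynomials. -/
lemma prod_quad_coeff {R : Type*} [CommRing R] (q : R) {g : ℕ} (x : Fin g → R) (m : ℕ)
    (hm : m ≤ g) :
    (∏ j, quad q (x j)).coeff m = q ^ (g - m) * (∏ j, quad q (x j)).coeff (2 * g - m) := by
  induction g generalizing m with
  | zero =>
    have hm0 : m = 0 := by omega
    subst hm0
    simp
  | succ g ih =>
    rw [Fin.prod_univ_castSucc]
    set P : R[X] := ∏ j : Fin g, quad q (x (Fin.castSucc j)) with hP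
    have hdeg : P.natDegree ≤ 2 * g := pal67_natDegree_le q _
    have ih' : ∀ m ≤ g, P.coeff m = q ^ (g - m) * P.coeff (2 * g - m) := fun m hm => ih _ m hm
    have hz : ∀ n, 2 * g < n → P.coeff n = 0 := fun n hn =>
      coeff_eq_zero_of_natDegree_lt (lt_of_le_of_lt hdeg hn)
    rcases m with _ | _ | m
    · rw [pal67_coeff_zero, show 2 * (g + 1) - 0 = 2 * g + 2 by omega, pal67_coeff_two,
        hz (2 * g + 1) (by omega), hz (2 * g + 2) (by omega), ih' 0 (by omega)]
      simp only [Nat.sub_zero, mul_zero, sub_zero, add_zero, pow_succ]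
      ring
    · rcases Nat.eq_zero_or_pos g with hg | hg
      · subst hg
        simp
      · rw [zero_add, pal67_coeff_one, show 2 * (g + 1) - 1 = (2 * g - 1) + 2 by omega, pal67_coeff_two,
          show 2 * g - 1 + 1 = 2 * g by omega, hz (2 * g - 1 + 2) (by omega), ih' 0 (by omega),
          ih' 1 (by omega), show g + 1 - 1 = g by omega, show g - 0 = g by omega,
          show 2 * g - 0 = 2 * g by omega]
        obtain ⟨k, rfl⟩ : ∃ k, g = k + 1 := ⟨g - 1, by omega⟩
        rw [show k + 1 - 1 = k by omega]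
        ring
    · rcases Nat.lt_or_ge m (g - 1) with hmg | hmg
      · rw [pal67_coeff_two, show 2 * (g + 1) - (m + 1 + 1) = (2 * g - (m + 2)) + 2 by omega,
          pal67_coeff_two, ih' m (by omega), ih' (m + 1) (by omega), ih' (m + 2) (by omega),
          show 2 * g - (m + 2) + 1 = 2 * g - (m + 1) by omega,
          show 2 * g - (m + 2) + 2 = 2 * g - m by omega]
        obtain ⟨k, rfl⟩ : ∃ k, g = m + 2 + k := ⟨g - (m + 2), by omega⟩
        rw [show m + 2 + k + 1 - (m + 1 + 1) = k + 1 by omega, show m + 2 + k - m = k + 2 by omega,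
          show m + 2 + k - (m + 1) = k + 1 by omega, show m + 2 + k - (m + 2) = k by omega]
        ring
      · have h1 : m + 1 + 1 = g + 1 := by omega
        rw [h1, show 2 * (g + 1) - (g + 1) = g + 1 by omega, Nat.sub_self, pow_zero, one_mul]

/-- Two monic polynomials of degree `2g` with the functional equation and the same upper
coefficients are equal. -/
lemma eq_of_top {R : Type*} [CommRing R] [Nontrivial R] {q : R} {g : ℕ} {P P' : R[X]}
    (h1 : P.Monic) (h2 : P'.Monic) (h3 : P.natDegree = 2 * g) (h4 : P'.natDegree = 2 * g)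
    (h5 : ∀ m ≤ g, P.coeff m = q ^ (g - m) * P.coeff (2 * g - m))
    (h6 : ∀ m ≤ g, P'.coeff m = q ^ (g - m) * P'.coeff (2 * g - m))
    (h7 : ∀ i < g, P.coeff (2 * g - 1 - i) = P'.coeff (2 * g - 1 - i)) : P = P' := by
  have top : ∀ n, g ≤ n → P.coeff n = P'.coeff n := by
    intro n hn
    rcases lt_trichotomy n (2 * g) with h | h | h
    · have := h7 (2 * g - 1 - n) (by omega)
      rwa [show 2 * g - 1 - (2 * g - 1 - n) = n by omega] at this
    · have e1 : P.coeff n = 1 := by rw [h, ← h3]; exact h1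
      have e2 : P'.coeff n = 1 := by rw [h, ← h4]; exact h2
      rw [e1, e2]
    · rw [coeff_eq_zero_of_natDegree_lt (by omega), coeff_eq_zero_of_natDegree_lt (by omega)]
  ext n
  rcases Nat.lt_or_ge n g with hn | hn
  · rw [h5 n hn.le, h6 n hn.le, top (2 * g - n) (by omega)]
  · exact top n hn

lemma IsWeil.monic {q g : ℕ} {P : ℤ[X]} (h : IsWeil q g P) : P.Monic := by
  obtain ⟨x, -, hx⟩ := h
  refine monic_of_injective (f := Int.castRingHom ℝ) Int.cast_injective ?_
  rw [hx]
  exact prod_quad_monic _ _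

lemma IsWeil.natDegree {q g : ℕ} {P : ℤ[X]} (h : IsWeil q g P) : P.natDegree = 2 * g := by
  obtain ⟨x, -, hx⟩ := h
  rw [← natDegree_map_eq_of_injective (f := Int.castRingHom ℝ) Int.cast_injective P, hx]
  exact prod_quad_natDegree _ _

lemma IsWeil.coeff_symm {q g : ℕ} {P : ℤ[X]} (h : IsWeil q g P) (m : ℕ) (hm : m ≤ g) :
    P.coeff m = (q : ℤ) ^ (g - m) * P.coeff (2 * g - m) := by
  obtain ⟨x, -, hx⟩ := h
  have h1 := prod_quad_coeff (q : ℝ) x m hm
  rw [← hx, coeff_map, coeff_map] at h1
  simp only [eq_intCast] at h1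
  exact_mod_cast h1

/-- Weil polynomials are determined by their upper coefficients. -/
lemma IsWeil.ext {q g : ℕ} {P P' : ℤ[X]} (h : IsWeil q g P) (h' : IsWeil q g P')
    (hc : ∀ i < g, P.coeff (2 * g - 1 - i) = P'.coeff (2 * g - 1 - i)) : P = P' := by
  exact eq_of_top (q := (q : ℤ)) h.monic h'.monic h.natDegree h'.natDegree
    (fun m hm => h.coeff_symm m hm) (fun m hm => h'.coeff_symm m hm) hc

/-- Reduction modulo `ℓ`: the polynomial is of swap type as soon as its upper coefficients
are. -/
lemma IsWeil.of_swapSet {q g ℓ : ℕ} [Fact ℓ.Prime] {P : ℤ[X]} (h : IsWeil q g P)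
    (hs : (fun i : Fin g => ((P.coeff (2 * g - 1 - i) : ℤ) : ZMod ℓ)) ∈ swapSet q g ℓ) :
    ∃ (x : Fin g → ZMod ℓ) (j₀ : Fin g), IsSwapType q ℓ x j₀ ∧
      P.map (Int.castRingHom (ZMod ℓ)) = ∏ j, quad (q : ZMod ℓ) (x j) := by
  obtain ⟨x, j₀, hx, hv⟩ := hs
  refine ⟨x, j₀, hx, ?_⟩
  refine eq_of_top (q := (q : ZMod ℓ)) (g := g) (h.monic.map _) (prod_quad_monic _ _) ?_
    (prod_quad_natDegree _ _) ?_ (fun m hm => prod_quad_coeff _ x m hm) ?_
  · rw [h.monic.natDegree_map, h.natDegree]
  · intro m hm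
    rw [coeff_map, coeff_map, h.coeff_symm m hm]
    simp
  · intro i hi
    have := hv ⟨i, hi⟩
    rw [coeff_map]
    simpa using this

end Pool.Agent.Helper71.AA
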