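import Pool.Agent.Helper71.AA.Pal

/-!
# Complex roots and coefficient bounds of Weil polynomials (block AA-ROOT)
-/

set_option autoImplicit false

namespace Pool.Agent.Helper71.AA

open Polynomial

private lemma root82_key {q x : ℝ} (h : x ^ 2 ≤ 4 * q) :
    ∃ a : ℂ, a * (starRingEnd ℂ) a = (q : ℂ) ∧ a + (starRingEnd ℂ) a = (x : ℂ) := by
  refine ⟨⟨x / 2, Real.sqrt (4 * q - x ^ 2) / 2⟩, ?_, ?_⟩
  · rw [Complex.mul_conj]
    congr 1
    rw [Complex.normSq_mk]
    have h2 : Real.sqrt (4 * q - x ^ 2) * Real.sqrt (4 * q - x ^ 2) = 4 * q - x ^ 2 :=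
      Real.mul_self_sqrt (by linarith)
    nlinarith [h2]
  · apply Complex.ext <;> simp

/-- The complex roots of a Weil polynomial. -/
lemma IsWeil.roots {q g : ℕ} {P : ℤ[X]} (h : IsWeil q g P) :
    ∃ α : Fin g → ℂ, (∀ i, α i * (starRingEnd ℂ) (α i) = q) ∧
      P.map (Int.castRingHom ℂ) = ∏ i, ((X - C (α i)) * (X - C ((starRingEnd ℂ) (α i)))) := by
  obtain ⟨x, hx, hP⟩ := h
  choose a ha1 ha2 using fun j => root82_key (hx j)
  refine ⟨a, ?_, ?_⟩
  · intro i
    rw [ha1 i]
    simp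
  · have e : (Int.castRingHom ℂ) = (Complex.ofRealHom).comp (Int.castRingHom ℝ) := by
      ext; simp
    rw [e, ← Polynomial.map_map, hP, Polynomial.map_prod]
    apply Finset.prod_congr rfl
    intro i _
    unfold quad
    simp only [Polynomial.map_add, Polynomial.map_sub, Polynomial.map_mul, Polynomial.map_pow,
      Polynomial.map_X, Polynomial.map_C]
    have h1 : Complex.ofRealHom (x i) = a i + (starRingEnd ℂ) (a i) := (ha2 i).symm
    have h2 : Complex.ofRealHom (q : ℝ) = a i * (starRingEnd ℂ) (a i) := (ha1 i).symm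
    rw [h1, h2, C_add, C_mul]
    ring

private lemma root82_monic {q g : ℕ} {P : ℤ[X]} (h : IsWeil q g P) : P.Monic := by
  obtain ⟨x, -, hP⟩ := h
  have h1 : (P.map (Int.castRingHom ℝ)).Monic := by
    rw [hP]; exact prod_quad_monic _ _
  exact Polynomial.monic_of_injective (RingHom.injective_int _) h1

private lemma root82_natDegree {q g : ℕ} {P : ℤ[X]} (h : IsWeil q g P) : P.natDegree = 2 * g := by
  have h0 := root82_monic h
  obtain ⟨x, -, hP⟩ := h
  rw [← h0.natDegree_map (Int.castRingHom ℝ), hP, prod_quad_natDegree]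

lemma IsWeil.norm_root {q g : ℕ} {P : ℤ[X]} (h : IsWeil q g P) {z : ℂ}
    (hz : aeval z P = 0) : ‖z‖ ^ 2 = q := by
  obtain ⟨a, ha, hP⟩ := h.roots
  have h1 : eval z (P.map (Int.castRingHom ℂ)) = 0 := by
    rw [Polynomial.eval_map]
    simpa [Polynomial.aeval_def] using hz
  rw [hP, eval_prod, Finset.prod_eq_zero_iff] at h1
  obtain ⟨i, -, hi⟩ := h1
  rw [eval_mul, mul_eq_zero] at hi
  have hn : ‖a i‖ ^ 2 = q := by
    have h2 := ha i
    rw [Complex.mul_conj, Complex.normSq_eq_norm_sq] at h2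
    exact_mod_cast h2
  rcases hi with hi | hi
  · have : z = a i := by simpa [sub_eq_zero] using hi
    rw [this, hn]
  · have : z = (starRingEnd ℂ) (a i) := by simpa [sub_eq_zero] using hi
    rw [this, RCLike.norm_conj, hn]

lemma IsWeil.isIntegral_root {q g : ℕ} {P : ℤ[X]} (h : IsWeil q g P) {z : ℂ}
    (hz : aeval z P = 0) : IsIntegral ℤ z :=
  ⟨P, root82_monic h, hz⟩

/-- The coefficient bound. -/
lemma IsWeil.coeff_le {q g : ℕ} {P : ℤ[X]} (h : IsWeil q g P) (i : ℕ) (hi : i < g) :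
    |(P.coeff (2 * g - 1 - i) : ℝ)| ≤ √(q : ℝ) ^ (i + 1) * (2 * g).choose (i + 1) := by
  have hm := root82_monic h
  have hd := root82_natDegree h
  have hd' : (P.map (Int.castRingHom ℂ)).natDegree = 2 * g := by
    rw [hm.natDegree_map, hd]
  have h1 := Polynomial.coeff_le_of_roots_le (p := P.map (Int.castRingHom ℂ)) (f := RingHom.id ℂ)
    (B := √(q : ℝ)) (2 * g - 1 - i) (hm.map _) (by
      rw [Polynomial.map_id]
      exact IsAlgClosed.splits _) (by
      intro z hz
      rw [Polynomial.map_id] at hz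
      have hz0 : (P.map (Int.castRingHom ℂ)) ≠ 0 := (hm.map _).ne_zero
      have hz1 := (mem_roots hz0).mp hz
      have hz2 : aeval z P = 0 := by
        rw [IsRoot.def, Polynomial.eval_map] at hz1
        simpa [Polynomial.aeval_def] using hz1
      have hz3 := h.norm_root hz2
      rw [← hz3, Real.sqrt_sq (norm_nonneg _)])
  rw [Polynomial.map_id, hd', Polynomial.coeff_map] at h1
  have e1 : 2 * g - (2 * g - 1 - i) = i + 1 := by omega
  have e2 : (2 * g).choose (2 * g - 1 - i) = (2 * g).choose (i + 1) := by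
    rw [← Nat.choose_symm (show i + 1 ≤ 2 * g by omega)]
    congr 1
    omega
  rw [e1, e2] at h1
  have e3 : ‖(Int.castRingHom ℂ) (P.coeff (2 * g - 1 - i))‖ = |(P.coeff (2 * g - 1 - i) : ℝ)| := by
    simp
  rw [e3] at h1
  exact h1

end Pool.Agent.Helper71.AA
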